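import Pool.Agent.H389R2.KP.Tail3
import Pool.Agent.H934R2.Expl.Scale
import Pool.Agent.H934R2.Expl.Content

set_option maxHeartbeats 400000

/-!
Number of long arms from a boundary interval, without the edges of the boundary.
-/

namespace H389KP

open H974 H973 Finset H934E

/-- remove the horizontal edges of the bottom row -/
def nb (F : Finset Edg) : Finset Edg := F.filter (fun e => ¬ (e.2.1 = 0 ∧ e.2.2 = true))

theorem nb_sub (F : Finset Edg) : nb F ⊆ F := Finset.filter_subset _ _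

theorem nb_mono {F G : Finset Edg} (h : F ⊆ G) : nb F ⊆ nb G := Finset.filter_subset_filter _ h

theorem mem_nb {F : Finset Edg} {e : Edg} : e ∈ nb F ↔ e ∈ F ∧ ¬ (e.2.1 = 0 ∧ e.2.2 = true) := by
  unfold nb; rw [Finset.mem_filter]

/-- arm at `(k, 0)` which does not use the horizontal edges of the bottom row -/
def AV (k n : ℤ) (F : Finset Edg) : Prop := Ar k n (nb F)

theorem AV.mono {k n : ℤ} {F G : Finset Edg} (h : F ⊆ G) (hF : AV k n F) : AV k n G :=
  Ar.mono (nb_mono h) hF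

theorem IA_AV {k n : ℤ} {F : Finset Edg} (h : H731C.IA k k k 0 n F) : AV k n F := by
  obtain ⟨x, v, hx, hv, hr⟩ := h
  have hxk : x = k := by omega
  subst hxk
  unfold H731C.onH at hv
  refine ⟨v, by omega, hr.mono ?_⟩
  rintro ⟨a, b, c⟩ ⟨h1, h2⟩
  rw [Finset.mem_coe] at h1 h2
  refine ⟨?_, ?_⟩
  · rw [Finset.mem_coe, mem_nb]
    refine ⟨h1, ?_⟩
    rintro ⟨h3, h4⟩
    simp only at h3 h4
    subst h4
    rw [H731C.mem_VE_true] at h2
    omega
  · rw [Finset.mem_coe]
    have := H731C.VE_subset_RE h2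
    simpa using this

theorem AV_lower : ∃ c : ℝ, 0 < c ∧ ∀ k n : ℤ, 1 ≤ n → ∀ S : Finset Edg,
    RE (k - n) (k + n) 0 n ⊆ S → c / th n ≤ Q S (AV k n) := by
  obtain ⟨c, hc, h⟩ := H731C.IA_lower
  refine ⟨c, hc, ?_⟩
  intro k n hn S hS
  obtain ⟨z, hz, h1⟩ := h k k 0 n le_rfl (by omega)
  have hzk : z = k := by omega
  subst hzk
  have h2 := h1 S (H731C.VE_subset_RE.trans (by simpa using hS))
  have h3 : c * (((z - z + 1 : ℤ) : ℝ) / n) ^ ((1 : ℝ) / 3) = c / th n := by
    unfold th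
    have hn0 : (0 : ℝ) < n := by exact_mod_cast (by omega : 0 < n)
    rw [sub_self, zero_add, Int.cast_one, one_div (n : ℝ), Real.inv_rpow hn0.le]
    rfl
  rw [h3] at h2
  exact h2.trans (Q_mono (fun F _ hF => IA_AV hF))

/-- number of arms from `[c - r, c + r]` to distance `5 r` -/
noncomputable def CN (c r : ℤ) (F : Finset Edg) : ℝ :=
  ∑ k ∈ Finset.Icc (c - r) (c + r), ind (AV k (5 * r) F)

theorem CN_nonneg (c r : ℤ) (F : Finset Edg) : 0 ≤ CN c r F :=
  Finset.sum_nonneg (fun _ _ => ind_nonneg _)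

theorem CN_mono {c r : ℤ} {F G : Finset Edg} (h : F ⊆ G) : CN c r F ≤ CN c r G :=
  Finset.sum_le_sum (fun _ _ => ind_mono (fun h1 => h1.mono h))

theorem card_Icc' {c r : ℤ} (hr : 0 ≤ r) :
    ((Finset.Icc (c - r) (c + r)).card : ℝ) = 2 * r + 1 := by
  rw [Int.card_Icc]
  have : ((c + r + 1 - (c - r)).toNat : ℤ) = 2 * r + 1 := by omega
  have h2 : (((c + r + 1 - (c - r)).toNat : ℤ) : ℝ) = ((2 * r + 1 : ℤ) : ℝ) := by rw [this]
  push_cast at h2
  exact h2

theorem pr_CN : ∃ a p : ℝ, 0 < a ∧ 0 < p ∧ ∀ c r : ℤ, 1 ≤ r → ∀ S : Finset Edg,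
    RE (c - 6 * r) (c + 6 * r) 0 (5 * r) ⊆ S →
    p ≤ Q S (fun F => a * (r : ℝ) ^ ((2:ℝ)/3) ≤ CN c r F) := by
  obtain ⟨c1, hc1, hL⟩ := AV_lower
  obtain ⟨c2, C2, hc2, hC2, hP⟩ := pa_bounds
  obtain ⟨C3, hC3, hT⟩ := two_point
  refine ⟨c1 / 5, (2 * c1 / 5) ^ 2 / (4 * (3 * C2 + 27 * C3)), by positivity, by positivity, ?_⟩
  intro c r hr S hS
  have hr1 : (1:ℝ) ≤ r := by exact_mod_cast hr
  have hr0 : (0:ℝ) < r := by linarith
  have ht := th_pos hr
  have t5 := th_mul (c := 5) (n := r) (by norm_num) (by omega)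
  push_cast at t5
  have t6 : th r ≤ th (5 * r) := th_mono (by omega) (by omega)
  have t7 := th_pos (n := 5 * r) (by omega)
  have hU : (r : ℝ) ^ ((2:ℝ)/3) * th r = r := by
    unfold th
    rw [← Real.rpow_add hr0]
    norm_num
  have hU2 : (r : ℝ) ^ ((2:ℝ)/3) * (r : ℝ) ^ ((2:ℝ)/3) = (r : ℝ) ^ ((4:ℝ)/3) := by
    rw [← Real.rpow_add hr0]; norm_num
  have hUp : 0 < (r : ℝ) ^ ((2:ℝ)/3) := Real.rpow_pos_of_pos hr0 _
  have hU1 : 1 ≤ (r : ℝ) ^ ((2:ℝ)/3) := Real.one_le_rpow hr1 (by norm_num)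
  set J := Finset.Icc (c - r) (c + r) with hJ
  have hsub : ∀ k ∈ J, RE (k - 5 * r) (k + 5 * r) 0 (5 * r) ⊆ S := by
    intro k hk
    rw [hJ, Finset.mem_Icc] at hk
    exact (RE_subset (by omega) (by omega) le_rfl le_rfl).trans hS
  -- mean
  have l1 : 2 * c1 / 5 * (r : ℝ) ^ ((2:ℝ)/3) ≤ EE S (CN c r) := by
    have e1 : EE S (CN c r) = ∑ k ∈ J, Q S (AV k (5 * r)) := by
      unfold EE CN
      rw [Ex_sum]
      rfl
    rw [e1]
    have h1 : ∀ k ∈ J, c1 / th (5 * r) ≤ Q S (AV k (5 * r)) := fun k hk =>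
      hL k (5 * r) (by omega) S (hsub k hk)
    have h2 := Finset.sum_le_sum h1
    rw [Finset.sum_const, nsmul_eq_mul, hJ, card_Icc' (by omega)] at h2
    refine le_trans ?_ h2
    rw [← mul_div_assoc, le_div_iff₀ t7]
    calc 2 * c1 / 5 * (r : ℝ) ^ ((2:ℝ)/3) * th (5 * r)
        ≤ 2 * c1 / 5 * (r : ℝ) ^ ((2:ℝ)/3) * (5 * th r) :=
          mul_le_mul_of_nonneg_left t5 (by positivity)
      _ = 2 * ((r : ℝ) ^ ((2:ℝ)/3) * th r) * c1 := by ring
      _ = 2 * r * c1 := by rw [hU]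
      _ ≤ (2 * r + 1) * c1 := by nlinarith
  -- second moment
  have l2 : EE S (fun F => CN c r F * CN c r F) ≤ (3 * C2 + 27 * C3) * (r : ℝ) ^ ((4:ℝ)/3) := by
    have hsq : ∀ F, CN c r F * CN c r F ≤ ∑ k ∈ J, (ind (Ar k (5 * r) F) +
        ∑ l ∈ J.erase k, ind (Ar k (5 * r) F ∧ Ar l (5 * r) F)) := by
      intro F
      unfold CN
      rw [Finset.sum_mul_sum]
      apply Finset.sum_le_sum
      intro k hk
      rw [← Finset.add_sum_erase _ _ hk]
      apply add_le_add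
      · rw [← ind_and]
        exact ind_mono (fun h => Ar.mono (nb_sub F) h.1)
      · apply Finset.sum_le_sum
        intro l _
        rw [← ind_and]
        exact ind_mono (fun h => ⟨Ar.mono (nb_sub F) h.1, Ar.mono (nb_sub F) h.2⟩)
    have h0 : EE S (fun F => CN c r F * CN c r F) ≤ ∑ k ∈ J, (Q S (Ar k (5 * r)) +
        ∑ l ∈ J.erase k, Q S (fun F => Ar k (5 * r) F ∧ Ar l (5 * r) F)) := by
      refine (Ex_mono okhalf (fun F _ => hsq F)).trans (le_of_eq ?_)
      rw [Ex_sum]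
      apply Finset.sum_congr rfl
      intro k _
      rw [Ex_add, Ex_sum]
      rfl
    refine h0.trans ?_
    have h1 : ∀ k ∈ J, (Q S (Ar k (5 * r)) +
        ∑ l ∈ J.erase k, Q S (fun F => Ar k (5 * r) F ∧ Ar l (5 * r) F)) ≤
        C2 / th r + C3 / th r * (2 * ((2 * r : ℝ) ^ ((1:ℝ) - 1/3) / (1 - 1/3))) := by
      intro k hk
      apply add_le_add
      · rw [pr_Ar (by omega) (hsub k hk), le_div_iff₀ ht, mul_comm]
        have b2 := (hP (5 * r) (by omega)).2
        change th (5 * r) * pa (5 * r) ≤ C2 at b2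
        exact (mul_le_mul_of_nonneg_right t6 (pa_nonneg _)).trans b2
      · have hlt : ∀ k ∈ J, ∀ l ∈ J, k < l →
            Q S (fun F => Ar k (5 * r) F ∧ Ar l (5 * r) F) ≤ C3 / th r * dp (1/3) k l := by
          intro k hk l hl hkl
          have hk' := hk
          have hl' := hl
          rw [hJ, Finset.mem_Icc] at hk' hl'
          have h2 := hT k (l - k) (5 * r) (by omega) (by omega) S (hsub k hk) (by
            have := hsub l hl
            simpa using this)
          have e : k + (l - k) = l := by ring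
          rw [e] at h2
          refine h2.trans ?_
          have hd : (0 : ℝ) < (l : ℝ) - k := by
            have : (k : ℝ) < l := by exact_mod_cast hkl
            linarith
          have e3 : dp (1/3) k l = 1 / th (l - k) := by
            unfold dp th
            rw [abs_sub_comm, abs_of_pos hd, Real.rpow_neg hd.le]
            push_cast
            rw [one_div, one_div]
          rw [e3, div_mul_div_comm, mul_one]
          have htd := th_pos (n := l - k) (by omega)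
          apply div_le_div_of_nonneg_left hC3.le (by positivity)
          rw [mul_comm]
          exact mul_le_mul_of_nonneg_left t6 htd.le
        have hall : ∀ l ∈ J.erase k,
            Q S (fun F => Ar k (5 * r) F ∧ Ar l (5 * r) F) ≤ C3 / th r * dp (1/3) k l := by
          intro l hl
          obtain ⟨hne, hl⟩ := Finset.mem_erase.mp hl
          rcases lt_or_gt_of_ne hne with h | h
          · have := hlt l hl k hk h
            rw [dp_comm] at this
            refine le_trans (le_of_eq ?_) this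
            exact Pr_congr (fun F _ => and_comm)
          · exact hlt k hk l hl h
        refine (Finset.sum_le_sum hall).trans ?_
        rw [← Finset.mul_sum]
        apply mul_le_mul_of_nonneg_left _ (by positivity)
        have := sum_dp (a := 1/3) (by norm_num) (by norm_num) (u := 2 * r) (k := k) (J := J)
          (by omega) (by
            intro l hl
            rw [hJ, Finset.mem_Icc] at hk hl
            rw [abs_le]
            omega)
        push_cast at this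
        exact this
    have h2 := Finset.sum_le_sum h1
    rw [Finset.sum_const, nsmul_eq_mul, hJ, card_Icc' (by omega)] at h2
    refine h2.trans ?_
    have i1 : (2 * (r:ℝ)) ^ ((1:ℝ) - 1/3) ≤ 2 * (r : ℝ) ^ ((2:ℝ)/3) := by
      rw [Real.mul_rpow (by norm_num) hr0.le]
      norm_num
      apply mul_le_mul_of_nonneg_right _ hUp.le
      calc (2:ℝ) ^ ((2:ℝ)/3) ≤ (2:ℝ) ^ (1:ℝ) :=
            Real.rpow_le_rpow_of_exponent_le (by norm_num) (by norm_num)
        _ = 2 := Real.rpow_one _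
    have i2 : (r : ℝ) / th r = (r : ℝ) ^ ((2:ℝ)/3) := by
      rw [div_eq_iff ht.ne', hU]
    have i3 : (2 * (r:ℝ) + 1) ≤ 3 * r := by linarith
    have i4 : C2 / th r + C3 / th r * (2 * ((2 * r : ℝ) ^ ((1:ℝ) - 1/3) / (1 - 1/3))) ≤
        C2 / th r + C3 / th r * (6 * (r : ℝ) ^ ((2:ℝ)/3)) := by
      have : 2 * ((2 * r : ℝ) ^ ((1:ℝ) - 1/3) / (1 - 1/3)) ≤ 6 * (r : ℝ) ^ ((2:ℝ)/3) := by
        have e : 2 * ((2 * r : ℝ) ^ ((1:ℝ) - 1/3) / (1 - 1/3)) =
            3 * (2 * r : ℝ) ^ ((1:ℝ) - 1/3) := by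
          ring
        rw [e]
        linarith
      have := mul_le_mul_of_nonneg_left this (show 0 ≤ C3 / th r by positivity)
      linarith
    calc (2 * (r:ℝ) + 1) * (C2 / th r + C3 / th r *
          (2 * ((2 * r : ℝ) ^ ((1:ℝ) - 1/3) / (1 - 1/3))))
        ≤ (3 * r) * (C2 / th r + C3 / th r * (6 * (r : ℝ) ^ ((2:ℝ)/3))) := by
          apply mul_le_mul i3 i4 _ (by positivity)
          have : 0 ≤ (2 * r : ℝ) ^ ((1:ℝ) - 1/3) / (1 - 1/3) := by
            apply div_nonneg (by positivity); norm_num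
          positivity
      _ = 3 * C2 * (r / th r) + 18 * C3 * ((r / th r) * (r : ℝ) ^ ((2:ℝ)/3)) := by ring
      _ = 3 * C2 * (r : ℝ) ^ ((2:ℝ)/3) + 18 * C3 * (r : ℝ) ^ ((4:ℝ)/3) := by
          rw [i2, hU2]
      _ ≤ _ := by
          have i5 : (r : ℝ) ^ ((2:ℝ)/3) ≤ (r : ℝ) ^ ((4:ℝ)/3) := by
            rw [← hU2]; nlinarith
          have i6 : 0 < (r : ℝ) ^ ((4:ℝ)/3) := by positivity
          nlinarith
  have k := paley (S := S) (f := CN c r) (fun F _ => CN_nonneg c r F)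
    (m := 2 * c1 / 5 * (r : ℝ) ^ ((2:ℝ)/3)) (V := (3 * C2 + 27 * C3) * (r : ℝ) ^ ((4:ℝ)/3))
    (by positivity) (by positivity) l1 l2
  have e3 : (2 * c1 / 5 * (r : ℝ) ^ ((2:ℝ)/3)) ^ 2 /
      (4 * ((3 * C2 + 27 * C3) * (r : ℝ) ^ ((4:ℝ)/3))) =
      (2 * c1 / 5) ^ 2 / (4 * (3 * C2 + 27 * C3)) := by
    rw [← hU2]
    field_simp
  rw [e3] at k
  refine k.trans (le_of_eq ?_)
  apply Pr_congr
  intro F _
  have e4 : 2 * c1 / 5 * (r : ℝ) ^ ((2:ℝ)/3) / 2 = c1 / 5 * (r : ℝ) ^ ((2:ℝ)/3) := by ring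
  rw [e4]

end H389KP
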