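import Pool.Agent.H389R2.KP.Arms

set_option maxHeartbeats 400000

/-!
A chain of `L` half-circuits, with many arms in each of them, glued to the negative half-axis.
-/

namespace H389KP

open H974 H973 Finset H934E

theorem LRc_nb {a b c d : ℤ} (hc : 0 < c) {F : Finset Edg} (h : LRc a b c d F) :
    LRc a b c d (nb F) := by
  obtain ⟨y, y', h1, h2, h3⟩ := h
  refine ⟨y, y', h1, h2, h3.mono ?_⟩
  rintro ⟨x, z, b'⟩ ⟨he, hE⟩
  refine ⟨?_, hE⟩
  rw [Finset.mem_coe] at he hE ⊢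
  rw [mem_nb]
  refine ⟨he, ?_⟩
  rintro ⟨h4, h5⟩
  simp only at h4 h5
  subst h5
  rw [mem_LRE_true] at hE
  omega

theorem TBc_nb {a b d : ℤ} {F : Finset Edg} (h : TBc a b 0 d F) :
    TBc a b 0 d (nb F) := by
  obtain ⟨y, y', h1, h2, h3⟩ := h
  refine ⟨y, y', h1, h2, h3.mono ?_⟩
  rintro ⟨x, z, b'⟩ ⟨he, hE⟩
  refine ⟨?_, hE⟩
  rw [Finset.mem_coe] at he hE ⊢
  rw [mem_nb]
  refine ⟨he, ?_⟩
  rintro ⟨h4, h5⟩
  simp only at h4 h5
  subst h5
  rw [mem_TBE_true] at hE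
  omega

theorem HC_nb {k R1 R2 : ℤ} (hR : 0 < R1) {F : Finset Edg} (h : HC k R1 R2 F) :
    HC k R1 R2 (nb F) := ⟨LRc_nb hR h.1, TBc_nb h.2.1, TBc_nb h.2.2⟩

/-- a half-circuit with foot `l`: all information needed for gluing -/
def Foot (F : Finset Edg) (k r l : ℤ) : Prop :=
  (∃ t t', (r ≤ t ∧ t ≤ 3 * r) ∧
    Reach (↑F ∩ ↑(RE (k - 3 * r) (k + 3 * r) r (3 * r))) (k - 3 * r, t) (k + 3 * r, t') ∧
    Reach (F : Set Edg) (k - 3 * r, t) (l, 0)) ∧
  (∃ l', Reach (↑F ∩ ↑(RE (k - 3 * r) (k - r) 0 (3 * r))) (l, 0) (l', 3 * r)) ∧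
  ∀ u v : Vtx, inR (k - r) (k + r) 0 r u →
    (v.1 ≤ k - 3 * r ∨ k + 3 * r ≤ v.1 ∨ 3 * r ≤ v.2) →
    Reach (↑F ∩ ↑(RE (k - 3 * r) (k + 3 * r) 0 (3 * r))) u v → Reach (F : Set Edg) u (l, 0)

theorem exists_foot {F : Finset Edg} {k r : ℤ} (hr : 1 ≤ r) (h : HC k r (3 * r) F) :
    ∃ l, Foot F k r l := by
  obtain ⟨⟨t, t', ht, ht', hT⟩, ⟨q, q', hq, hq', hR⟩, ⟨l, l', hl, hl', hL⟩⟩ := h
  have hT' := hT.mono (Set.inter_subset_inter_right (↑F)
    (by exact_mod_cast LRE_subset_RE : (↑(LRE (k - 3 * r) (k + 3 * r) r (3 * r)) : Set Edg) ⊆ _))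
  have hR' := hR.mono (Set.inter_subset_inter_right (↑F)
    (by exact_mod_cast TBE_subset_RE : (↑(TBE (k + r) (k + 3 * r) 0 (3 * r)) : Set Edg) ⊆ _))
  have hL' := hL.mono (Set.inter_subset_inter_right (↑F)
    (by exact_mod_cast TBE_subset_RE : (↑(TBE (k - 3 * r) (k - r) 0 (3 * r)) : Set Edg) ⊆ _))
  have mTR : Reach (↑F ∩ ↑(RE (k - 3 * r) (k + 3 * r) 0 (3 * r))) (k - 3 * r, t) (q, 0) :=
    cross_meet (by omega) (by omega) le_rfl (by omega) (by omega) le_rfl hT' (by simp only; omega)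
      le_rfl hR' (by simp only; omega) le_rfl
  have mTL : Reach (↑F ∩ ↑(RE (k - 3 * r) (k + 3 * r) 0 (3 * r))) (k - 3 * r, t) (l, 0) :=
    cross_meet le_rfl (by omega) (by omega) (by omega) (by omega) le_rfl hT' le_rfl
      (by simp only; omega) hL' (by simp only; omega) le_rfl
  refine ⟨l, ⟨t, t', ht, hT', mTL.mono Set.inter_subset_left⟩, ⟨l', hL'⟩, ?_⟩
  intro u v hu hv hP
  unfold inR at hu
  rcases hv with hv | hv | hv
  · have m : Reach (↑F ∩ ↑(RE (k - 3 * r) (k + 3 * r) 0 (3 * r))) v (l, 0) :=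
      cross_meet le_rfl (by omega) (by omega) le_rfl (by omega) le_rfl hP.symm hv
        (show k - r ≤ u.1 by omega) hL' le_rfl le_rfl
    exact (hP.trans m).mono Set.inter_subset_left
  · have m : Reach (↑F ∩ ↑(RE (k - 3 * r) (k + 3 * r) 0 (3 * r))) u (q, 0) :=
      cross_meet (by omega) (by omega) le_rfl le_rfl (by omega) le_rfl hP (by omega) hv hR' le_rfl
        le_rfl
    exact (m.trans (mTR.symm.trans mTL)).mono Set.inter_subset_left
  · have m : Reach (↑F ∩ ↑(RE (k - 3 * r) (k + 3 * r) 0 (3 * r))) (k - 3 * r, t) u :=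
      cross_meet le_rfl (by omega) le_rfl (by omega) (by omega) le_rfl hT' le_rfl le_rfl hP
        (by omega) hv
    exact (m.symm.trans mTL).mono Set.inter_subset_left

/-- feet of neighbouring half-circuits are connected -/
theorem foot_next {F : Finset Edg} {k r l l2 : ℤ} (hr : 1 ≤ r) (h1 : Foot F k r l)
    (h2 : Foot F (k + (2 * r + 1)) r l2) : Reach (F : Set Edg) (l, 0) (l2, 0) := by
  obtain ⟨⟨t, t', ht, hT, hTl⟩, -, -⟩ := h1
  obtain ⟨-, ⟨l', hL⟩, -⟩ := h2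
  have e1 : k + (2 * r + 1) - 3 * r = k - r + 1 := by ring
  have e2 : k + (2 * r + 1) - r = k + r + 1 := by ring
  rw [e1, e2] at hL
  have m : Reach (↑F ∩ ↑(RE (k - 3 * r) (k + 3 * r) 0 (3 * r))) (k - 3 * r, t) (l2, 0) :=
    cross_meet (by omega) (by omega) (by omega) (by omega) (by omega) le_rfl hT
      (by simp only; omega) (by simp only; omega) hL (by simp only; omega) le_rfl
  exact hTl.symm.trans (m.mono Set.inter_subset_left)

/-- the centres -/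
def cc (u r : ℤ) (i : ℕ) : ℤ := 7 * u + r + (2 * r + 1) * i

theorem cc_succ (u r : ℤ) (i : ℕ) : cc u r (i + 1) = cc u r i + (2 * r + 1) := by
  unfold cc; push_cast; ring

/-- the three macroscopic crossings -/
def Cr3 (u : ℤ) (F : Finset Edg) : Prop :=
  TBc (7 * u) (9 * u) 0 (30 * u) F ∧
    LRc (-(30 * u)) (30 * u) (10 * u) (30 * u) F ∧ TBc (-(30 * u)) (-(10 * u)) 0 (30 * u) F

theorem Cr3.mono {u : ℤ} {F G : Finset Edg} (h : F ⊆ G) (hF : Cr3 u F) : Cr3 u G :=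
  ⟨hF.1.mono h, hF.2.1.mono h, hF.2.2.mono h⟩

/-- the good event with `L` blocks of size `r`; `u = L r` -/
def GLv (a : ℝ) (L : ℕ) (r : ℤ) (F : Finset Edg) : Prop :=
  Cr3 (L * r) F ∧ ∀ i < L, HC (cc (L * r) r i) r (3 * r) F ∧
    a * (r : ℝ) ^ ((2:ℝ)/3) ≤ CN (cc (L * r) r i) r F

theorem GLv.mono {a : ℝ} {L : ℕ} {r : ℤ} {F G : Finset Edg} (h : F ⊆ G) (hF : GLv a L r F) :
    GLv a L r G :=
  ⟨hF.1.mono h, fun i hi => ⟨(hF.2 i hi).1.mono h, (hF.2 i hi).2.trans (CN_mono h)⟩⟩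

/-- every point of `[7u, 9u]` is close to a centre -/
theorem near_centre {L : ℕ} {r x : ℤ} (hL : 1 ≤ L) (hr : 1 ≤ r) (h1 : 7 * (L * r) ≤ x)
    (h2 : x ≤ 9 * (L * r)) : ∃ i < L, cc (L * r) r i - r ≤ x ∧ x ≤ cc (L * r) r i + r := by
  set D : ℤ := 2 * r + 1 with hD
  have hD0 : 0 < D := by omega
  set y : ℤ := x - 7 * (L * r) with hy
  have hy0 : 0 ≤ y := by omega
  have hyL : y < D * L := by
    have : (1 : ℤ) ≤ L := by exact_mod_cast hL
    have e : D * (L : ℤ) = 2 * (L * r) + L := by rw [hD]; ring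
    omega
  have q0 : 0 ≤ y / D := Int.ediv_nonneg hy0 hD0.le
  have q1 : y / D < L := Int.ediv_lt_of_lt_mul hD0 (by rw [mul_comm] at hyL; exact hyL)
  have q2 := Int.emod_add_mul_ediv y D
  have q3 := Int.emod_nonneg y hD0.ne'
  have q4 := Int.emod_lt_of_pos y hD0
  refine ⟨(y / D).toNat, by omega, ?_⟩
  unfold cc
  have q5 : (((y / D).toNat : ℕ) : ℤ) = y / D := Int.toNat_of_nonneg q0
  rw [q5, ← hD]
  constructor <;> omega

theorem GLv_W {a : ℝ} {L : ℕ} {r : ℤ} (hL : 1 ≤ L) (hr : 1 ≤ r) {F : Finset Edg}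
    (h : GLv a L r F) {i : ℕ} (hi : i < L) {k : ℤ}
    (hk : cc (L * r) r i - r ≤ k ∧ k ≤ cc (L * r) r i + r) (hA : AV k (5 * r) F) :
    W (nb F) (k, 0) := by
  obtain ⟨⟨c1, c2, c3⟩, hB⟩ := h
  set u : ℤ := L * r with hu
  have hLz : (1 : ℤ) ≤ L := by exact_mod_cast hL
  have hur : r ≤ u := by rw [hu]; nlinarith
  obtain ⟨x, x', hx, hx', hP⟩ := TBc_nb c1
  obtain ⟨t, t', ht, ht', hT⟩ := LRc_nb (by omega) c2
  obtain ⟨l, l', hl, hl', hLl⟩ := TBc_nb c3
  have hfoot : ∀ j < L, ∃ f, Foot (nb F) (cc u r j) r f := fun j hj =>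
    exists_foot hr (HC_nb (by omega) (hB j hj).1)
  choose! f hf using hfoot
  -- all feet are connected
  have hchain : ∀ j, j < L → Reach (↑(nb F) : Set Edg) (f 0, 0) (f j, 0) := by
    intro j
    induction j with
    | zero => exact fun _ => Reach.refl _ _
    | succ j ih =>
      intro hj
      have h2 := hf (j + 1) hj
      rw [cc_succ] at h2
      exact (ih (by omega)).trans (foot_next hr (hf j (by omega)) h2)
  -- the vertical crossing
  have hP' := hP.mono (Set.inter_subset_inter_right (↑(nb F))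
    (by exact_mod_cast TBE_subset_RE : (↑(TBE (7 * u) (9 * u) 0 (30 * u)) : Set Edg) ⊆ _))
  have hT' := hT.mono (Set.inter_subset_inter_right (↑(nb F))
    (by exact_mod_cast LRE_subset_RE :
      (↑(LRE (-(30 * u)) (30 * u) (10 * u) (30 * u)) : Set Edg) ⊆ _))
  have hL' := hLl.mono (Set.inter_subset_inter_right (↑(nb F))
    (by exact_mod_cast TBE_subset_RE :
      (↑(TBE (-(30 * u)) (-(10 * u)) 0 (30 * u)) : Set Edg) ⊆ _))
  have m3 : Reach (↑(nb F) ∩ ↑(RE (-(30 * u)) (30 * u) 0 (30 * u))) (-(30 * u), t) (x, 0) :=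
    cross_meet (a := 7 * u) (b := 9 * u) (c := 10 * u) (d := 30 * u) (by omega) (by omega)
      (by omega) (by omega) (by omega) le_rfl hT' (by simp only; omega) (by simp only; omega) hP'
      (by simp only; omega) le_rfl
  have m4 : Reach (↑(nb F) ∩ ↑(RE (-(30 * u)) (30 * u) 0 (30 * u))) (-(30 * u), t) (l, 0) :=
    cross_meet (a := -(30 * u)) (b := -(10 * u)) (c := 10 * u) (d := 30 * u) le_rfl (by omega)
      (by omega) (by omega) (by omega) le_rfl hT' le_rfl (by simp only; omega) hL'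
      (by simp only; omega) le_rfl
  have m5 : Reach NA (0, 0) (l, 0) := NA_line (by omega)
  -- the foot of the vertical crossing is near a centre
  obtain ⟨j, hj, hj1, hj2⟩ := near_centre (x := x) hL hr hx.1 hx.2
  rw [← hu] at hj1 hj2
  obtain ⟨w', hw1', _, hw2'⟩ := exitG (k := cc u r j) (R := 3 * r) (by omega)
    (G := ↑(nb F) ∩ ↑(RE (7 * u) (9 * u) 0 (30 * u)))
    (fun e he _ => RE_nonneg (Finset.mem_coe.mp he.2))
    (u := (x, 0)) (v := (x', 30 * u)) (by unfold inR; simp only; omega) hP'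
    (by simp only; omega)
  have m2 := (hf j hj).2.2 (x, 0) w' (by unfold inR; simp only; omega) hw1'
    (hw2'.mono (by rintro e ⟨⟨he1, _⟩, he2⟩; exact ⟨he1, he2⟩))
  -- the arm
  obtain ⟨y, hy, hy2⟩ := hA
  obtain ⟨w, hw1, _, hw2⟩ := exitG (k := cc u r i) (R := 3 * r) (by omega)
    (G := ↑(nb F) ∩ ↑(RE (k - 5 * r) (k + 5 * r) 0 (5 * r)))
    (fun e he _ => RE_nonneg (Finset.mem_coe.mp he.2))
    (u := (k, 0)) (v := y) (by unfold inR; simp only; omega) hy2 (by omega)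
  have m1 := (hf i hi).2.2 (k, 0) w (by unfold inR; simp only; omega) hw1
    (hw2.mono (by rintro e ⟨⟨he1, _⟩, he2⟩; exact ⟨he1, he2⟩))
  have s0 : (↑(nb F) : Set Edg) ⊆ ↑(nb F) ∪ NA := Set.subset_union_left
  have s1 : ∀ X : Set Edg, (↑(nb F) : Set Edg) ∩ X ⊆ ↑(nb F) ∪ NA :=
    fun X => Set.inter_subset_left.trans Set.subset_union_left
  exact (m5.mono Set.subset_union_right).trans ((m4.symm.mono (s1 _)).trans
    ((m3.mono (s1 _)).trans ((m2.mono s0).trans (((hchain j hj).symm.mono s0).trans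
      (((hchain i hi).mono s0).trans (m1.symm.mono s0))))))

end H389KP
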