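import Pool.Agent.H389R2.KP.StepLow

set_option maxHeartbeats 400000

namespace H389KP

open H974 Finset H731C

theorem EV_succ {k : ℕ} {D : ℕ → Vtx → Prop} {F : Finset Edg} :
    EV (k + 1) D F ↔ EV k D F ∧ ∃ u, D k u ∧ W F u := by
  unfold EV
  constructor
  · intro h
    exact ⟨fun i hi => h i (by omega), h k (by omega)⟩
  · rintro ⟨h1, h2⟩ i hi
    rcases Nat.lt_succ_iff_lt_or_eq.mp hi with h | h
    · exact h1 i h
    · exact h ▸ h2

/-- ordered intervals to the right of the origin -/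
def Ord (k : ℕ) (a b : ℕ → ℤ) : Prop := b 0 = 0 ∧ ∀ i < k, b i < a (i + 1) ∧ a (i + 1) ≤ b (i + 1)

theorem Ord.le {k : ℕ} {a b : ℕ → ℤ} (h : Ord k a b) {i j : ℕ} (hij : i ≤ j) (hj : j ≤ k) :
    b i ≤ b j := by
  induction j, hij using Nat.le_induction with
  | base => exact le_rfl
  | succ j hij ih =>
    have := h.2 j (by omega)
    have := ih (by omega)
    omega

theorem Ord.pred {k : ℕ} {a b : ℕ → ℤ} (h : Ord (k + 1) a b) : Ord k a b :=
  ⟨h.1, fun i hi => h.2 i (by omega)⟩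

theorem fin_upper : ∃ C : ℝ, 0 < C ∧ ∀ (k : ℕ) (a b : ℕ → ℤ), Ord k a b → ∀ N : ℤ, 4 * b k ≤ N →
    P2 (VE (-N) N 0 N) (EV k (fun i u => SQ (a (i + 1)) (b (i + 1)) u)) ≤
      ∏ i ∈ range k, (C * rt (b i) (a (i + 1)) (b (i + 1))) := by
  obtain ⟨C, hC, h⟩ := step_up
  refine ⟨C, hC, ?_⟩
  intro k a b hO N hN
  induction k with
  | zero => exact (Pr_le_one okhalf2 _ _).trans (by simp)
  | succ k ih =>
    have hO' := hO.pred
    have h0 := hO.le (i := 0) (j := k) (by omega) (by omega)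
    rw [hO.1] at h0
    have hk := hO.2 k (by omega)
    have ih' := ih hO' (by omega)
    rw [prod_range_succ, mul_comm]
    have h1 := h N (a (k + 1)) (b (k + 1)) (b k) k (fun i u => SQ (a (i + 1)) (b (i + 1)) u) h0
      hk.1 hk.2 hN (by
        intro i hi u hu
        have h3 := hO.le (i := i + 1) (j := k) (by omega) (by omega)
        unfold SQ inR at hu
        omega)
    have h2 : P2 (VE (-N) N 0 N) (EV (k + 1) (fun i u => SQ (a (i + 1)) (b (i + 1)) u)) =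
        P2 (VE (-N) N 0 N) (fun F => EV k (fun i u => SQ (a (i + 1)) (b (i + 1)) u) F ∧
          TB (a (k + 1)) (b (k + 1)) F) :=
      Pr_congr (fun F _ => EV_succ)
    rw [h2]
    exact h1.trans (mul_le_mul_of_nonneg_left ih' (mul_nonneg hC.le (rt_pos hk.1 hk.2).le))

theorem fin_lower : ∃ c : ℝ, 0 < c ∧ ∀ (k : ℕ) (a b : ℕ → ℤ), Ord k a b →
    (∀ i : ℕ, i + 1 < k → b (i + 1) - a (i + 1) + 1 ≤ a (i + 2) - b (i + 1)) →
    ∀ N : ℤ, 40 * b k ≤ N → 
    ∏ i ∈ range k, (c * rt (b i) (a (i + 1)) (b (i + 1))) ≤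
    P2 (VE (-N) N 0 N) (EV k (fun i u => (a (i + 1) ≤ u.1 ∧ u.1 ≤ b (i + 1)) ∧ u.2 = 0)) := by
  obtain ⟨c, hc, h⟩ := step_low
  refine ⟨c, hc, ?_⟩
  intro k a b hO hsep N hN
  induction k with
  | zero =>
    rw [prod_range_zero]
    exact (Pr_true _ (fun F _ i hi => absurd hi (Nat.not_lt_zero i))).ge
  | succ k ih =>
    have hO' := hO.pred
    have h0 := hO.le (i := 0) (j := k) (by omega) (by omega)
    rw [hO.1] at h0
    have hk := hO.2 k (by omega)
    have ih' := ih hO' (fun i hi => hsep i (by omega)) (by omega)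
    rw [prod_range_succ, mul_comm]
    have h1 := h N (a (k + 1)) (b (k + 1)) (b k) k
      (fun i u => (a (i + 1) ≤ u.1 ∧ u.1 ≤ b (i + 1)) ∧ u.2 = 0) h0
      hk.1 hk.2 hN (by rintro rfl; exact hO.1) (by
        intro i hi u hu
        subst hi
        have h3 := hsep i (by omega)
        have h4 : a (i + 1 + 1) = a (i + 2) := rfl
        obtain ⟨⟨hu1, hu2⟩, hu3⟩ := hu
        omega)
    have h2 : P2 (VE (-N) N 0 N)
        (EV (k + 1) (fun i u => (a (i + 1) ≤ u.1 ∧ u.1 ≤ b (i + 1)) ∧ u.2 = 0)) =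
        P2 (VE (-N) N 0 N) (fun F =>
          EV k (fun i u => (a (i + 1) ≤ u.1 ∧ u.1 ≤ b (i + 1)) ∧ u.2 = 0) F ∧
          TI (a (k + 1)) (b (k + 1)) F) := by
      apply Pr_congr
      intro F _
      rw [EV_succ]
      constructor
      · rintro ⟨h1, ⟨x, y⟩, ⟨h2, h3⟩, h4⟩
        simp only at h2 h3
        subst h3
        exact ⟨h1, x, h2, h4⟩
      · rintro ⟨h1, x, h2, h3⟩
        exact ⟨h1, (x, 0), ⟨h2, rfl⟩, h3⟩
    rw [h2]
    exact (mul_le_mul_of_nonneg_left ih' (mul_nonneg hc.le (rt_pos hk.1 hk.2).le)).trans h1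

end H389KP
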