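import Pool.Agent.H389R2.KP.LIL2

namespace H389KP

open MeasureTheory Filter Topology

/-- number of boundary points in `[1, m]` which belong to `C_-` -/
noncomputable def NC (m : ℕ) (ω : Conf) : ℕ :=
  {x : ℕ | (1 ≤ x ∧ x ≤ m) ∧ ((x : ℤ), 0) ∈ Cm ω}.ncard

theorem NC_eq (m : ℕ) (ω : Conf) : NC m ω = Nv m ω := by
  classical
  unfold NC Nv
  rw [← Set.ncard_coe_finset]
  congr 1
  ext x
  simp

theorem final : ∃ c C : ℝ, 0 < c ∧ 0 < C ∧
    (∀ m : ℕ, 1 ≤ m → ∀ t : ℝ, 0 ≤ t →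
      perc.real {ω | t * (m : ℝ) ^ ((2:ℝ) / 3) ≤ NC m ω} ≤ C * Real.exp (-(c * t ^ 3))) ∧
    (∀ m : ℕ, ∀ t : ℝ, 1 ≤ t → t ≤ c * (m : ℝ) ^ ((1:ℝ) / 3) →
      Real.exp (-(C * t ^ 3)) ≤ perc.real {ω | c * t * (m : ℝ) ^ ((2:ℝ) / 3) ≤ NC m ω}) ∧
    (∀ m : ℕ, 1 ≤ m → ∀ t : ℝ, 1 ≤ t → t ≤ (m : ℝ) ^ ((2:ℝ) / 3) →
      perc.real {ω | (NC m ω : ℝ) < (m : ℝ) ^ ((2:ℝ) / 3) / t} ≤ C * t ^ (-c)) ∧
    (∀ᵐ ω ∂perc,
      (∀ᶠ m : ℕ in atTop, (NC m ω : ℝ) ≤
        C * (m : ℝ) ^ ((2:ℝ) / 3) * (Real.log (Real.log m)) ^ ((1:ℝ) / 3)) ∧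
      (∃ᶠ m : ℕ in atTop,
        c * (m : ℝ) ^ ((2:ℝ) / 3) * (Real.log (Real.log m)) ^ ((1:ℝ) / 3) ≤ NC m ω) ∧
      (∀ᶠ m : ℕ in atTop, (m : ℝ) ^ ((2:ℝ) / 3) * (Real.log m) ^ (-C) ≤ NC m ω)) := by
  obtain ⟨a1, ha1, h1⟩ := upper_tail
  obtain ⟨b2, K2, hb2, hK2, h2⟩ := ld_lower
  obtain ⟨d3, K3, hd3, hK3, h3⟩ := lower_tail
  obtain ⟨C4, hC4, h4⟩ := lil_upper
  obtain ⟨c5, hc5, h5⟩ := lil_lower
  obtain ⟨K6, hK6, h6⟩ := lower_env
  set c : ℝ := min (min a1 b2) (min d3 c5) with hc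
  have hca : c ≤ a1 := (min_le_left _ _).trans (min_le_left _ _)
  have hcb : c ≤ b2 := (min_le_left _ _).trans (min_le_right _ _)
  have hcd : c ≤ d3 := (min_le_right _ _).trans (min_le_left _ _)
  have hcc : c ≤ c5 := (min_le_right _ _).trans (min_le_right _ _)
  have hc0 : 0 < c := lt_min (lt_min ha1 hb2) (lt_min hd3 hc5)
  set C : ℝ := Real.exp 1 + K2 + K3 + C4 + K6 with hC
  have he := Real.exp_pos 1
  have hC0 : 0 < C := by positivity
  refine ⟨c, C, hc0, hC0, ?_, ?_, ?_, ?_⟩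
  · intro m hm t ht
    simp only [NC_eq]
    refine (h1 m hm t ht).trans ?_
    apply mul_le_mul _ _ (Real.exp_nonneg _) hC0.le
    · rw [hC]; linarith
    · apply Real.exp_le_exp.mpr
      have := mul_le_mul_of_nonneg_right hca (pow_nonneg ht 3)
      linarith
  · intro m t ht htm
    simp only [NC_eq]
    have ht0 : 0 ≤ t := by linarith
    have hm : 0 ≤ (m : ℝ) ^ ((1:ℝ) / 3) := by positivity
    have h7 := h2 m t ht (htm.trans (mul_le_mul_of_nonneg_right hcb hm))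
    have h8 : Real.exp (-(C * t ^ 3)) ≤ Real.exp (-(K2 * t ^ 3)) := by
      apply Real.exp_le_exp.mpr
      have : K2 * t ^ 3 ≤ C * t ^ 3 := by
        apply mul_le_mul_of_nonneg_right _ (pow_nonneg ht0 3)
        rw [hC]; linarith
      linarith
    refine h8.trans (h7.trans (measureReal_mono ?_ (measure_ne_top _ _)))
    intro ω hω
    have hω' : b2 * t * (m : ℝ) ^ ((2/3) : ℝ) ≤ Nv m ω := hω
    show c * t * (m : ℝ) ^ ((2:ℝ) / 3) ≤ Nv m ω
    refine le_trans ?_ hω'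
    apply mul_le_mul_of_nonneg_right _ (by positivity)
    exact mul_le_mul_of_nonneg_right hcb ht0
  · intro m hm t ht htm
    simp only [NC_eq]
    refine (h3 m hm t ht htm).trans ?_
    apply mul_le_mul _ _ (by positivity) hC0.le
    · rw [hC]; linarith
    · exact Real.rpow_le_rpow_of_exponent_le ht (by linarith)
  · filter_upwards [h4, h5, h6] with ω g4 g5 g6
    simp only [NC_eq]
    have hll : Tendsto (fun m : ℕ => Real.log m) atTop atTop :=
      Real.tendsto_log_atTop.comp tendsto_natCast_atTop_atTop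
    refine ⟨?_, ?_, ?_⟩
    · filter_upwards [g4, hll.eventually_ge_atTop 1] with m hm hm1
      refine hm.trans ?_
      have hl : 0 ≤ Real.log (Real.log m) := Real.log_nonneg hm1
      apply mul_le_mul_of_nonneg_right _ (by positivity)
      apply mul_le_mul_of_nonneg_right _ (by positivity)
      rw [hC]; linarith
    · refine (g5.and_eventually (hll.eventually_ge_atTop 1)).mono ?_
      rintro m ⟨hm, hm1⟩
      refine le_trans ?_ hm
      have hl : 0 ≤ Real.log (Real.log m) := Real.log_nonneg hm1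
      apply mul_le_mul_of_nonneg_right _ (by positivity)
      exact mul_le_mul_of_nonneg_right hcc (by positivity)
    · filter_upwards [g6, hll.eventually_ge_atTop 1] with m hm hm1
      refine le_trans ?_ hm
      apply mul_le_mul_of_nonneg_left _ (by positivity)
      apply Real.rpow_le_rpow_of_exponent_le hm1
      rw [hC]; linarith

end H389KP
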