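import Pool.Agent.H389R2.KP.Inf2

set_option maxHeartbeats 400000

namespace H389KP

open MeasureTheory Filter Topology

theorem log16 : Real.log 16 ≤ 3 := by
  have h : (16 : ℝ) ≤ Real.exp 1 ^ 3 := by
    have := Real.exp_one_gt_d9
    have h2 : (2.7182818283 : ℝ) ^ 3 ≤ Real.exp 1 ^ 3 := pow_le_pow_left₀ (by norm_num) this.le 3
    refine le_trans ?_ h2
    norm_num
  have h3 := Real.log_le_log (by norm_num) h
  rwa [Real.log_pow, Real.log_exp, mul_one] at h3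

/-- Lower tail. -/
theorem lower_tail : ∃ δ K : ℝ, 0 < δ ∧ 0 < K ∧ ∀ m : ℕ, 1 ≤ m → ∀ t : ℝ, 1 ≤ t →
    t ≤ (m : ℝ) ^ ((2/3) : ℝ) →
    perc.real {ω : Conf | (Nv m ω : ℝ) < (m : ℝ) ^ ((2/3) : ℝ) / t} ≤ K * t ^ (-δ) := by
  obtain ⟨a, κ, q, ha, ha1, hκ, hκ1, hq, hq1, h⟩ := none_inf
  set lam : ℝ := κ * q with hlam
  have hlam0 : 0 < lam := by positivity
  have hlam1 : lam ≤ 1 := by nlinarith
  -- exponents
  have hl16 : 0 < Real.log 16 := Real.log_pos (by norm_num)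
  refine ⟨lam * (3/2) / Real.log 16, (20 / a ^ ((3:ℝ)/2)) ^ (lam / Real.log 16) + 1,
    by positivity, by positivity, ?_⟩
  intro m hm t ht htm
  have hm0 : (0 : ℝ) < m := by exact_mod_cast (by omega : 0 < m)
  have ht0 : 0 < t := by linarith
  set y : ℝ := (a * t) ^ ((3:ℝ)/2) with hy
  have hy0 : 0 < y := by positivity
  -- the bound in terms of y
  have hbound : (y / 20) ^ (-(lam / Real.log 16)) ≤
      ((20 / a ^ ((3:ℝ)/2)) ^ (lam / Real.log 16) + 1) * t ^ (-(lam * (3/2) / Real.log 16)) := by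
    have e1 : y / 20 = (20 / a ^ ((3:ℝ)/2))⁻¹ * t ^ ((3:ℝ)/2) := by
      rw [hy, Real.mul_rpow ha.le ht0.le, inv_div]; ring
    rw [e1, Real.mul_rpow (by positivity) (by positivity), Real.inv_rpow (by positivity),
      ← Real.rpow_neg (by positivity), neg_neg, ← Real.rpow_mul ht0.le]
    have e2 : (3:ℝ)/2 * -(lam / Real.log 16) = -(lam * (3/2) / Real.log 16) := by ring
    rw [e2]
    apply mul_le_mul_of_nonneg_right _ (by positivity)
    linarith
  by_cases hy20 : y < 20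
  · -- trivial case
    refine le_trans measureReal_le_one ?_
    refine le_trans ?_ hbound
    rw [Real.rpow_neg (by positivity)]
    apply (one_le_inv₀ (by positivity)).mpr
    apply Real.rpow_le_one (by positivity) _ (by positivity)
    rw [div_le_one (by norm_num)]
    exact hy20.le
  push Not at hy20
  -- the number of scales
  set J : ℕ := ⌊Real.log (y / 20) / Real.log 16⌋₊ with hJ
  have hlog : 0 ≤ Real.log (y / 20) := Real.log_nonneg (by rw [le_div_iff₀ (by norm_num)]; linarith)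
  have hJ1 : (J : ℝ) ≤ Real.log (y / 20) / Real.log 16 := Nat.floor_le (by positivity)
  have hJ2 : Real.log (y / 20) / Real.log 16 < J + 1 := Nat.lt_floor_add_one _
  have h16J : (16 : ℝ) ^ J ≤ y / 20 := by
    have h1 : (J : ℝ) * Real.log 16 ≤ Real.log (y / 20) := by
      rw [le_div_iff₀ hl16] at hJ1; exact hJ1
    calc (16 : ℝ) ^ J = Real.exp (J * Real.log 16) := by
          rw [mul_comm, Real.exp_mul, Real.exp_log (by norm_num), Real.rpow_natCast]
      _ ≤ Real.exp (Real.log (y / 20)) := Real.exp_le_exp.mpr h1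
      _ = y / 20 := Real.exp_log (by positivity)
  have hym : y ≤ m := by
    have h1 : a * t ≤ (m : ℝ) ^ ((2/3) : ℝ) := by nlinarith
    calc y ≤ ((m : ℝ) ^ ((2/3) : ℝ)) ^ ((3:ℝ)/2) :=
          Real.rpow_le_rpow (by positivity) h1 (by norm_num)
      _ = m := by rw [← Real.rpow_mul hm0.le]; norm_num
  have h20 : 20 * 16 ^ J ≤ m := by
    have : 20 * (16 : ℝ) ^ J ≤ m := by linarith
    exact_mod_cast this
  have hD : 0 < 10 * 16 ^ J := by positivity
  set r : ℕ := m / (10 * 16 ^ J) with hr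
  have hr1 : 1 ≤ r := by
    rw [hr, Nat.one_le_div_iff hD]; omega
  have hr2 : 10 * 16 ^ J * r ≤ m := Nat.mul_div_le m (10 * 16 ^ J)
  have hr3 : (m : ℝ) / (20 * 16 ^ J) ≤ r := by
    have h1 : m < 10 * 16 ^ J * (r + 1) := Nat.lt_mul_div_succ m hD
    have h2 : (m : ℝ) < 10 * 16 ^ J * (r + 1) := by exact_mod_cast h1
    have h3 : (1 : ℝ) ≤ r := by exact_mod_cast hr1
    rw [div_le_iff₀ (by positivity)]
    have h4 : (0 : ℝ) < 16 ^ J := by positivity
    nlinarith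
  have hmain := h 1 r J le_rfl hr1
  -- comparison of events
  have hsub : {ω : Conf | (Nv m ω : ℝ) < (m : ℝ) ^ ((2/3) : ℝ) / t} ⊆
      {ω : Conf | ∀ j ≤ J, (Nv (10 * (1 * (16 ^ j * r))) ω : ℝ) <
        ((1 : ℕ) : ℝ) * (a * ((16 : ℝ) ^ j * r) ^ ((2:ℝ)/3))} := by
    intro ω hω j hj
    have hω' : (Nv m ω : ℝ) < (m : ℝ) ^ ((2/3) : ℝ) / t := hω
    have h1 : 10 * (1 * (16 ^ j * r)) ≤ m := by
      have : 16 ^ j ≤ 16 ^ J := Nat.pow_le_pow_right (by norm_num) hj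
      calc 10 * (1 * (16 ^ j * r)) = 10 * 16 ^ j * r := by ring
        _ ≤ 10 * 16 ^ J * r := by gcongr
        _ ≤ m := hr2
    have h2 : (Nv (10 * (1 * (16 ^ j * r))) ω : ℝ) ≤ Nv m ω := by exact_mod_cast Nv_mono h1 ω
    have h3 : (m : ℝ) ^ ((2/3) : ℝ) / t ≤ a * ((16 : ℝ) ^ j * r) ^ ((2:ℝ)/3) := by
      have h4 : (m : ℝ) / y ≤ (16 : ℝ) ^ j * r := by
        have h5 : (m : ℝ) / y ≤ (m : ℝ) / (20 * 16 ^ J) := by
          apply div_le_div_of_nonneg_left hm0.le (by positivity); linarith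
        have h6 : (r : ℝ) ≤ 16 ^ j * r :=
          le_mul_of_one_le_left (by positivity) (one_le_pow₀ (by norm_num))
        linarith
      have h7 : ((m : ℝ) / y) ^ ((2:ℝ)/3) ≤ ((16 : ℝ) ^ j * r) ^ ((2:ℝ)/3) :=
        Real.rpow_le_rpow (by positivity) h4 (by norm_num)
      have h8 : ((m : ℝ) / y) ^ ((2:ℝ)/3) = (m : ℝ) ^ ((2/3) : ℝ) / (a * t) := by
        rw [Real.div_rpow hm0.le hy0.le, hy, ← Real.rpow_mul (by positivity)]
        norm_num
      rw [h8] at h7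
      calc (m : ℝ) ^ ((2/3) : ℝ) / t = a * ((m : ℝ) ^ ((2/3) : ℝ) / (a * t)) := by
            field_simp
        _ ≤ _ := mul_le_mul_of_nonneg_left h7 ha.le
    have h9 : ((1 : ℕ) : ℝ) * (a * ((16 : ℝ) ^ j * r) ^ ((2:ℝ)/3)) =
        a * ((16 : ℝ) ^ j * r) ^ ((2:ℝ)/3) := by push_cast; ring
    rw [h9]
    linarith
  refine (measureReal_mono hsub (measure_ne_top _ _)).trans (hmain.trans ?_)
  refine le_trans ?_ hbound
  rw [pow_one, ← hlam]
  calc (1 - lam) ^ (J + 1) ≤ Real.exp (-lam) ^ (J + 1) := by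
        apply pow_le_pow_left₀ (by linarith)
        have := Real.add_one_le_exp (-lam)
        linarith
    _ = Real.exp (-(lam * (J + 1))) := by
        rw [← Real.exp_nat_mul]; congr 1; push_cast; ring
    _ ≤ Real.exp (-(lam * (Real.log (y / 20) / Real.log 16))) := by
        apply Real.exp_le_exp.mpr
        have := mul_le_mul_of_nonneg_left hJ2.le hlam0.le
        linarith
    _ = (y / 20) ^ (-(lam / Real.log 16)) := by
        rw [Real.rpow_def_of_pos (by positivity)]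
        congr 1
        ring

/-- Large deviations, lower bound. -/
theorem ld_lower : ∃ b K : ℝ, 0 < b ∧ 0 < K ∧ ∀ m : ℕ, ∀ t : ℝ, 1 ≤ t →
    t ≤ b * (m : ℝ) ^ ((1/3) : ℝ) →
    Real.exp (-(K * t ^ 3)) ≤
      perc.real {ω : Conf | b * t * (m : ℝ) ^ ((2/3) : ℝ) ≤ Nv m ω} := by
  obtain ⟨a, κ, q, ha, ha1, hκ, hκ1, hq, hq1, h⟩ := none_inf
  have hlq : 0 < Real.log (1 / q) := Real.log_pos (by rw [lt_div_iff₀ hq]; linarith)
  have hlκ : 0 ≤ Real.log (1 / κ) := Real.log_nonneg (by rw [le_div_iff₀ hκ]; linarith)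
  refine ⟨min (a / 8) (1/3), 2 * Real.log (1 / q) + Real.log (1 / κ), lt_min (by positivity)
    (by norm_num), by positivity, ?_⟩
  set b : ℝ := min (a / 8) (1/3) with hb
  have hb0 : 0 < b := lt_min (by positivity) (by norm_num)
  have hb1 : b ≤ a / 8 := min_le_left _ _
  have hb2 : b ≤ 1/3 := min_le_right _ _
  intro m t ht htm
  have ht0 : 0 < t := by linarith
  have hm13 : 0 < (m : ℝ) ^ ((1/3) : ℝ) := by
    by_contra hc
    push Not at hc
    nlinarith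
  have hm0 : (0 : ℝ) < m := by
    rcases Nat.eq_zero_or_pos m with h0 | h0
    · rw [h0] at hm13
      norm_num at hm13
    · exact_mod_cast h0
  have ht1 : (1 : ℝ) ≤ t ^ 3 := one_le_pow₀ ht
  set L : ℕ := ⌈t ^ 3⌉₊ with hL
  have hL1 : t ^ 3 ≤ L := Nat.le_ceil _
  have hL2 : (L : ℝ) ≤ 2 * t ^ 3 := by
    have := Nat.ceil_lt_add_one (show 0 ≤ t ^ 3 by positivity)
    linarith
  have hLn : 1 ≤ L := by
    have : (1 : ℝ) ≤ L := by linarith
    exact_mod_cast this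
  have hLr : (1 : ℝ) ≤ L := by exact_mod_cast hLn
  have ht3 : t ^ 3 ≤ m / 27 := by
    have h1 : t ^ 3 ≤ (b * (m : ℝ) ^ ((1/3) : ℝ)) ^ 3 := pow_le_pow_left₀ ht0.le htm 3
    have h2 : ((m : ℝ) ^ ((1/3) : ℝ)) ^ 3 = m := by
      rw [← Real.rpow_natCast, ← Real.rpow_mul hm0.le]; norm_num
    rw [mul_pow, h2] at h1
    have h3 : b ^ 3 ≤ (1/3) ^ 3 := pow_le_pow_left₀ hb0.le hb2 3
    nlinarith
  have hD : 0 < 10 * L := by omega
  have h10L : 10 * L ≤ m := by
    have : (10 * (L : ℝ)) ≤ m := by linarith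
    exact_mod_cast this
  set r : ℕ := m / (10 * L) with hr
  have hr1 : 1 ≤ r := by rw [hr, Nat.one_le_div_iff hD]; exact h10L
  have hr2 : 10 * L * r ≤ m := Nat.mul_div_le m (10 * L)
  have hr3 : (m : ℝ) / (20 * L) ≤ r := by
    have h1 : m < 10 * L * (r + 1) := Nat.lt_mul_div_succ m hD
    have h2 : (m : ℝ) < 10 * L * (r + 1) := by exact_mod_cast h1
    have h3 : (1 : ℝ) ≤ r := by exact_mod_cast hr1
    rw [div_le_iff₀ (by positivity)]
    nlinarith
  have hmain := h L r 0 hLn hr1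
  rw [zero_add, pow_one] at hmain
  -- the complement
  set A : Set Conf := {ω : Conf | ∀ j ≤ 0, (Nv (10 * (L * (16 ^ j * r))) ω : ℝ) <
      L * (a * ((16 : ℝ) ^ j * r) ^ ((2:ℝ)/3))} with hA
  have hcompl : κ * q ^ L ≤ perc.real Aᶜ := by
    have h1 : (1 : ℝ) ≤ perc.real A + perc.real Aᶜ := by
      have := measureReal_union_le (μ := perc) A Aᶜ
      rw [Set.union_compl_self] at this
      simpa using this
    linarith
  have hlow : Real.exp (-((2 * Real.log (1 / q) + Real.log (1 / κ)) * t ^ 3)) ≤ κ * q ^ L := by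
    have h1 : κ * q ^ L = Real.exp (-(Real.log (1 / κ) + L * Real.log (1 / q))) := by
      rw [one_div, one_div, Real.log_inv, Real.log_inv]
      rw [show -(-Real.log κ + L * -Real.log q) = Real.log κ + L * Real.log q by ring,
        Real.exp_add, Real.exp_log hκ, mul_comm (L : ℝ), Real.exp_mul, Real.exp_log hq,
        Real.rpow_natCast]
    rw [h1]
    apply Real.exp_le_exp.mpr
    have h2 : Real.log (1 / κ) ≤ Real.log (1 / κ) * t ^ 3 := le_mul_of_one_le_right hlκ ht1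
    have h3 : L * Real.log (1 / q) ≤ 2 * t ^ 3 * Real.log (1 / q) :=
      mul_le_mul_of_nonneg_right hL2 hlq.le
    nlinarith
  refine hlow.trans (hcompl.trans (measureReal_mono ?_ (measure_ne_top _ _)))
  intro ω hω
  have hω' : ¬ ∀ j ≤ 0, (Nv (10 * (L * (16 ^ j * r))) ω : ℝ) <
      L * (a * ((16 : ℝ) ^ j * r) ^ ((2:ℝ)/3)) := hω
  push Not at hω'
  obtain ⟨j, hj, hω2⟩ := hω'
  have hj0 : j = 0 := by omega
  subst hj0
  rw [pow_zero, one_mul] at hω2
  show b * t * (m : ℝ) ^ ((2/3) : ℝ) ≤ Nv m ω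
  have h1 : (Nv (10 * (L * (16 ^ 0 * r))) ω : ℝ) ≤ Nv m ω := by
    have : 10 * (L * (16 ^ 0 * r)) ≤ m := by
      rw [pow_zero, one_mul, ← mul_assoc]; exact hr2
    exact_mod_cast Nv_mono this ω
  refine le_trans ?_ (hω2.trans h1)
  -- arithmetic
  have h2 : ((m : ℝ) / (20 * L)) ^ ((2:ℝ)/3) ≤ (r : ℝ) ^ ((2:ℝ)/3) :=
    Real.rpow_le_rpow (by positivity) hr3 (by norm_num)
  have h3 : ((m : ℝ) / (20 * L)) ^ ((2:ℝ)/3) =
      (m : ℝ) ^ ((2/3) : ℝ) / ((20:ℝ) ^ ((2:ℝ)/3) * (L : ℝ) ^ ((2:ℝ)/3)) := by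
    rw [Real.div_rpow hm0.le (by positivity), Real.mul_rpow (by norm_num) (by positivity)]
  have h20 : (20:ℝ) ^ ((2:ℝ)/3) ≤ 8 := by
    have : (20:ℝ) ^ ((2:ℝ)/3) ≤ ((8:ℝ) ^ ((3:ℝ)/2)) ^ ((2:ℝ)/3) := by
      apply Real.rpow_le_rpow (by norm_num) _ (by norm_num)
      have h8 : (8:ℝ) ^ ((3:ℝ)/2) = 8 * (8:ℝ) ^ ((1:ℝ)/2) := by
        rw [show (3:ℝ)/2 = 1 + 1/2 by norm_num, Real.rpow_add (by norm_num), Real.rpow_one]
      rw [h8, ← Real.sqrt_eq_rpow]
      have : (2.5 : ℝ) ≤ Real.sqrt 8 := Real.le_sqrt_of_sq_le (by norm_num)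
      linarith
    rw [← Real.rpow_mul (by norm_num)] at this
    norm_num at this
    norm_num
    exact this
  have hLp : 0 < (L : ℝ) ^ ((2:ℝ)/3) := Real.rpow_pos_of_pos (by linarith) _
  have hL3 : (L : ℝ) ^ ((1:ℝ)/3) * (L : ℝ) ^ ((2:ℝ)/3) = L := by
    rw [← Real.rpow_add (by linarith)]; norm_num
  have htL : t ≤ (L : ℝ) ^ ((1:ℝ)/3) := by
    have h4 : (t ^ 3) ^ ((1:ℝ)/3) ≤ (L : ℝ) ^ ((1:ℝ)/3) :=
      Real.rpow_le_rpow (by positivity) hL1 (by norm_num)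
    rwa [← Real.rpow_natCast, ← Real.rpow_mul ht0.le, show ((3 : ℕ) : ℝ) * (1/3) = 1 by norm_num,
      Real.rpow_one] at h4
  have hm23 : 0 < (m : ℝ) ^ ((2/3) : ℝ) := Real.rpow_pos_of_pos hm0 _
  calc b * t * (m : ℝ) ^ ((2/3) : ℝ)
      ≤ (a / 8) * (L : ℝ) ^ ((1:ℝ)/3) * (m : ℝ) ^ ((2/3) : ℝ) := by
        apply mul_le_mul_of_nonneg_right _ hm23.le
        exact mul_le_mul hb1 htL ht0.le (by positivity)
    _ = L * (a * ((m : ℝ) ^ ((2/3) : ℝ) / (8 * (L : ℝ) ^ ((2:ℝ)/3)))) := by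
        have hne : (L : ℝ) ^ ((2:ℝ)/3) ≠ 0 := hLp.ne'
        field_simp
        first
          | exact hL3
          | exact hL3.symm
          | linear_combination hL3
          | linear_combination -hL3
    _ ≤ L * (a * ((m : ℝ) ^ ((2/3) : ℝ) / ((20:ℝ) ^ ((2:ℝ)/3) * (L : ℝ) ^ ((2:ℝ)/3)))) := by
        apply mul_le_mul_of_nonneg_left _ (by positivity)
        apply mul_le_mul_of_nonneg_left _ ha.le
        apply div_le_div_of_nonneg_left hm23.le (by positivity)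
        exact mul_le_mul_of_nonneg_right h20 hLp.le
    _ ≤ L * (a * (r : ℝ) ^ ((2:ℝ)/3)) := by
        apply mul_le_mul_of_nonneg_left _ (by positivity)
        apply mul_le_mul_of_nonneg_left _ ha.le
        rw [← h3]; exact h2

end H389KP
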