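import Pool.Agent.H389R2.KP.Fin
import Pool.Agent.H973R2.Main1

set_option maxHeartbeats 400000

/-!
Infinite volume.
-/

namespace H389KP

open MeasureTheory Filter Topology

/-- Edges of `ℤ × ℕ`: `(x, y, true)` joins `(x, y)` and `(x + 1, y)`; `(x, y, false)` joins
`(x, y)` and `(x, y + 1)`. -/
abbrev Edge := ℤ × ℕ × Bool

/-- Configurations. -/
abbrev Conf := Edge → Bool

/-- Independent fair coins on the edges. -/
noncomputable def perc : Measure Conf :=
  Measure.infinitePi (fun _ : Edge => (PMF.uniformOfFintype Bool).toMeasure)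

instance : IsProbabilityMeasure perc := by unfold perc; infer_instance

/-- The edges of the real axis are open to the left of `0` and closed to the right; the other
edges follow `ω`. -/
def IsOpen (ω : Conf) (e : Edge) : Prop :=
  if e.2.1 = 0 ∧ e.2.2 = true then e.1 < 0 else ω e = true

/-- `u` and `v` are the ends of an open edge. -/
def Joined (ω : Conf) (u v : ℤ × ℕ) : Prop :=
  (v = (u.1 + 1, u.2) ∧ IsOpen ω (u.1, u.2, true)) ∨
    (v = (u.1, u.2 + 1) ∧ IsOpen ω (u.1, u.2, false))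

/-- The open cluster of the negative half-axis. -/
def Cm (ω : Conf) : Set (ℤ × ℕ) := {v | Relation.EqvGen (Joined ω) (0, 0) v}

open H974 H731C Finset

theorem coin_eq (b : Bool) : (PMF.uniformOfFintype Bool).toMeasure {b} = 1/2 := by
  rw [PMF.toMeasure_apply_singleton _ _ (measurableSet_singleton b)]
  simp

section generic

variable {E : Type} [DecidableEq E] (τ : Edg → E) (S : Finset Edg)

open Classical in
/-- the open edges of `S` -/
noncomputable def GO (ω : E → Bool) : Finset Edg := S.filter (fun e => ω (τ e) = true)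

theorem mem_GO {ω : E → Bool} {e : Edg} : e ∈ GO τ S ω ↔ e ∈ S ∧ ω (τ e) = true := by
  unfold GO; rw [Finset.mem_filter]

variable {τ S}

theorem mem_img (hτ : Set.InjOn τ S) {T : Finset Edg} (hT : T ⊆ S) {e : Edg} (he : e ∈ S) :
    τ e ∈ T.image τ ↔ e ∈ T := by
  constructor
  · intro h
    obtain ⟨e', h1, h2⟩ := Finset.mem_image.mp h
    rw [← hτ (hT h1) he h2]
    exact h1
  · exact fun h => Finset.mem_image_of_mem _ h

theorem GO_eq_pi (hτ : Set.InjOn τ S) {T : Finset Edg} (hT : T ⊆ S) :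
    {ω | GO τ S ω = T} = Set.pi (↑(S.image τ) : Set E)
      (fun g => {b : Bool | b = true ↔ g ∈ T.image τ}) := by
  ext ω
  rw [Set.mem_pi]
  constructor
  · intro h g hg
    have h' : GO τ S ω = T := h
    obtain ⟨e, he, rfl⟩ := Finset.mem_image.mp (Finset.mem_coe.mp hg)
    show ω (τ e) = true ↔ τ e ∈ T.image τ
    rw [mem_img hτ hT he, ← h', mem_GO]
    exact ⟨fun h => ⟨he, h⟩, fun h => h.2⟩
  · intro h
    show GO τ S ω = T
    ext e
    rw [mem_GO]
    constructor
    · rintro ⟨he, hω⟩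
      have h2 : ω (τ e) = true ↔ τ e ∈ T.image τ :=
        h (τ e) (Finset.mem_coe.mpr (Finset.mem_image_of_mem _ he))
      rw [mem_img hτ hT he] at h2
      exact h2.mp hω
    · intro he
      have h2 : ω (τ e) = true ↔ τ e ∈ T.image τ :=
        h (τ e) (Finset.mem_coe.mpr (Finset.mem_image_of_mem _ (hT he)))
      rw [mem_img hτ hT (hT he)] at h2
      exact ⟨hT he, h2.mpr he⟩

theorem meas_GO (hτ : Set.InjOn τ S) (T : Finset Edg) : MeasurableSet {ω | GO τ S ω = T} := by
  by_cases hT : T ⊆ S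
  · rw [GO_eq_pi hτ hT]
    exact MeasurableSet.pi (Finset.countable_toSet _) (fun _ _ => MeasurableSet.of_discrete)
  · have : {ω | GO τ S ω = T} = ∅ := by
      ext ω
      simp only [Set.mem_empty_iff_false, iff_false]
      intro h
      have h' : GO τ S ω = T := h
      exact hT (h' ▸ Finset.filter_subset _ _)
    rw [this]
    exact MeasurableSet.empty

theorem prob_GO (hτ : Set.InjOn τ S) {T : Finset Edg} (hT : T ⊆ S) :
    (Measure.infinitePi (fun _ : E => (PMF.uniformOfFintype Bool).toMeasure)).real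
      {ω | GO τ S ω = T} = (1/2 : ℝ) ^ S.card := by
  classical
  rw [measureReal_def, GO_eq_pi hτ hT]
  rw [Measure.infinitePi_pi _ (fun _ _ => MeasurableSet.of_discrete), ENNReal.toReal_prod,
    Finset.prod_image hτ]
  have h1 : ∀ e ∈ S, ((PMF.uniformOfFintype Bool).toMeasure
      {b : Bool | b = true ↔ τ e ∈ T.image τ}).toReal = 1/2 := by
    intro e _
    by_cases he : τ e ∈ T.image τ
    · have : {b : Bool | b = true ↔ τ e ∈ T.image τ} = {true} := by
        ext b; simp [he]
      rw [this, coin_eq]; simp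
    · have : {b : Bool | b = true ↔ τ e ∈ T.image τ} = {false} := by
        ext b; simp [he]
      rw [this, coin_eq]; simp
  rw [Finset.prod_congr rfl h1, Finset.prod_const]

theorem event_GO (hτ : Set.InjOn τ S) (Q : Finset Edg → Prop) :
    (Measure.infinitePi (fun _ : E => (PMF.uniformOfFintype Bool).toMeasure)).real
      {ω | Q (GO τ S ω)} = P2 S Q := by
  classical
  have hU : {ω | Q (GO τ S ω)} = ⋃ T ∈ S.powerset.filter Q, {ω | GO τ S ω = T} := by
    ext ω
    simp only [Set.mem_iUnion, Finset.mem_filter, Finset.mem_powerset]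
    constructor
    · intro h
      exact ⟨GO τ S ω, ⟨Finset.filter_subset _ _, h⟩, rfl⟩
    · rintro ⟨T, ⟨-, hQ⟩, hω⟩
      have hω' : GO τ S ω = T := hω
      show Q (GO τ S ω)
      rw [hω']; exact hQ
  rw [hU, measureReal_biUnion_finset]
  · unfold P2 Pr
    rw [H973.Ex_half, Finset.sum_filter, Finset.mul_sum]
    apply Finset.sum_congr rfl
    intro T hT
    split_ifs with hQ
    · rw [prob_GO hτ (Finset.mem_powerset.mp hT), ind_of hQ, mul_one]
    · rw [ind_not_of hQ, mul_zero]
  · intro T _ T' _ hne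
    rw [Function.onFun, Set.disjoint_left]
    intro ω h1 h2
    exact hne ((show GO τ S ω = T from h1).symm.trans (show GO τ S ω = T' from h2))
  · intro T _
    exact meas_GO hτ T

end generic

/-- from the edges of `ℤ × ℤ` to the edges of `ℤ × ℕ` -/
def tn (e : Edg) : Edge := (e.1, e.2.1.toNat, e.2.2)

theorem tn_inj (N : ℤ) : Set.InjOn tn (↑(VE (-N) N 0 N) : Set Edg) := by
  rintro ⟨x, y, b⟩ h ⟨x', y', b'⟩ h' e
  have h1 := VE_nonneg (Finset.mem_coe.mp h)
  have h2 := VE_nonneg (Finset.mem_coe.mp h')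
  unfold tn at e
  simp only [Prod.mk.injEq] at e h1 h2 ⊢
  refine ⟨e.1, ?_, e.2.2⟩
  omega

/-- the open edges of the box of size `N` which are not on the real axis -/
noncomputable def ON (N : ℕ) (ω : Conf) : Finset Edg := GO tn (VE (-(N : ℤ)) N 0 N) ω

theorem ON_mono {N M : ℕ} (h : N ≤ M) (ω : Conf) : ON N ω ⊆ ON M ω := by
  intro e he
  unfold ON at he ⊢
  rw [mem_GO] at he ⊢
  refine ⟨VE_mono (by omega) (by omega) (by omega) he.1, he.2⟩

theorem ON_event (N : ℕ) (Q : Finset Edg → Prop) :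
    perc.real {ω | Q (ON N ω)} = P2 (VE (-(N : ℤ)) N 0 N) Q :=
  event_GO (tn_inj N) Q

/-- the embedding of the vertices -/
def em (v : ℤ × ℕ) : Vtx := (v.1, (v.2 : ℤ))

theorem joined_adj {ω : Conf} {u v : ℤ × ℕ} (h : Joined ω u v) :
    ∃ N : ℕ, Adj (↑(ON N ω) ∪ NA) (em u) (em v) := by
  obtain ⟨x, y⟩ := u
  rcases h with ⟨rfl, h⟩ | ⟨rfl, h⟩
  · by_cases hy : y = 0
    · subst hy
      unfold IsOpen at h
      simp only [and_self, if_true] at h
      refine ⟨0, (x, 0, true), Or.inr ⟨h, rfl, rfl⟩, Or.inl ⟨rfl, rfl⟩⟩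
    · unfold IsOpen at h
      simp only [hy, false_and, if_false] at h
      refine ⟨x.natAbs + y + 1, (x, (y : ℤ), true), Or.inl ?_, Or.inl ⟨rfl, rfl⟩⟩
      unfold ON
      rw [Finset.mem_coe, mem_GO, mem_VE_true]
      refine ⟨by omega, ?_⟩
      unfold tn
      simpa using h
  · unfold IsOpen at h
    simp only [Bool.false_eq_true, and_false, if_false] at h
    refine ⟨x.natAbs + y + 1, (x, (y : ℤ), false), Or.inl ?_, Or.inl ⟨rfl, ?_⟩⟩
    · unfold ON
      rw [Finset.mem_coe, mem_GO, mem_VE_false]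
      refine ⟨by omega, ?_⟩
      unfold tn
      simpa using h
    · rw [tgt_false]
      unfold em
      simp

theorem reach_ON_mono {N M : ℕ} (h : N ≤ M) {ω : Conf} {u v : Vtx}
    (hr : Reach (↑(ON N ω) ∪ NA) u v) : Reach (↑(ON M ω) ∪ NA) u v :=
  hr.mono (Set.union_subset_union_left _ (by exact_mod_cast ON_mono h ω))

theorem Cm_reach {ω : Conf} {v : ℤ × ℕ} (h : v ∈ Cm ω) : ∃ N : ℕ, W (ON N ω) (em v) := by
  have key : ∀ u v : ℤ × ℕ, Relation.EqvGen (Joined ω) u v →
      ∃ N : ℕ, Reach (↑(ON N ω) ∪ NA) (em u) (em v) := by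
    intro u v h
    induction h with
    | rel u v h =>
      obtain ⟨N, hN⟩ := joined_adj h
      exact ⟨N, Adj.reach hN⟩
    | refl u => exact ⟨0, Reach.refl _ _⟩
    | symm u v _ ih =>
      obtain ⟨N, hN⟩ := ih
      exact ⟨N, hN.symm⟩
    | trans u v w _ _ ih1 ih2 =>
      obtain ⟨N, hN⟩ := ih1
      obtain ⟨M, hM⟩ := ih2
      exact ⟨max N M, (reach_ON_mono (le_max_left _ _) hN).trans
        (reach_ON_mono (le_max_right _ _) hM)⟩
  exact key _ _ h

theorem reach_Cm {ω : Conf} {N : ℕ} {v : Vtx} (h : W (ON N ω) v) :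
    0 ≤ v.2 ∧ (v.1, v.2.toNat) ∈ Cm ω := by
  unfold W at h
  induction h with
  | refl => exact ⟨le_rfl, Relation.EqvGen.refl _⟩
  | @tail u v _ hs ih =>
    obtain ⟨hu, hC⟩ := ih
    -- both ends of an edge
    have key : ∀ e : Edg, e ∈ (↑(ON N ω) ∪ NA : Set Edg) →
        0 ≤ (src e).2 ∧ 0 ≤ (tgt e).2 ∧
        Joined ω ((src e).1, (src e).2.toNat) ((tgt e).1, (tgt e).2.toNat) := by
      rintro ⟨x, y, b⟩ (he | he)
      · unfold ON at he
        rw [Finset.mem_coe, mem_GO] at he
        obtain ⟨h1, h2⟩ := he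
        have hy := VE_nonneg h1
        simp only at hy
        cases b
        · rw [tgt_false]
          refine ⟨hy, by simp only; omega, Or.inr ⟨?_, ?_⟩⟩
          · simp only [src_mk, Prod.mk.injEq, true_and]; omega
          · unfold IsOpen
            simp only [Bool.false_eq_true, and_false, if_false]
            exact h2
        · rw [tgt_true]
          refine ⟨hy, hy, Or.inl ⟨rfl, ?_⟩⟩
          rw [mem_VE_true] at h1
          unfold IsOpen
          have hy0 : ¬ (y.toNat = 0) := by omega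
          simp only [src_mk, hy0, false_and, if_false]
          exact h2
      · obtain ⟨h1, h2, h3⟩ := he
        simp only at h1 h2 h3
        subst h2 h3
        rw [tgt_true]
        refine ⟨le_rfl, le_rfl, Or.inl ⟨rfl, ?_⟩⟩
        unfold IsOpen
        simp only [src_mk, Int.toNat_zero, and_self, if_true]
        exact h1
    obtain ⟨e, he, hc⟩ := hs
    obtain ⟨k1, k2, k3⟩ := key e he
    rcases hc with ⟨h1, h2⟩ | ⟨h1, h2⟩
    · rw [h1] at k1 k3
      rw [h2] at k2 k3
      exact ⟨k2, Relation.EqvGen.trans _ _ _ hC (Relation.EqvGen.rel _ _ k3)⟩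
    · rw [h1] at k1 k3
      rw [h2] at k2 k3
      exact ⟨k1, Relation.EqvGen.trans _ _ _ hC
        (Relation.EqvGen.symm _ _ (Relation.EqvGen.rel _ _ k3))⟩

/-- the event that the cluster meets finitely many sets is the increasing limit of the events in
finite boxes -/
theorem EV_iUnion (k : ℕ) (D : ℕ → ℤ × ℕ → Prop) :
    {ω : Conf | ∀ i < k, ∃ v, D i v ∧ v ∈ Cm ω} =
      ⋃ N : ℕ, {ω | EV k (fun i u => 0 ≤ u.2 ∧ D i (u.1, u.2.toNat)) (ON N ω)} := by
  ext ω
  simp only [Set.mem_setOf_eq, Set.mem_iUnion]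
  constructor
  · intro h
    induction k with
    | zero => exact ⟨0, fun i hi => absurd hi (Nat.not_lt_zero i)⟩
    | succ k ih =>
      obtain ⟨N, hN⟩ := ih (fun i hi => h i (by omega))
      obtain ⟨v, hv, hC⟩ := h k (by omega)
      obtain ⟨M, hM⟩ := Cm_reach hC
      refine ⟨max N M, ?_⟩
      rw [EV_succ]
      refine ⟨hN.mono (ON_mono (le_max_left _ _) ω), em v, ?_,
        hM.mono (ON_mono (le_max_right _ _) ω)⟩
      unfold em
      simpa using hv
  · rintro ⟨N, hN⟩ i hi
    obtain ⟨u, ⟨h1, h2⟩, h3⟩ := hN i hi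
    exact ⟨(u.1, u.2.toNat), h2, (reach_Cm h3).2⟩

theorem EV_tendsto (k : ℕ) (D : ℕ → ℤ × ℕ → Prop) :
    Tendsto (fun N : ℕ => P2 (VE (-(N : ℤ)) N 0 N)
      (EV k (fun i u => 0 ≤ u.2 ∧ D i (u.1, u.2.toNat)))) atTop
      (𝓝 (perc.real {ω : Conf | ∀ i < k, ∃ v, D i v ∧ v ∈ Cm ω})) := by
  have hm : Monotone (fun N : ℕ =>
      {ω : Conf | EV k (fun i u => 0 ≤ u.2 ∧ D i (u.1, u.2.toNat)) (ON N ω)}) := by
    intro N M h ω hω
    exact EV.mono (ON_mono h ω) hω
  have h := tendsto_measure_iUnion_atTop (μ := perc) hm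
  rw [← EV_iUnion] at h
  have h2 := (ENNReal.tendsto_toReal (measure_ne_top perc _)).comp h
  refine h2.congr ?_
  intro N
  exact ON_event N _

end H389KP
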