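import Pool.Agent.H389R2.KP.Lower

set_option maxHeartbeats 400000

namespace H389KP

open H974 H973 Finset H934E MeasureTheory Filter Topology

theorem tn_injRE (N : ℤ) : Set.InjOn tn (↑(RE (-N) N 0 N) : Set Edg) := by
  rintro ⟨x, y, b⟩ h ⟨x', y', b'⟩ h' e
  have h1 := RE_nonneg (Finset.mem_coe.mp h)
  have h2 := RE_nonneg (Finset.mem_coe.mp h')
  unfold tn at e
  simp only [Prod.mk.injEq] at e h1 h2 ⊢
  refine ⟨e.1, ?_, e.2.2⟩
  omega

/-- all open coins of the box, with the coins of the real axis -/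
noncomputable def OF (N : ℕ) (ω : Conf) : Finset Edg := GO tn (RE (-(N : ℤ)) N 0 N) ω

theorem OF_event (N : ℕ) (A : Finset Edg → Prop) :
    perc.real {ω | A (OF N ω)} = Q (RE (-(N : ℤ)) N 0 N) A :=
  event_GO (tn_injRE N) A

theorem nb_OF (N : ℕ) (ω : Conf) : nb (OF N ω) = ON N ω := by
  ext ⟨x, y, b⟩
  unfold OF ON
  rw [mem_nb, mem_GO, mem_GO]
  cases b
  · rw [H731C.mem_VE_false, mem_RE_false]
    simp only [Bool.false_eq_true, and_false, not_false_eq_true, and_true]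
    constructor
    · rintro ⟨h1, h2⟩
      exact ⟨by omega, h2⟩
    · rintro ⟨h1, h2⟩
      exact ⟨by omega, h2⟩
  · rw [H731C.mem_VE_true, mem_RE_true]
    simp only [and_true]
    constructor
    · rintro ⟨⟨h1, h2⟩, h3⟩
      exact ⟨by omega, h2⟩
    · rintro ⟨h1, h2⟩
      exact ⟨⟨by omega, h2⟩, by omega⟩

/-- the fundamental estimate in infinite volume -/
theorem none_inf : ∃ a κ q : ℝ, 0 < a ∧ a ≤ 1 ∧ 0 < κ ∧ κ ≤ 1 ∧ 0 < q ∧ q ≤ 1 / 2 ∧
    ∀ (L r J : ℕ), 1 ≤ L → 1 ≤ r →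
    perc.real {ω : Conf | ∀ j ≤ J, (Nv (10 * (L * (16 ^ j * r))) ω : ℝ) <
      L * (a * ((16 : ℝ) ^ j * r) ^ ((2:ℝ)/3))} ≤ (1 - κ * q ^ L) ^ (J + 1) := by
  obtain ⟨a0, q, ha0, hq, hq1, h⟩ := pr_GLv
  have hk := kc3_pos
  refine ⟨min 1 a0, min 1 kc3, min (1/2) q, lt_min one_pos ha0, min_le_left _ _,
    lt_min one_pos hk, min_le_left _ _, lt_min (by norm_num) hq, min_le_left _ _, ?_⟩
  set a : ℝ := min 1 a0 with haa
  have ha : 0 < a := lt_min one_pos ha0
  have haa0 : a ≤ a0 := min_le_right _ _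
  intro L r J hL hr
  set κ : ℝ := min 1 kc3 with hκ
  set q' : ℝ := min (1/2) q with hq'
  have hκ0 : 0 < κ := lt_min one_pos hk
  have hq0 : 0 < q' := lt_min (by norm_num) hq
  have hq2 : q' ≤ 1/2 := min_le_left _ _
  have hrz : (1 : ℤ) ≤ r := by exact_mod_cast hr
  have hLz : (1 : ℤ) ≤ L := by exact_mod_cast hL
  have hu : (1 : ℤ) ≤ (L : ℤ) * r := by nlinarith
  have husj : ∀ j : ℕ, us (L * r) j = (L : ℤ) * (16 ^ j * r) := by
    intro j; unfold us; ring
  have h16 : ∀ j : ℕ, (1 : ℤ) ≤ 16 ^ j * r := by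
    intro j
    have : (1:ℤ) ≤ 16 ^ j := one_le_pow₀ (by norm_num)
    nlinarith
  -- the events
  have hG : ∀ j : ℕ, ∀ S : Finset Edg, SU (us ((L : ℤ) * r) j) ⊆ S →
      κ * q' ^ L ≤ Q S (GLv a0 L (16 ^ j * r)) := by
    intro j S hS
    rw [husj] at hS
    refine le_trans ?_ (h L (16 ^ j * r) hL (h16 j) S hS)
    apply mul_le_mul (min_le_right _ _) _ (by positivity) hk.le
    exact pow_le_pow_left₀ hq0.le (min_le_right _ _) L
  have hp1 : κ * q' ^ L ≤ 1 := by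
    have h1 : q' ^ L ≤ 1 := pow_le_one₀ hq0.le (by linarith)
    have h2 : κ ≤ 1 := min_le_left _ _
    calc κ * q' ^ L ≤ 1 * 1 := mul_le_mul h2 h1 (by positivity) (by norm_num)
      _ = 1 := one_mul 1
  set N : ℕ := 30 * (L * (16 ^ J * r)) with hN
  have hNz : 30 * us ((L : ℤ) * r) J ≤ (N : ℤ) := by
    rw [husj, hN]; push_cast; linarith
  have hS : ES (HK 0 (30 * us ((L : ℤ) * r) J)) ⊆ RE (-(N : ℤ)) N 0 N := by
    rw [ES_HK]
    exact RE_subset (by omega) (by omega) le_rfl (by omega)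
  have h1 := pr_none (G := fun j => GLv a0 L (16 ^ j * r)) hp1 hu hG J _ hS
  rw [← OF_event] at h1
  refine le_trans ?_ h1
  apply measureReal_mono
  · intro ω hω j hj hGj
    have h2 := hω j hj
    have h3 : L * (a0 * (((16 ^ j * r : ℤ)) : ℝ) ^ ((2:ℝ)/3)) ≤
        (cnt (10 * (L * (16 ^ j * r))) (nb (OF N ω ∩ SU (us ((L : ℤ) * r) j))) : ℝ) :=
      GLv_cnt hL (h16 j) hGj (by push_cast; linarith)
    have h4 : cnt (10 * (L * (16 ^ j * r))) (nb (OF N ω ∩ SU (us ((L : ℤ) * r) j))) ≤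
        Nv (10 * (L * (16 ^ j * r))) ω := by
      refine le_trans ?_ (cnt_le_Nv N _ ω)
      classical
      unfold cnt
      apply Finset.card_le_card
      intro x hx
      rw [Finset.mem_filter] at hx ⊢
      refine ⟨hx.1, hx.2.mono ?_⟩
      rw [← nb_OF]
      exact nb_mono Finset.inter_subset_left
    have h5 : (cnt (10 * (L * (16 ^ j * r))) (nb (OF N ω ∩ SU (us ((L : ℤ) * r) j))) : ℝ) ≤
        Nv (10 * (L * (16 ^ j * r))) ω := by exact_mod_cast h4
    push_cast at h3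
    have h6 : (L : ℝ) * (a * ((16 : ℝ) ^ j * r) ^ ((2:ℝ)/3)) ≤
        L * (a0 * ((16 : ℝ) ^ j * r) ^ ((2:ℝ)/3)) := by
      apply mul_le_mul_of_nonneg_left _ (by positivity)
      exact mul_le_mul_of_nonneg_right haa0 (by positivity)
    linarith
  · exact measure_ne_top _ _

theorem Nv_mono {m n : ℕ} (h : m ≤ n) (ω : Conf) : Nv m ω ≤ Nv n ω := by
  classical
  unfold Nv
  apply Finset.card_le_card
  exact Finset.filter_subset_filter _ (Finset.Icc_subset_Icc_right h)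

theorem Nv_le (m : ℕ) (ω : Conf) : Nv m ω ≤ m := by
  classical
  unfold Nv
  refine (Finset.card_filter_le _ _).trans ?_
  simp

end H389KP
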