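import Pool.Agent.H389R2.KP.Growth

set_option maxHeartbeats 400000

namespace H389KP

open MeasureTheory Filter Topology

/-- Borel-Cantelli. -/
theorem bc {s : ℕ → Set Conf} {f : ℕ → ℝ} (hf : Summable f)
    (h : ∀ᶠ n in atTop, perc.real (s n) ≤ f n) : ∀ᵐ ω ∂perc, ∀ᶠ n in atTop, ω ∉ s n := by
  obtain ⟨n0, hn0⟩ := eventually_atTop.mp h
  have h1 : ∑' n, perc (s (n + n0)) ≠ ⊤ := by
    have h2 : ∀ n, perc (s (n + n0)) ≤ ENNReal.ofReal (f (n + n0)) := by
      intro n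
      rw [← ENNReal.ofReal_toReal (measure_ne_top perc (s (n + n0)))]
      exact ENNReal.ofReal_le_ofReal (hn0 (n + n0) (by omega))
    have h3 : Summable (fun n => f (n + n0)) := (summable_nat_add_iff n0).mpr hf
    have h4 : ∀ n, 0 ≤ f (n + n0) := fun n => measureReal_nonneg.trans (hn0 (n + n0) (by omega))
    refine ne_top_of_le_ne_top ?_ (ENNReal.tsum_le_tsum h2)
    rw [← ENNReal.ofReal_tsum_of_nonneg h4 h3]
    exact ENNReal.ofReal_ne_top
  filter_upwards [ae_eventually_notMem h1] with ω hω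
  obtain ⟨n1, hn1⟩ := eventually_atTop.mp hω
  rw [eventually_atTop]
  refine ⟨n1 + n0, ?_⟩
  intro n hn
  have := hn1 (n - n0) (by omega)
  rwa [Nat.sub_add_cancel (by omega)] at this

theorem summable_sq : Summable (fun n : ℕ => (((n : ℝ) + 1) ^ 2)⁻¹) := by
  have h : Summable (fun n : ℕ => ((n : ℝ) ^ 2)⁻¹) := Real.summable_nat_pow_inv.mpr (by norm_num)
  have h2 := (summable_nat_add_iff 1).mpr h
  refine h2.congr ?_
  intro n
  push_cast
  rfl

/-- `j + 1 ≤ (log m)²` when `2 ^ (j - 1) ≤ m` and `j` is large. -/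
theorem log_bound : ∀ᶠ m : ℕ in atTop, ∀ j : ℕ, j ≤ Nat.log 2 m + 2 →
    ((j : ℝ) + 1) ≤ (Real.log m) ^ 2 := by
  have h1 : Tendsto (fun m : ℕ => Real.log m) atTop atTop :=
    Real.tendsto_log_atTop.comp tendsto_natCast_atTop_atTop
  filter_upwards [h1.eventually_ge_atTop 4, eventually_ge_atTop 1] with m hm hm1 j hj
  have hm0 : (0 : ℝ) < m := by exact_mod_cast hm1
  have h2 : (2 : ℝ) ^ (Nat.log 2 m) ≤ m := by
    exact_mod_cast Nat.pow_log_le_self 2 (by omega)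
  have h3 : (Nat.log 2 m : ℝ) * Real.log 2 ≤ Real.log m := by
    have := Real.log_le_log (by positivity) h2
    rwa [Real.log_pow] at this
  have h4 := Real.log_two_gt_d9
  have h5 : (j : ℝ) ≤ Nat.log 2 m + 2 := by exact_mod_cast hj
  have h6 : (0:ℝ) ≤ Nat.log 2 m := by positivity
  nlinarith

/-- Upper half of the law of the iterated logarithm. -/
theorem lil_upper : ∃ C : ℝ, 0 < C ∧ ∀ᵐ ω ∂perc, ∀ᶠ m : ℕ in atTop,
    (Nv m ω : ℝ) ≤ C * (m : ℝ) ^ ((2/3) : ℝ) * (Real.log (Real.log m)) ^ ((1/3) : ℝ) := by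
  obtain ⟨a, ha, h⟩ := upper_tail
  refine ⟨2 * (4 / a) ^ ((1/3) : ℝ), by positivity, ?_⟩
  set t : ℕ → ℝ := fun j => (2 / a * Real.log ((j : ℝ) + 1)) ^ ((1/3) : ℝ) with ht
  have hlog0 : ∀ j : ℕ, 0 ≤ Real.log ((j : ℝ) + 1) := fun j =>
    Real.log_nonneg (by have : (0:ℝ) ≤ j := by positivity
                        linarith)
  have ht0 : ∀ j, 0 ≤ t j := fun j => Real.rpow_nonneg (mul_nonneg (by positivity) (hlog0 j)) _
  have hbc := bc (s := fun j => {ω : Conf | t j * ((2 ^ j : ℕ) : ℝ) ^ ((2/3) : ℝ) ≤ Nv (2 ^ j) ω})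
    (f := fun j => Real.exp 1 * (((j : ℝ) + 1) ^ 2)⁻¹) (summable_sq.mul_left _) (by
      filter_upwards with j
      have h1 := h (2 ^ j) Nat.one_le_two_pow (t j) (ht0 j)
      refine h1.trans (le_of_eq ?_)
      congr 1
      have h2 : (t j) ^ 3 = 2 / a * Real.log ((j : ℝ) + 1) := by
        rw [ht]
        simp only
        rw [← Real.rpow_natCast, ← Real.rpow_mul (mul_nonneg (by positivity) (hlog0 j))]
        norm_num
      rw [h2]
      have hj0 : (0:ℝ) < (j : ℝ) + 1 := by positivity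
      have h3 : -(a * (2 / a * Real.log ((j : ℝ) + 1))) = Real.log ((((j : ℝ) + 1) ^ 2)⁻¹) := by
        rw [Real.log_inv, Real.log_pow]
        field_simp
        push_cast
        ring
      rw [h3, Real.exp_log (by positivity)])
  filter_upwards [hbc] with ω hω
  obtain ⟨j0, hj0⟩ := eventually_atTop.mp hω
  filter_upwards [log_bound, eventually_ge_atTop (2 ^ j0), eventually_ge_atTop 1]
    with m hm1 hm2 hm3
  set j : ℕ := Nat.log 2 m + 1 with hj
  have hmj : m ≤ 2 ^ j := (Nat.lt_pow_succ_log_self (by norm_num) m).le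
  have hjm : 2 ^ j ≤ 2 * m := by
    rw [hj, pow_succ, mul_comm]
    exact Nat.mul_le_mul_left 2 (Nat.pow_log_le_self 2 (by omega))
  have hjj : j0 ≤ j := by
    have : j0 ≤ Nat.log 2 m := Nat.le_log_of_pow_le (by norm_num) hm2
    omega
  have h1 := hj0 j hjj
  have h2 : (Nv (2 ^ j) ω : ℝ) < t j * ((2 ^ j : ℕ) : ℝ) ^ ((2/3) : ℝ) := by
    by_contra hc
    push Not at hc
    exact h1 hc
  have h3 : (Nv m ω : ℝ) ≤ Nv (2 ^ j) ω := by exact_mod_cast Nv_mono hmj ω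
  have hm0 : (0 : ℝ) < m := by exact_mod_cast hm3
  have h4 : ((2 ^ j : ℕ) : ℝ) ^ ((2/3) : ℝ) ≤ 2 * (m : ℝ) ^ ((2/3) : ℝ) := by
    calc ((2 ^ j : ℕ) : ℝ) ^ ((2/3) : ℝ) ≤ (2 * (m : ℝ)) ^ ((2/3) : ℝ) := by
          apply Real.rpow_le_rpow (by positivity) _ (by norm_num)
          exact_mod_cast hjm
      _ = (2 : ℝ) ^ ((2/3) : ℝ) * (m : ℝ) ^ ((2/3) : ℝ) := Real.mul_rpow (by norm_num) hm0.le
      _ ≤ _ := by
          apply mul_le_mul_of_nonneg_right _ (by positivity)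
          calc (2:ℝ) ^ ((2/3) : ℝ) ≤ (2:ℝ) ^ (1:ℝ) :=
                Real.rpow_le_rpow_of_exponent_le (by norm_num) (by norm_num)
            _ = 2 := Real.rpow_one _
  have h5 : t j ≤ (4 / a) ^ ((1/3) : ℝ) * (Real.log (Real.log m)) ^ ((1/3) : ℝ) := by
    have h6 := hm1 j (by omega)
    have h7 : Real.log ((j : ℝ) + 1) ≤ 2 * Real.log (Real.log m) := by
      have := Real.log_le_log (by positivity) h6
      rw [Real.log_pow] at this
      exact_mod_cast this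
    have h8 : 0 ≤ Real.log (Real.log m) := by
      have := hlog0 j
      linarith
    rw [← Real.mul_rpow (by positivity) h8, ht]
    apply Real.rpow_le_rpow (mul_nonneg (by positivity) (hlog0 j)) _ (by norm_num)
    calc 2 / a * Real.log ((j : ℝ) + 1) ≤ 2 / a * (2 * Real.log (Real.log m)) :=
          mul_le_mul_of_nonneg_left h7 (by positivity)
      _ = _ := by ring
  calc (Nv m ω : ℝ) ≤ t j * ((2 ^ j : ℕ) : ℝ) ^ ((2/3) : ℝ) := by linarith
    _ ≤ ((4 / a) ^ ((1/3) : ℝ) * (Real.log (Real.log m)) ^ ((1/3) : ℝ)) *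
        (2 * (m : ℝ) ^ ((2/3) : ℝ)) :=
        mul_le_mul h5 h4 (by positivity) ((ht0 j).trans h5)
    _ = _ := by ring

/-- Lower envelope. -/
theorem lower_env : ∃ K : ℝ, 0 < K ∧ ∀ᵐ ω ∂perc, ∀ᶠ m : ℕ in atTop,
    (m : ℝ) ^ ((2/3) : ℝ) * (Real.log m) ^ (-K) ≤ (Nv m ω : ℝ) := by
  obtain ⟨δ, K, hδ, hK, h⟩ := lower_tail
  -- scale 2^j, t = (j+1)^{3/δ}
  set P : ℝ := 2 / δ with hP
  have hP0 : 0 < P := by positivity
  refine ⟨2 * P + 1, by positivity, ?_⟩
  have hbc := bc (s := fun j => {ω : Conf | (Nv (2 ^ j) ω : ℝ) <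
      ((2 ^ j : ℕ) : ℝ) ^ ((2/3) : ℝ) / ((j : ℝ) + 1) ^ P})
    (f := fun j => K * (((j : ℝ) + 1) ^ 2)⁻¹) (summable_sq.mul_left _) (by
      -- (j+1)^P ≤ (2^j)^{2/3} eventually
      have hev : ∀ᶠ j : ℕ in atTop, ((j : ℝ) + 1) ^ P ≤ ((2 ^ j : ℕ) : ℝ) ^ ((2/3) : ℝ) := by
        set k : ℕ := ⌈P⌉₊ with hk
        set b : ℝ := (2 : ℝ) ^ ((2/3) : ℝ) with hb
        have hb1 : 1 < b := Real.one_lt_rpow (by norm_num) (by norm_num)
        have ht := (tendsto_pow_const_div_const_pow_of_one_lt k hb1).comp (tendsto_add_atTop_nat 1)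
        have hb0 : 0 < b := by linarith
        filter_upwards [ht.eventually_lt_const (show (0:ℝ) < b⁻¹ by positivity)] with j hj
        simp only [Function.comp_apply] at hj
        rw [div_lt_iff₀ (by positivity)] at hj
        have h1 : ((2 ^ j : ℕ) : ℝ) ^ ((2/3) : ℝ) = b ^ j := by
          push_cast
          rw [hb, ← Real.rpow_natCast 2 j, ← Real.rpow_mul (by norm_num), mul_comm,
            Real.rpow_mul (by norm_num), Real.rpow_natCast]
        rw [h1]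
        have h2 : ((j : ℝ) + 1) ^ P ≤ ((j : ℝ) + 1) ^ k := by
          rw [← Real.rpow_natCast]
          apply Real.rpow_le_rpow_of_exponent_le _ (Nat.le_ceil _)
          have : (0:ℝ) ≤ j := by positivity
          linarith
        refine h2.trans ?_
        push_cast at hj
        have h3 : b⁻¹ * b ^ (j + 1) = b ^ j := by
          rw [pow_succ]; field_simp
        rw [h3] at hj
        exact hj.le
      filter_upwards [hev] with j hj
      have hj1 : (1:ℝ) ≤ (j : ℝ) + 1 := by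
        have : (0:ℝ) ≤ j := by positivity
        linarith
      have h1 := h (2 ^ j) Nat.one_le_two_pow (((j : ℝ) + 1) ^ P)
        (Real.one_le_rpow hj1 hP0.le) hj
      refine h1.trans (le_of_eq ?_)
      congr 1
      rw [← Real.rpow_mul (by linarith), hP]
      have e : 2 / δ * -δ = -2 := by field_simp
      rw [e, Real.rpow_neg (by linarith)]
      norm_cast)
  filter_upwards [hbc] with ω hω
  obtain ⟨j0, hj0⟩ := eventually_atTop.mp hω
  have hll : Tendsto (fun m : ℕ => Real.log m) atTop atTop :=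
    Real.tendsto_log_atTop.comp tendsto_natCast_atTop_atTop
  filter_upwards [log_bound, eventually_ge_atTop (2 ^ j0), eventually_ge_atTop 1,
    hll.eventually_ge_atTop 2] with m hm1 hm2 hm3 hm4
  set j : ℕ := Nat.log 2 m with hj
  have hmj : 2 ^ j ≤ m := Nat.pow_log_le_self 2 (by omega)
  have hjm : m ≤ 2 * 2 ^ j := by
    have := Nat.lt_pow_succ_log_self (b := 2) (by norm_num) m
    rw [pow_succ, ← hj] at this
    omega
  have hjj : j0 ≤ j := Nat.le_log_of_pow_le (by norm_num) hm2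
  have h1 := hj0 j hjj
  have h2 : ((2 ^ j : ℕ) : ℝ) ^ ((2/3) : ℝ) / ((j : ℝ) + 1) ^ P ≤ (Nv (2 ^ j) ω : ℝ) := by
    by_contra hc
    push Not at hc
    exact h1 hc
  have h3 : (Nv (2 ^ j) ω : ℝ) ≤ Nv m ω := by exact_mod_cast Nv_mono hmj ω
  refine le_trans ?_ (h2.trans h3)
  have hm0 : (0 : ℝ) < m := by exact_mod_cast hm3
  have hl0 : 0 < Real.log m := by linarith
  have h4 : (m : ℝ) ^ ((2/3) : ℝ) ≤ 2 * ((2 ^ j : ℕ) : ℝ) ^ ((2/3) : ℝ) := by
    calc (m : ℝ) ^ ((2/3) : ℝ) ≤ (2 * ((2 ^ j : ℕ) : ℝ)) ^ ((2/3) : ℝ) := by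
          apply Real.rpow_le_rpow (by positivity) _ (by norm_num)
          exact_mod_cast hjm
      _ = (2 : ℝ) ^ ((2/3) : ℝ) * ((2 ^ j : ℕ) : ℝ) ^ ((2/3) : ℝ) :=
          Real.mul_rpow (by norm_num) (by positivity)
      _ ≤ _ := by
          apply mul_le_mul_of_nonneg_right _ (by positivity)
          calc (2:ℝ) ^ ((2/3) : ℝ) ≤ (2:ℝ) ^ (1:ℝ) :=
                Real.rpow_le_rpow_of_exponent_le (by norm_num) (by norm_num)
            _ = 2 := Real.rpow_one _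
  have h5 : ((j : ℝ) + 1) ^ P ≤ (Real.log m) ^ (2 * P) := by
    have h6 := hm1 j (by omega)
    calc ((j : ℝ) + 1) ^ P ≤ ((Real.log m) ^ 2) ^ P :=
          Real.rpow_le_rpow (by positivity) h6 hP0.le
      _ = _ := by
          rw [← Real.rpow_natCast, ← Real.rpow_mul hl0.le]
          norm_num
  have hjP : 0 < ((j : ℝ) + 1) ^ P := by positivity
  rw [le_div_iff₀ hjP]
  have h6 : (Real.log m) ^ (-(2 * P + 1)) * (Real.log m) ^ (2 * P) = (Real.log m)⁻¹ := by
    rw [← Real.rpow_add hl0, show -(2 * P + 1) + 2 * P = -1 by ring, Real.rpow_neg_one]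
  have h7 : (Real.log m)⁻¹ ≤ 2⁻¹ := inv_anti₀ (by norm_num) hm4
  calc (m : ℝ) ^ ((2/3) : ℝ) * (Real.log m) ^ (-(2 * P + 1)) * ((j : ℝ) + 1) ^ P
      ≤ (m : ℝ) ^ ((2/3) : ℝ) * (Real.log m) ^ (-(2 * P + 1)) * (Real.log m) ^ (2 * P) :=
        mul_le_mul_of_nonneg_left h5 (by positivity)
    _ = (m : ℝ) ^ ((2/3) : ℝ) * (Real.log m)⁻¹ := by rw [mul_assoc, h6]
    _ ≤ (2 * ((2 ^ j : ℕ) : ℝ) ^ ((2/3) : ℝ)) * 2⁻¹ :=
        mul_le_mul h4 h7 (by positivity) (by positivity)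
    _ = _ := by ring

end H389KP
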