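import Pool.Agent.H389R2.KP.LIL

set_option maxHeartbeats 400000

namespace H389KP

open MeasureTheory Filter Topology

/-- `exp (-c √x) ≤ C / x²` -/
theorem exp_sqrt {c : ℝ} (hc : 0 < c) {x : ℝ} (hx : 0 < x) :
    Real.exp (-(c * x ^ ((1/2) : ℝ))) ≤ 24 / c ^ 4 * (x ^ 2)⁻¹ := by
  have hy : 0 ≤ c * x ^ ((1/2) : ℝ) := by positivity
  have h1 := Real.pow_div_factorial_le_exp (c * x ^ ((1/2) : ℝ)) hy 4
  have h2 : (c * x ^ ((1/2) : ℝ)) ^ 4 = c ^ 4 * x ^ 2 := by
    rw [mul_pow, ← Real.rpow_natCast (x ^ ((1/2) : ℝ)) 4, ← Real.rpow_mul hx.le]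
    congr 1
    rw [← Real.rpow_natCast]
    norm_num
  rw [h2] at h1
  rw [Real.exp_neg]
  have h3 : 0 < c ^ 4 * x ^ 2 / (Nat.factorial 4 : ℝ) := by positivity
  calc (Real.exp (c * x ^ ((1/2) : ℝ)))⁻¹ ≤ (c ^ 4 * x ^ 2 / (Nat.factorial 4 : ℝ))⁻¹ :=
        inv_anti₀ h3 h1
    _ = _ := by
        have : (Nat.factorial 4 : ℝ) = 24 := by norm_num [Nat.factorial]
        rw [this]
        field_simp

/-- Lower half of the law of the iterated logarithm. -/
theorem lil_lower : ∃ c : ℝ, 0 < c ∧ ∀ᵐ ω ∂perc, ∃ᶠ m : ℕ in atTop,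
    c * (m : ℝ) ^ ((2/3) : ℝ) * (Real.log (Real.log m)) ^ ((1/3) : ℝ) ≤ (Nv m ω : ℝ) := by
  obtain ⟨a, κ, q, ha, ha1, hκ, hκ1, hq, hq1, h⟩ := none_inf
  have hlq : 0 < Real.log (1 / q) := Real.log_pos (by rw [lt_div_iff₀ hq]; linarith)
  have hlq2 : 1/2 < Real.log (1 / q) := by
    have h1 : Real.log 2 ≤ Real.log (1 / q) := by
      apply Real.log_le_log (by norm_num)
      rw [le_div_iff₀ hq]; linarith
    have := Real.log_two_gt_d9
    linarith
  set c1 : ℝ := 1 / (2 * Real.log (1 / q)) with hc1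
  have hc10 : 0 < c1 := by positivity
  have hc11 : c1 ≤ 1 := by
    rw [hc1, div_le_one (by positivity)]; linarith
  refine ⟨a / 10 * (c1 / 4) ^ ((1/3) : ℝ), by positivity, ?_⟩
  -- the number of blocks
  set L : ℕ → ℕ := fun J => ⌊c1 * Real.log ((J : ℝ) + 1)⌋₊ with hL
  have hlog0 : ∀ j : ℕ, 0 ≤ Real.log ((j : ℝ) + 1) := fun j =>
    Real.log_nonneg (by have : (0:ℝ) ≤ j := by positivity
                        linarith)
  have hLle : ∀ J : ℕ, (L J : ℝ) ≤ c1 * Real.log ((J : ℝ) + 1) := fun J =>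
    Nat.floor_le (mul_nonneg hc10.le (hlog0 J))
  have hLlt : ∀ J : ℕ, c1 * Real.log ((J : ℝ) + 1) < L J + 1 := fun J => Nat.lt_floor_add_one _
  have hll : Tendsto (fun J : ℕ => Real.log ((J : ℝ) + 1)) atTop atTop :=
    Real.tendsto_log_atTop.comp (tendsto_atTop_add_const_right _ _ tendsto_natCast_atTop_atTop)
  have hL1 : ∀ᶠ J : ℕ in atTop, 1 ≤ L J := by
    filter_upwards [hll.eventually_ge_atTop (1 / c1)] with J hJ
    apply Nat.le_floor
    push_cast
    rw [div_le_iff₀ hc10] at hJ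
    linarith
  have hbc := bc (s := fun J : ℕ => {ω : Conf | ∀ j ≤ J, (Nv (10 * (L J * (16 ^ j * 16 ^ J))) ω : ℝ) <
      L J * (a * ((16 : ℝ) ^ j * ((16 ^ J : ℕ) : ℝ)) ^ ((2:ℝ)/3))})
    (f := fun J : ℕ => 24 / κ ^ 4 * (((J : ℝ) + 1) ^ 2)⁻¹) (summable_sq.mul_left _) (by
      filter_upwards [hL1] with J hJ
      have h1 := h (L J) (16 ^ J) J hJ (Nat.one_le_pow _ _ (by norm_num))
      refine h1.trans (le_trans ?_ (exp_sqrt hκ (x := (J : ℝ) + 1) (by positivity)))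
      have hq' : ((J : ℝ) + 1) ^ (-(1/2) : ℝ) ≤ q ^ (L J) := by
        have e1 : q ^ (L J) = Real.exp (-(L J * Real.log (1 / q))) := by
          rw [one_div, Real.log_inv, mul_neg, neg_neg, mul_comm, Real.exp_mul, Real.exp_log hq,
            Real.rpow_natCast]
        rw [e1, Real.rpow_def_of_pos (by positivity)]
        apply Real.exp_le_exp.mpr
        have h2 : (L J : ℝ) * Real.log (1 / q) ≤ 1/2 * Real.log ((J : ℝ) + 1) := by
          calc (L J : ℝ) * Real.log (1 / q) ≤ (c1 * Real.log ((J : ℝ) + 1)) * Real.log (1 / q) :=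
                mul_le_mul_of_nonneg_right (hLle J) hlq.le
            _ = _ := by rw [hc1]; field_simp
        linarith
      have hx0 : 0 ≤ κ * q ^ (L J) := by positivity
      have hx1 : κ * q ^ (L J) ≤ 1 := by
        have : q ^ (L J) ≤ 1 := pow_le_one₀ hq.le (by linarith)
        nlinarith
      calc (1 - κ * q ^ (L J)) ^ (J + 1) ≤ Real.exp (-(κ * q ^ (L J))) ^ (J + 1) := by
            apply pow_le_pow_left₀ (by linarith)
            have := Real.add_one_le_exp (-(κ * q ^ (L J)))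
            linarith
        _ = Real.exp (-(κ * q ^ (L J) * ((J : ℝ) + 1))) := by
            rw [← Real.exp_nat_mul]; congr 1; push_cast; ring
        _ ≤ Real.exp (-(κ * ((J : ℝ) + 1) ^ ((1/2) : ℝ))) := by
            apply Real.exp_le_exp.mpr
            have h3 : ((J : ℝ) + 1) ^ ((1/2) : ℝ) = ((J : ℝ) + 1) ^ (-(1/2) : ℝ) * ((J : ℝ) + 1) := by
              have e : ((J : ℝ) + 1) = ((J : ℝ) + 1) ^ (1 : ℝ) := (Real.rpow_one _).symm
              nth_rewrite 3 [e]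
              rw [← Real.rpow_add (by positivity)]
              norm_num
            rw [h3]
            have h4 : ((J : ℝ) + 1) ^ (-(1/2) : ℝ) * ((J : ℝ) + 1) ≤ q ^ (L J) * ((J : ℝ) + 1) :=
              mul_le_mul_of_nonneg_right hq' (by positivity)
            have h5 := mul_le_mul_of_nonneg_left h4 hκ.le
            linarith)
  filter_upwards [hbc] with ω hω
  rw [frequently_atTop]
  intro M
  obtain ⟨J0, hJ0⟩ := eventually_atTop.mp (hω.and (hL1.and
    ((hll.eventually_ge_atTop 4).and (eventually_ge_atTop (max M 12)))))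
  obtain ⟨hn, hLJ, hl4, hJM⟩ := hJ0 J0 le_rfl
  have hn' : ¬ ∀ j ≤ J0, (Nv (10 * (L J0 * (16 ^ j * 16 ^ J0))) ω : ℝ) <
      L J0 * (a * ((16 : ℝ) ^ j * ((16 ^ J0 : ℕ) : ℝ)) ^ ((2:ℝ)/3)) := hn
  push Not at hn'
  obtain ⟨j, hj, hN⟩ := hn'
  set m : ℕ := 10 * (L J0 * (16 ^ j * 16 ^ J0)) with hm
  have hLr : (1 : ℝ) ≤ L J0 := by exact_mod_cast hLJ
  have hJM1 : M ≤ J0 := (le_max_left _ _).trans hJM
  have hJM2 : 12 ≤ J0 := (le_max_right _ _).trans hJM
  have hmM : M ≤ m := by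
    have h1 : J0 < 16 ^ J0 := Nat.lt_pow_self (by norm_num)
    have h2 : 1 ≤ 16 ^ j := Nat.one_le_pow _ _ (by norm_num)
    have h3 : 16 ^ J0 ≤ m := by
      rw [hm]
      calc 16 ^ J0 = 1 * (1 * (1 * 16 ^ J0)) := by ring
        _ ≤ 10 * (L J0 * (16 ^ j * 16 ^ J0)) := by gcongr; norm_num
    omega
  refine ⟨m, hmM, ?_⟩
  refine le_trans ?_ hN
  have hmr : (m : ℝ) = 10 * L J0 * ((16 : ℝ) ^ j * ((16 ^ J0 : ℕ) : ℝ)) := by
    rw [hm]; push_cast; ring
  have hX0 : 0 < (16 : ℝ) ^ j * ((16 ^ J0 : ℕ) : ℝ) := by positivity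
  set X : ℝ := (16 : ℝ) ^ j * ((16 ^ J0 : ℕ) : ℝ) with hX
  have hm0 : (0 : ℝ) < m := by rw [hmr]; positivity
  -- size of log log m
  have hJr : (12 : ℝ) ≤ J0 := by exact_mod_cast hJM2
  have hlogm : Real.log m ≤ ((J0 : ℝ) + 1) ^ 2 := by
    have h1 : Real.log m = Real.log 10 + Real.log (L J0) + (j + J0) * Real.log 16 := by
      rw [hmr, hX]
      push_cast
      rw [← pow_add, Real.log_mul (by positivity) (by positivity), Real.log_mul (by norm_num)
        (by positivity), Real.log_pow]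
      push_cast
      ring
    have h2 : Real.log 10 ≤ 3 := (Real.log_le_log (by norm_num) (by norm_num)).trans log16
    have h3 : Real.log (L J0) ≤ L J0 := (Real.log_le_sub_one_of_pos (by linarith)).trans (by linarith)
    have h4 : (L J0 : ℝ) ≤ J0 := by
      have h5 : Real.log ((J0 : ℝ) + 1) ≤ J0 := by
        have := Real.log_le_sub_one_of_pos (show (0:ℝ) < (J0 : ℝ) + 1 by positivity)
        linarith
      have h6 := hLle J0
      nlinarith [hlog0 J0]
    have h5 : (j : ℝ) ≤ J0 := by exact_mod_cast hj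
    have h6 := log16
    have h7 : 0 < Real.log 16 := Real.log_pos (by norm_num)
    have h8 : ((j : ℝ) + J0) * Real.log 16 ≤ (2 * J0) * 3 :=
      mul_le_mul (by linarith) h6 h7.le (by positivity)
    rw [h1]
    nlinarith
  have hm3 : (1 : ℝ) < Real.log m := by
    have h1 : (3 : ℝ) ≤ m := by
      have : 12 ≤ m := by
        have h1 : J0 < 16 ^ J0 := Nat.lt_pow_self (by norm_num)
        have h2 : 1 ≤ 16 ^ j := Nat.one_le_pow _ _ (by norm_num)
        have h3 : 16 ^ J0 ≤ m := by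
          rw [hm]
          calc 16 ^ J0 = 1 * (1 * (1 * 16 ^ J0)) := by ring
            _ ≤ 10 * (L J0 * (16 ^ j * 16 ^ J0)) := by gcongr; norm_num
        omega
      have : (12 : ℝ) ≤ m := by exact_mod_cast this
      linarith
    rw [Real.lt_log_iff_exp_lt hm0]
    have := Real.exp_one_lt_d9
    linarith
  have hllm : Real.log (Real.log m) ≤ 4 / c1 * L J0 := by
    have h1 : Real.log (Real.log m) ≤ 2 * Real.log ((J0 : ℝ) + 1) := by
      have := Real.log_le_log (by linarith) hlogm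
      rw [Real.log_pow] at this
      exact_mod_cast this
    have h2 : Real.log ((J0 : ℝ) + 1) ≤ (2 / c1) * L J0 := by
      have h3 := hLlt J0
      rw [div_mul_eq_mul_div, le_div_iff₀ hc10]
      linarith
    calc Real.log (Real.log m) ≤ 2 * Real.log ((J0 : ℝ) + 1) := h1
      _ ≤ 2 * ((2 / c1) * L J0) := by linarith
      _ = _ := by ring
  have hll0 : 0 ≤ Real.log (Real.log m) := Real.log_nonneg hm3.le
  have h13 : (Real.log (Real.log m)) ^ ((1/3) : ℝ) ≤
      (4 / c1) ^ ((1/3) : ℝ) * (L J0 : ℝ) ^ ((1/3) : ℝ) := by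
    rw [← Real.mul_rpow (by positivity) (by positivity)]
    exact Real.rpow_le_rpow hll0 hllm (by norm_num)
  have hc4 : (c1 / 4) ^ ((1/3) : ℝ) * (4 / c1) ^ ((1/3) : ℝ) = 1 := by
    rw [← Real.mul_rpow (by positivity) (by positivity)]
    have : c1 / 4 * (4 / c1) = 1 := by field_simp
    rw [this, Real.one_rpow]
  have h23 : (m : ℝ) ^ ((2/3) : ℝ) ≤ 10 * (L J0 : ℝ) ^ ((2/3) : ℝ) * X ^ ((2/3) : ℝ) := by
    rw [hmr, Real.mul_rpow (by positivity) hX0.le, Real.mul_rpow (by norm_num) (by positivity)]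
    apply mul_le_mul_of_nonneg_right _ (by positivity)
    apply mul_le_mul_of_nonneg_right _ (by positivity)
    calc (10:ℝ) ^ ((2/3) : ℝ) ≤ (10:ℝ) ^ (1:ℝ) :=
          Real.rpow_le_rpow_of_exponent_le (by norm_num) (by norm_num)
      _ = 10 := Real.rpow_one _
  have hLL : (L J0 : ℝ) ^ ((2/3) : ℝ) * (L J0 : ℝ) ^ ((1/3) : ℝ) = L J0 := by
    rw [← Real.rpow_add (by linarith)]; norm_num
  calc a / 10 * (c1 / 4) ^ ((1/3) : ℝ) * (m : ℝ) ^ ((2/3) : ℝ) *
        (Real.log (Real.log m)) ^ ((1/3) : ℝ)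
      ≤ a / 10 * (c1 / 4) ^ ((1/3) : ℝ) * (10 * (L J0 : ℝ) ^ ((2/3) : ℝ) * X ^ ((2/3) : ℝ)) *
        ((4 / c1) ^ ((1/3) : ℝ) * (L J0 : ℝ) ^ ((1/3) : ℝ)) := by
        apply mul_le_mul _ h13 (by positivity) (by positivity)
        exact mul_le_mul_of_nonneg_left h23 (by positivity)
    _ = a * ((c1 / 4) ^ ((1/3) : ℝ) * (4 / c1) ^ ((1/3) : ℝ)) *
        ((L J0 : ℝ) ^ ((2/3) : ℝ) * (L J0 : ℝ) ^ ((1/3) : ℝ)) * X ^ ((2/3) : ℝ) := by ring
    _ = L J0 * (a * X ^ ((2:ℝ)/3)) := by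
        rw [hc4, hLL]
        norm_num
        ring

end H389KP
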