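import Pool.Agent.H389R2.KP.Chain

set_option maxHeartbeats 400000

namespace H389KP

open H974 H973 Finset H934E

/-- Probability of the three macroscopic crossings. -/
noncomputable def kc3 : ℝ := dlt * ((1/2 : ℝ)^47 * (1/2 : ℝ)^47)

theorem kc3_pos : 0 < kc3 := mul_pos dlt_pos (by positivity)

theorem pr_Cr3 {u : ℤ} (hu : 1 ≤ u) {S : Finset Edg} (hS : SU u ⊆ S) : kc3 ≤ Q S (Cr3 u) := by
  have s2 : TBE (7 * u) (9 * u) 0 (30 * u) ⊆ S :=
    TBE_subset_RE.trans
      ((RE_SU (fun x y h1 h2 h3 h4 => by rw [mem_HA]; simp only; omega)).trans hS)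
  have s3 : LRE (-(30 * u)) (30 * u) (10 * u) (30 * u) ⊆ S :=
    LRE_subset_RE.trans
      ((RE_SU (fun x y h1 h2 h3 h4 => by rw [mem_HA]; simp only; omega)).trans hS)
  have s4 : TBE (-(30 * u)) (-(10 * u)) 0 (30 * u) ⊆ S :=
    TBE_subset_RE.trans
      ((RE_SU (fun x y h1 h2 h3 h4 => by rw [mem_HA]; simp only; omega)).trans hS)
  have a2 : dlt ≤ Q S (TBc (7 * u) (9 * u) 0 (30 * u)) := by
    unfold Q; rw [pr_TBc (1/2) s2]; exact rswL (m := u) (by omega) (by omega) (by omega) (by omega)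
  have a3 : (1/2 : ℝ)^47 ≤ Q S (LRc (-(30 * u)) (30 * u) (10 * u) (30 * u)) := by
    unfold Q; rw [pr_LRc (1/2) s3]
    exact rsw (n := 10 * u) (by omega) (by omega) (by omega) (by omega)
  have a4 : (1/2 : ℝ)^47 ≤ Q S (TBc (-(30 * u)) (-(10 * u)) 0 (30 * u)) := by
    unfold Q; rw [pr_TBc (1/2) s4]
    exact rsw (n := 10 * u) (by omega) (by omega) (by omega) (by omega)
  have i1 := hmul (LRc_incr S _ _ _ _) (TBc_incr S _ _ _ _) (by positivity) a3 a4
  have c1 : IncrE S (fun F => LRc (-(30 * u)) (30 * u) (10 * u) (30 * u) F ∧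
      TBc (-(30 * u)) (-(10 * u)) 0 (30 * u) F) :=
    fun F G hFG _ hF => ⟨hF.1.mono hFG, hF.2.mono hFG⟩
  exact hmul (TBc_incr S (7 * u) (9 * u) 0 (30 * u)) c1 (by positivity) a2 i1

theorem pr_GLv : ∃ a q : ℝ, 0 < a ∧ 0 < q ∧ q ≤ 1 ∧ ∀ (L : ℕ) (r : ℤ), 1 ≤ L → 1 ≤ r →
    ∀ S : Finset Edg, SU (L * r) ⊆ S → kc3 * q ^ L ≤ Q S (GLv a L r) := by
  obtain ⟨a, p, ha, hp, h⟩ := pr_CN
  have hkp := kp_pos
  refine ⟨a, min 1 (kp * p), ha, lt_min one_pos (by positivity), min_le_left _ _, ?_⟩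
  set q : ℝ := min 1 (kp * p) with hq
  have hq0 : 0 < q := lt_min one_pos (by positivity)
  intro L r hL hr S hS
  have hLz : (1 : ℤ) ≤ L := by exact_mod_cast hL
  set u : ℤ := L * r with hu
  have hur : r ≤ u := by rw [hu]; nlinarith
  have huL : (L : ℤ) ≤ u := by rw [hu]; nlinarith
  have hu1 : 1 ≤ u := by omega
  -- one block
  have hcen : ∀ i < L, 7 * u + r ≤ cc u r i ∧ cc u r i ≤ 9 * u + L := by
    intro i hi
    unfold cc
    have h1 : (0 : ℤ) ≤ (2 * r + 1) * i := by positivity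
    have h2 : ((i : ℕ) : ℤ) + 1 ≤ L := by exact_mod_cast hi
    have h3 : (2 * r + 1) * (i : ℤ) ≤ (2 * r + 1) * (L - 1) :=
      mul_le_mul_of_nonneg_left (by omega) (by omega)
    have h4 : (2 * r + 1) * ((L : ℤ) - 1) = 2 * u + L - 2 * r - 1 := by rw [hu]; ring
    omega
  have hblock : ∀ i < L, q ≤ Q S (fun F => HC (cc u r i) r (3 * r) F ∧
      a * (r : ℝ) ^ ((2:ℝ)/3) ≤ CN (cc u r i) r F) := by
    intro i hi
    have hc := hcen i hi
    have b1 := pr_HC (k := cc u r i) (r := r) (by omega) (S := S)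
      ((RE_SU (fun x y h1 h2 h3 h4 => by rw [mem_HA]; simp only; omega)).trans hS)
    have b2 := h (cc u r i) r hr S
      ((RE_SU (fun x y h1 h2 h3 h4 => by rw [mem_HA]; simp only; omega)).trans hS)
    have b3 := hmul (S := S) (HC_incr S _ _ _)
      (B := fun F => a * (r : ℝ) ^ ((2:ℝ)/3) ≤ CN (cc u r i) r F)
      (fun F G hFG _ hF => le_trans hF (CN_mono hFG)) hp.le b1 b2
    exact (min_le_right _ _).trans b3
  have hall : ∀ n ≤ L, q ^ n ≤ Q S (fun F => ∀ i < n, HC (cc u r i) r (3 * r) F ∧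
      a * (r : ℝ) ^ ((2:ℝ)/3) ≤ CN (cc u r i) r F) := by
    intro n
    induction n with
    | zero =>
      intro _
      rw [pow_zero]
      exact (Pr_true S (fun F _ i hi => absurd hi (Nat.not_lt_zero i))).ge
    | succ n ih =>
      intro hn
      have h1 := ih (by omega)
      have h2 := hblock n (by omega)
      have h3 := hmul (S := S) (A := fun F => ∀ i < n, HC (cc u r i) r (3 * r) F ∧
        a * (r : ℝ) ^ ((2:ℝ)/3) ≤ CN (cc u r i) r F)
        (B := fun F => HC (cc u r n) r (3 * r) F ∧ a * (r : ℝ) ^ ((2:ℝ)/3) ≤ CN (cc u r n) r F)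
        (fun F G hFG _ hF i hi => ⟨(hF i hi).1.mono hFG, (hF i hi).2.trans (CN_mono hFG)⟩)
        (fun F G hFG _ hF => ⟨hF.1.mono hFG, hF.2.trans (CN_mono hFG)⟩) hq0.le h1 h2
      rw [pow_succ]
      refine h3.trans (Q_mono ?_)
      rintro F _ ⟨h4, h5⟩ i hi
      rcases Nat.lt_succ_iff_lt_or_eq.mp hi with h6 | h6
      · exact h4 i h6
      · exact h6 ▸ h5
  have h1 := hmul (S := S) (A := Cr3 u) (B := fun F => ∀ i < L, HC (cc u r i) r (3 * r) F ∧
      a * (r : ℝ) ^ ((2:ℝ)/3) ≤ CN (cc u r i) r F)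
    (fun F G hFG _ hF => hF.mono hFG)
    (fun F G hFG _ hF i hi => ⟨(hF i hi).1.mono hFG, (hF i hi).2.trans (CN_mono hFG)⟩)
    (pow_nonneg hq0.le L) (pr_Cr3 hu1 hS) (hall L le_rfl)
  exact h1

/-- many visited points -/
theorem GLv_cnt {a : ℝ} {L : ℕ} {r : ℤ} (hL : 1 ≤ L) (hr : 1 ≤ r) {F : Finset Edg}
    (h : GLv a L r F) {m : ℕ} (hm : 10 * (L * r) ≤ m) :
    L * (a * (r : ℝ) ^ ((2:ℝ)/3)) ≤ cnt m (nb F) := by
  classical
  have hLz : (1 : ℤ) ≤ L := by exact_mod_cast hL
  set u : ℤ := L * r with hu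
  have hur : r ≤ u := by rw [hu]; nlinarith
  have huL : (L : ℤ) ≤ u := by rw [hu]; nlinarith
  -- the sets of arms
  let T : ℕ → Finset ℤ := fun i =>
    (Finset.Icc (cc u r i - r) (cc u r i + r)).filter (fun k => AV k (5 * r) F)
  have hCN : ∀ i, CN (cc u r i) r F = (T i).card := by
    intro i
    unfold CN
    have : ∀ k ∈ Finset.Icc (cc u r i - r) (cc u r i + r), ind (AV k (5 * r) F) =
        if AV k (5 * r) F then (1:ℝ) else 0 := by
      intro k _
      split_ifs with h1
      · exact ind_of h1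
      · exact ind_not_of h1
    rw [Finset.sum_congr rfl this, ← Finset.sum_filter, Finset.sum_const, nsmul_eq_mul, mul_one]
  have hcen : ∀ i < L, 7 * u + r ≤ cc u r i ∧ cc u r i + r ≤ 9 * u + L := by
    intro i hi
    unfold cc
    have h1 : (0 : ℤ) ≤ (2 * r + 1) * i := by positivity
    have h2 : ((i : ℕ) : ℤ) + 1 ≤ L := by exact_mod_cast hi
    have h3 : (2 * r + 1) * (i : ℤ) ≤ (2 * r + 1) * (L - 1) :=
      mul_le_mul_of_nonneg_left (by omega) (by omega)
    have h4 : (2 * r + 1) * ((L : ℤ) - 1) = 2 * u + L - 2 * r - 1 := by rw [hu]; ring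
    omega
  have hdisj : ∀ i ∈ Finset.range L, ∀ j ∈ Finset.range L, i ≠ j → Disjoint (T i) (T j) := by
    have key : ∀ i j : ℕ, i < j → Disjoint (T i) (T j) := by
      intro i j hij
      rw [Finset.disjoint_left]
      intro k hk hk'
      have h1 := Finset.mem_Icc.mp (Finset.mem_filter.mp hk).1
      have h2 := Finset.mem_Icc.mp (Finset.mem_filter.mp hk').1
      unfold cc at h1 h2
      have h3 : (i : ℤ) + 1 ≤ j := by exact_mod_cast hij
      have h4 : (2 * r + 1) * ((i : ℤ) + 1) ≤ (2 * r + 1) * j :=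
        mul_le_mul_of_nonneg_left h3 (by omega)
      have h5 : (2 * r + 1) * ((i : ℤ) + 1) = (2 * r + 1) * i + (2 * r + 1) := by ring
      omega
    intro i _ j _ hij
    rcases lt_or_gt_of_ne hij with h1 | h1
    · exact key i j h1
    · exact (key j i h1).symm
  have hcard : ((Finset.range L).biUnion T).card ≤ cnt m (nb F) := by
    unfold cnt
    apply Finset.card_le_card_of_injOn (fun k => k.toNat)
    · intro k hk
      rw [Finset.mem_coe, Finset.mem_biUnion] at hk
      obtain ⟨i, hi, hk⟩ := hk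
      rw [Finset.mem_range] at hi
      have h1 := Finset.mem_Icc.mp (Finset.mem_filter.mp hk).1
      have h2 := (Finset.mem_filter.mp hk).2
      have h3 := hcen i hi
      have h4 : (((k.toNat : ℕ)) : ℤ) = k := Int.toNat_of_nonneg (by omega)
      simp only [Finset.coe_filter, Set.mem_setOf_eq, Finset.mem_Icc]
      refine ⟨by omega, ?_⟩
      unfold V
      rw [h4]
      exact GLv_W hL hr h hi h1 h2
    · intro k hk k' hk' hkk
      rw [Finset.mem_coe, Finset.mem_biUnion] at hk hk'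
      obtain ⟨i, hi, hk⟩ := hk
      obtain ⟨j, hj, hk'⟩ := hk'
      rw [Finset.mem_range] at hi hj
      have h1 := Finset.mem_Icc.mp (Finset.mem_filter.mp hk).1
      have h2 := Finset.mem_Icc.mp (Finset.mem_filter.mp hk').1
      have h3 := hcen i hi
      have h4 := hcen j hj
      simp only at hkk
      omega
  rw [Finset.card_biUnion hdisj] at hcard
  have h1 : ((∑ i ∈ Finset.range L, (T i).card : ℕ) : ℝ) ≤ cnt m (nb F) := by exact_mod_cast hcard
  refine le_trans ?_ h1
  push_cast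
  have h2 : ∀ i ∈ Finset.range L, a * (r : ℝ) ^ ((2:ℝ)/3) ≤ ((T i).card : ℝ) := by
    intro i hi
    rw [← hCN i]
    exact (h.2 i (Finset.mem_range.mp hi)).2
  have h3 := Finset.sum_le_sum h2
  rw [Finset.sum_const, Finset.card_range, nsmul_eq_mul] at h3
  exact h3

/-- independence of the scales -/
theorem pr_none {G : ℕ → Finset Edg → Prop} {p : ℝ} (hp : p ≤ 1) {u : ℤ} (hu : 1 ≤ u)
    (h : ∀ j : ℕ, ∀ S : Finset Edg, SU (us u j) ⊆ S → p ≤ Q S (G j)) (J : ℕ) :
    ∀ S : Finset Edg, ES (HK 0 (30 * us u J)) ⊆ S →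
      Q S (fun F => ∀ j ≤ J, ¬ G j (F ∩ SU (us u j))) ≤ (1 - p) ^ (J + 1) := by
  have one : ∀ j : ℕ, Q (SU (us u j)) (fun F => ¬ G j F) ≤ 1 - p := by
    intro j
    unfold Q
    rw [Pr_not]
    have := h j (SU (us u j)) (Finset.Subset.refl _)
    unfold Q at this
    linarith
  induction J with
  | zero =>
    intro S hS
    have h1 : Q S (fun F => ∀ j ≤ 0, ¬ G j (F ∩ SU (us u j))) =
        Q (SU (us u 0)) (fun F => ¬ G 0 F) := by
      have := Pr_restrict (S := S) (S' := SU (us u 0)) ((SU_sub le_rfl).trans hS)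
        (fun F => ¬ G 0 F)
      unfold Q
      rw [← this]
      apply Pr_congr
      intro F _
      constructor
      · intro h2; exact h2 0 le_rfl
      · intro h2 j hj
        have : j = 0 := by omega
        subst this
        exact h2
    rw [h1]
    simpa using one 0
  | succ J ih =>
    intro S hS
    have hdis : Disjoint (ES (HK 0 (30 * us u J))) (SU (us u (J + 1))) := by
      apply SU_disj
      rw [us_succ]
      have := us_pos hu J
      omega
    have hs1 : ES (HK 0 (30 * us u J)) ⊆ S := by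
      refine Finset.Subset.trans ?_ hS
      apply ES_mono
      intro y hy
      rw [mem_HK] at hy ⊢
      rw [us_succ]
      have := us_pos hu J
      omega
    have hs2 : SU (us u (J + 1)) ⊆ S := (SU_sub le_rfl).trans hS
    have h1 : Q S (fun F => ∀ j ≤ J + 1, ¬ G j (F ∩ SU (us u j))) =
        Q (ES (HK 0 (30 * us u J))) (fun F => ∀ j ≤ J, ¬ G j (F ∩ SU (us u j))) *
        Q (SU (us u (J + 1))) (fun F => ¬ G (J + 1) F) := by
      have := Pr_indep' (U := S) hs1 hs2 hdis (fun F => ∀ j ≤ J, ¬ G j (F ∩ SU (us u j)))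
        (fun F => ¬ G (J + 1) F)
      unfold Q
      rw [← this]
      apply Pr_congr
      intro F _
      constructor
      · intro h2
        refine ⟨?_, h2 (J + 1) le_rfl⟩
        intro j hj
        have h3 := h2 j (by omega)
        have e1 : F ∩ ES (HK 0 (30 * us u J)) ∩ SU (us u j) = F ∩ SU (us u j) := by
          rw [Finset.inter_assoc, Finset.inter_eq_right.mpr (SU_sub (by
            have := us_mono hu hj
            omega))]
        rw [e1]
        exact h3
      · rintro ⟨h2, h3⟩ j hj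
        rcases Nat.lt_or_ge J j with h4 | h4
        · have : j = J + 1 := by omega
          subst this
          exact h3
        · have h5 := h2 j h4
          have e1 : F ∩ ES (HK 0 (30 * us u J)) ∩ SU (us u j) = F ∩ SU (us u j) := by
            rw [Finset.inter_assoc, Finset.inter_eq_right.mpr (SU_sub (by
              have := us_mono hu h4
              omega))]
          rw [e1] at h5
          exact h5
    rw [h1, pow_succ]
    exact mul_le_mul (ih _ (Finset.Subset.refl _)) (one (J + 1)) (Q_nonneg _ _)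
      (pow_nonneg (by linarith) _)

end H389KP
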