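import Pool.Agent.H389R2.KP.Inf

set_option maxHeartbeats 400000

namespace H389KP

open MeasureTheory Filter Topology H974 H731C Finset

/-- the factor of the interval `[a, b]` to the right of `p` -/
noncomputable def fac (p a b : ℤ) : ℝ :=
  (((b : ℝ) - a + 1) / ((b : ℝ) - p + 1)) ^ ((1 : ℝ) / 3)

theorem fac_eq (p a b : ℤ) : fac p a b = rt p a b := by
  unfold fac rt
  push_cast
  rfl

theorem main_thm : ∃ c C : ℝ, 0 < c ∧ 0 < C ∧ ∀ (k : ℕ) (a b : ℕ → ℤ), b 0 = 0 →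
    (∀ i < k, b i < a (i + 1) ∧ a (i + 1) ≤ b (i + 1)) →
    perc.real {ω | ∀ i < k, ∃ v, ((a (i + 1) ≤ v.1 ∧ v.1 ≤ b (i + 1)) ∧
        (v.2 : ℤ) ≤ b (i + 1) - a (i + 1)) ∧ v ∈ Cm ω} ≤
      ∏ i ∈ range k, (C * fac (b i) (a (i + 1)) (b (i + 1))) ∧
    ((∀ i, i + 1 < k → b (i + 1) - a (i + 1) + 1 ≤ a (i + 2) - b (i + 1)) →
      ∏ i ∈ range k, (c * fac (b i) (a (i + 1)) (b (i + 1))) ≤
        perc.real {ω | ∀ i < k, ∃ v, ((a (i + 1) ≤ v.1 ∧ v.1 ≤ b (i + 1)) ∧ v.2 = 0) ∧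
          v ∈ Cm ω}) := by
  obtain ⟨C, hC, hU⟩ := fin_upper
  obtain ⟨c, hc, hL⟩ := fin_lower
  refine ⟨c, C, hc, hC, ?_⟩
  intro k a b h0 hO
  have hOrd : Ord k a b := ⟨h0, hO⟩
  simp only [fac_eq]
  constructor
  · have ht := EV_tendsto k (fun i v => ((a (i + 1) ≤ v.1 ∧ v.1 ≤ b (i + 1)) ∧
        (v.2 : ℤ) ≤ b (i + 1) - a (i + 1)))
    refine le_of_tendsto ht ?_
    filter_upwards [eventually_ge_atTop (4 * b k).toNat] with N hN
    refine le_trans ?_ (hU k a b hOrd N (by omega))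
    apply Pr_mono okhalf2
    intro F _ hF i hi
    obtain ⟨u, ⟨h1, h2, h3⟩, h4⟩ := hF i hi
    refine ⟨u, ?_, h4⟩
    unfold SQ inR
    omega
  · intro hsep
    have ht := EV_tendsto k (fun i v => ((a (i + 1) ≤ v.1 ∧ v.1 ≤ b (i + 1)) ∧ v.2 = 0))
    refine ge_of_tendsto ht ?_
    filter_upwards [eventually_ge_atTop (40 * b k).toNat] with N hN
    refine (hL k a b hOrd hsep N (by omega)).trans ?_
    apply Pr_mono okhalf2
    intro F _ hF i hi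
    obtain ⟨u, ⟨h1, h2⟩, h4⟩ := hF i hi
    refine ⟨u, ⟨by omega, h1, ?_⟩, h4⟩
    omega

end H389KP
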