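import Pool.Agent.H731R3.Cardy.HalfBox
import Pool.Agent.H731R3.Cardy.Interval
import Pool.Agent.H731R3.Cardy.Circ
import Pool.Agent.H934R2.Expl.Wire

/-!
The wired cluster of the negative half-axis in the half-plane without the edges of the positive
half-axis: adding one more boundary interval to the right of all others.
-/

set_option maxHeartbeats 400000

namespace H389KP

open H974 Finset H731C

/-- The horizontal edges of the negative half-axis. -/
def NA : Set Edg := {e | e.1 < 0 ∧ e.2.1 = 0 ∧ e.2.2 = true}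

/-- `v` belongs to the cluster of the negative half-axis. -/
def W (F : Finset Edg) (v : Vtx) : Prop := Reach (↑F ∪ NA) (0, 0) v

theorem W.mono {F G : Finset Edg} (h : F ⊆ G) {v : Vtx} (hF : W F v) : W G v :=
  Reach.mono (Set.union_subset_union_left _ (by exact_mod_cast h)) hF

/-- For every `i < k` the cluster meets the set `D i`. -/
def EV (k : ℕ) (D : ℕ → Vtx → Prop) (F : Finset Edg) : Prop := ∀ i < k, ∃ u, D i u ∧ W F u

theorem EV.mono {k : ℕ} {D : ℕ → Vtx → Prop} {F G : Finset Edg} (h : F ⊆ G) (hF : EV k D F) :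
    EV k D G := by
  intro i hi
  obtain ⟨u, h1, h2⟩ := hF i hi
  exact ⟨u, h1, h2.mono h⟩

theorem EV_incr (S : Finset Edg) (k : ℕ) (D : ℕ → Vtx → Prop) : IncrE S (EV k D) :=
  fun _ _ h _ hF => hF.mono h

/-- a path in `G ∪ B` is a path in `G` or its beginning reaches an end of `B` inside `G` -/
theorem hit_or {G B : Set Edg} {T : Vtx → Prop} (hB : ∀ e ∈ B, T (src e) ∧ T (tgt e))
    {u v : Vtx} (h : Reach (G ∪ B) u v) : Reach G u v ∨ ∃ w, T w ∧ Reach G u w := by
  induction h with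
  | refl => exact Or.inl (Reach.refl _ _)
  | @tail x y _ hs ih =>
    rcases ih with ih | ih
    · obtain ⟨e, he | he, hc⟩ := hs
      · exact Or.inl (ih.trans (Adj.reach ⟨e, he, hc⟩))
      · right
        have := hB e he
        rcases hc with ⟨h1, -⟩ | ⟨-, h2⟩
        · exact ⟨x, h1 ▸ this.1, ih⟩
        · exact ⟨x, h2 ▸ this.2, ih⟩
    · exact Or.inr ih

theorem VE_nonneg {a b d : ℤ} {e : Edg} (he : e ∈ VE a b 0 d) : 0 ≤ e.2.1 :=
  H934E.RE_nonneg (VE_subset_RE he)

/-- leaving a half-box -/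
theorem exitW {G : Set Edg} {F : Finset Edg} {N z R : ℤ} (hF : F ⊆ VE (-N) N 0 N) (hR : 1 ≤ R)
    (hG : ∀ e ∈ G, e ∈ RE (z - R) (z + R) (-R) R → e ∈ F)
    {u v : Vtx} (hu : inR (z - R) (z + R) 0 (0 + R) u) (h : Reach G u v)
    (hv : v.1 ≤ z - R ∨ z + R ≤ v.1 ∨ R ≤ v.2) :
    ∃ w : Vtx, onH z 0 R w ∧ Reach (↑F ∩ ↑(VE (z - R) (z + R) 0 (0 + R))) u w := by
  have hu' : inR (z - R) (z + R) 0 R u := by simpa using hu
  obtain ⟨w, h1, h2, h3⟩ := H934E.exitG (k := z) (R := R) hR (G := G)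
    (fun e he hE => VE_nonneg (hF (hG e he hE))) hu' h (by omega)
  refine ⟨w, ?_, h3.mono ?_⟩
  · unfold inR at h2
    unfold onH
    omega
  · rintro e ⟨he, hE⟩
    have hE' : e ∈ RE (z - R) (z + R) (-R) R :=
      RE_subset le_rfl le_rfl (by omega) le_rfl (Finset.mem_coe.mp hE)
    have hF' := hG e he hE'
    refine ⟨Finset.mem_coe.mpr hF', ?_⟩
    rw [Finset.mem_coe] at hE ⊢
    have hV := hF hF'
    obtain ⟨x, y, _ | _⟩ := e
    · rw [mem_VE_false]
      rw [mem_RE_false] at hE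
      omega
    · rw [mem_VE_true] at hV ⊢
      rw [mem_RE_true] at hE
      omega

/-- leaving a half-box which does not meet the negative half-axis -/
theorem exitV {F : Finset Edg} {N z R : ℤ} (hF : F ⊆ VE (-N) N 0 N) (hR : 1 ≤ R) (hz : R ≤ z)
    {u v : Vtx} (hu : inR (z - R) (z + R) 0 (0 + R) u) (h : Reach (↑F ∪ NA) u v)
    (hv : v.1 ≤ z - R ∨ z + R ≤ v.1 ∨ R ≤ v.2) :
    ∃ w : Vtx, onH z 0 R w ∧ Reach (↑F ∩ ↑(VE (z - R) (z + R) 0 (0 + R))) u w := by
  refine exitW hF hR ?_ hu h hv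
  rintro e (he | he) hE
  · exact Finset.mem_coe.mp he
  · exfalso
    have := (RE_ends hE).1
    have h1 : (src e).1 = e.1 := rfl
    unfold inR at this
    have h2 := he.1
    omega

/-- Resampling: opening all edges of a half-box surrounded by a half-circuit does not change the
cluster to the left of the half-circuit. -/
theorem resample {F : Finset Edg} {N z m : ℤ} (hF : F ⊆ VE (-N) N 0 N) (hm : 1 ≤ m)
    (hz : 3 * m ≤ z) (hc : HC z 0 m F) {u : Vtx} (hu : u.1 ≤ z - 3 * m)
    (h : W (F ∪ VE (z - m) (z + m) 0 m) u) : W F u := by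
  obtain ⟨fl, fr, -, -, hmeet⟩ := HC_meetV hm hc
  have key : ∀ w v : Vtx, inR (z - m) (z + m) 0 m w → v.1 ≤ z - 3 * m → Reach (↑F ∪ NA) w v →
      Reach (↑F ∪ NA) w (fl, 0) := by
    intro w v hw hv hwv
    unfold inR at hw
    obtain ⟨w', h1, h2⟩ := exitV hF (R := 3 * m) (by omega) hz
      (u := w) (by unfold inR; omega) hwv (Or.inl hv)
    have h3 := (hmeet w w' (by unfold inR; omega) h1 h2).1
    exact h3.mono (Set.inter_subset_left.trans Set.subset_union_left)
  have hB : ∀ e ∈ (↑(VE (z - m) (z + m) 0 m) : Set Edg),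
      inR (z - m) (z + m) 0 m (src e) ∧ inR (z - m) (z + m) 0 m (tgt e) :=
    fun e he => RE_ends (VE_subset_RE (Finset.mem_coe.mp he))
  have h' : Reach ((↑F ∪ NA) ∪ ↑(VE (z - m) (z + m) 0 m)) (0, 0) u := by
    refine Reach.mono ?_ h
    rw [Finset.coe_union]
    rintro e ((he | he) | he)
    · exact Or.inl (Or.inl he)
    · exact Or.inr he
    · exact Or.inl (Or.inr he)
  rcases hit_or hB h' with h1 | ⟨w, hw, h1⟩
  · exact h1
  · rcases hit_or hB h'.symm with h2 | ⟨w', hw', h2⟩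
    · exact h2.symm
    · have e1 := key w (0, 0) hw (by simp only; omega) h1.symm
      have e2 := key w' u hw' hu h2.symm
      exact h1.trans (e1.trans (e2.symm.trans h2.symm))

end H389KP
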