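import Pool.Agent.H389R2.KP.StepUp

set_option maxHeartbeats 400000

namespace H389KP

open H974 Finset H731C

/-- the cluster touches the boundary interval `[a, b]` -/
def TI (a b : ℤ) (F : Finset Edg) : Prop := ∃ x : ℤ, (a ≤ x ∧ x ≤ b) ∧ W F (x, 0)

theorem TI.mono {a b : ℤ} {F G : Finset Edg} (h : F ⊆ G) (hF : TI a b F) : TI a b G := by
  obtain ⟨u, h1, h2⟩ := hF
  exact ⟨u, h1, h2.mono h⟩

theorem VE_sub_big {a b N d : ℤ} (h1 : -N ≤ a) (h2 : b ≤ N) (h3 : d ≤ N) :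
    VE a b 0 d ⊆ VE (-N) N 0 N := VE_mono h1 h2 h3

theorem NA_line {l : ℤ} (h : l ≤ 0) : Reach NA (0, 0) (l, 0) := by
  obtain ⟨n, hn⟩ := Int.eq_ofNat_of_zero_le (show 0 ≤ -l by omega)
  have e : l = -(n : ℤ) := by omega
  rw [e]
  exact (H934E.wired_line (M := n) (A := NA) (fun x _ hx => ⟨hx, rfl, rfl⟩) n le_rfl).symm

/-- gluing far from the origin -/
theorem glue_far {F : Finset Edg} {N a b g z : ℤ} (hF : F ⊆ VE (-N) N 0 N) (hg : 1 ≤ g)
    (hab : b ≤ a + g - 1) (hz : a ≤ z ∧ z ≤ b) (ha : 6 * g ≤ a) {u : Vtx}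
    (hu : inR (a - 2 * g) (a + 2 * g) 0 (0 + 2 * g) u) (hW : W F u)
    (h1 : HC a 0 (2 * g) F) (h2 : IA a b z 0 (8 * g) F) : TI a b F := by
  obtain ⟨fl, fr, -, -, hmeet⟩ := HC_meetV (by omega) h1
  obtain ⟨x, v, hx, hv, hxv⟩ := h2
  unfold inR at hu
  unfold onH at hv
  obtain ⟨w, hw1, hw2⟩ := exitV hF (z := a) (R := 3 * (2 * g)) (by omega) (by omega) (u := u)
    (v := (0, 0)) (by unfold inR; omega) hW.symm (Or.inl (by simp only; omega))
  obtain ⟨w', hw1', hw2'⟩ := exitV hF (z := a) (R := 3 * (2 * g)) (by omega) (by omega)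
    (u := (x, 0)) (v := v) (by unfold inR; simp only; omega)
    (hxv.mono (Set.inter_subset_left.trans Set.subset_union_left)) (by omega)
  have e1 := (hmeet u w (by unfold inR; omega) hw1 hw2).1
  have e2 := (hmeet (x, 0) w' (by unfold inR; simp only; omega) hw1' hw2').1
  have s : (↑F : Set Edg) ∩ ↑(VE (a - 3 * (2 * g)) (a + 3 * (2 * g)) 0 (0 + 3 * (2 * g))) ⊆
      ↑F ∪ NA := Set.inter_subset_left.trans Set.subset_union_left
  exact ⟨x, hx, Reach.trans hW ((e1.mono s).trans (e2.symm.mono s))⟩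

/-- gluing near the origin -/
theorem glue_near {F : Finset Edg} {N a b z : ℤ} (hF : F ⊆ VE (-N) N 0 N) (ha : 1 ≤ a)
    (hab : b ≤ 2 * a) (hz : a ≤ z ∧ z ≤ b)
    (h1 : HC a 0 a F) (h2 : IA a b z 0 (5 * a) F) : TI a b F := by
  obtain ⟨fl, fr, hfl, -, hmeet⟩ := HC_meetV (by omega) h1
  obtain ⟨x, v, hx, hv, hxv⟩ := h2
  unfold onH at hv
  obtain ⟨w', hw1', hw2'⟩ := exitW hF (G := (↑F : Set Edg)) (z := a) (R := 3 * a) (by omega)
    (fun e he _ => Finset.mem_coe.mp he)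
    (u := (x, 0)) (v := v) (by unfold inR; simp only; omega)
    (hxv.mono Set.inter_subset_left) (by omega)
  have e2 := (hmeet (x, 0) w' (by unfold inR; simp only; omega) hw1' hw2').1
  have s : (↑F : Set Edg) ∩ ↑(VE (a - 3 * a) (a + 3 * a) 0 (0 + 3 * a)) ⊆
      ↑F ∪ NA := Set.inter_subset_left.trans Set.subset_union_left
  have e3 : Reach NA (0, 0) (fl, 0) := NA_line (by omega)
  exact ⟨x, hx, Reach.trans (e3.mono Set.subset_union_right) (e2.symm.mono s)⟩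

theorem step_low : ∃ c : ℝ, 0 < c ∧ ∀ (N a b p : ℤ) (k : ℕ) (D : ℕ → Vtx → Prop), 0 ≤ p → p < a →
    a ≤ b → 40 * b ≤ N → (k = 0 → p = 0) →
    (∀ i, i + 1 = k → ∀ u, D i u → a - u.1 ≤ 2 * (a - p) ∧ u.1 ≤ p ∧ u.2 = 0) →
    c * rt p a b * P2 (VE (-N) N 0 N) (EV k D) ≤
      P2 (VE (-N) N 0 N) (fun F => EV k D F ∧ TI a b F) := by
  obtain ⟨c, hc, hI⟩ := IA_lower
  refine ⟨(1/2 : ℝ) ^ 141 * (c / 30), by positivity, ?_⟩
  intro N a b p k D hp hpa hab hN hk hD
  set S := VE (-N) N 0 N with hS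
  have hP : 0 ≤ P2 S (EV k D) := Pr_nonneg okhalf2 _ _
  set g : ℤ := a - p with hg
  set l : ℤ := min (b - a + 1) g with hl
  have hl1 : 1 ≤ l := by omega
  have hlg : l ≤ g := min_le_right _ _
  have hlb : l ≤ b - a + 1 := min_le_left _ _
  -- the final arithmetic
  have fin : ∀ n : ℤ, 1 ≤ n → n ≤ 30 * g → rt p a b ≤ 30 * ((l : ℝ) / n) ^ ((1 : ℝ) / 3) := by
    intro n hn1 hn
    unfold rt
    have hn0 : (0 : ℝ) < (n : ℝ) := by exact_mod_cast (by omega : 0 < n)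
    have hL0 : (0 : ℝ) < ((b - p + 1 : ℤ) : ℝ) := by exact_mod_cast (by omega : 0 < b - p + 1)
    have hB0 : (0 : ℝ) < ((b - a + 1 : ℤ) : ℝ) := by exact_mod_cast (by omega : 0 < b - a + 1)
    have hl0 : (0 : ℝ) < (l : ℝ) := by exact_mod_cast (by omega : 0 < l)
    apply cube_root_le (k := 30) (K := 30) (by positivity) (by positivity) (by norm_num) _
      (by norm_num)
    rw [← mul_div_assoc, div_le_div_iff₀ hL0 hn0]
    have h1 : (n : ℝ) ≤ 30 * (g : ℝ) := by exact_mod_cast hn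
    have h2 : ((b - a + 1 : ℤ) : ℝ) * (g : ℝ) ≤ (l : ℝ) * ((b - p + 1 : ℤ) : ℝ) := by
      have : (b - a + 1) * g ≤ l * (b - p + 1) := by
        rcases le_total (b - a + 1) g with h | h
        · have e : l = b - a + 1 := min_eq_left h
          rw [e]
          exact mul_le_mul_of_nonneg_left (by omega) (by omega)
        · have e : l = g := min_eq_right h
          rw [e, mul_comm]
          exact mul_le_mul_of_nonneg_left (by omega) (by omega)
      exact_mod_cast this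
    calc ((b - a + 1 : ℤ) : ℝ) * (n : ℝ) ≤ ((b - a + 1 : ℤ) : ℝ) * (30 * (g : ℝ)) :=
          mul_le_mul_of_nonneg_left h1 hB0.le
      _ = 30 * (((b - a + 1 : ℤ) : ℝ) * (g : ℝ)) := by ring
      _ ≤ 30 * ((l : ℝ) * ((b - p + 1 : ℤ) : ℝ)) := mul_le_mul_of_nonneg_left h2 (by norm_num)
      _ = _ := by ring
  -- the general combination
  have comb : ∀ (n r z : ℤ), 1 ≤ r → 1 ≤ n → n ≤ 30 * g → VE (a - 3 * r) (a + 3 * r) 0 (0 + 3 * r) ⊆ S →
      c * ((l : ℝ) / n) ^ ((1 : ℝ) / 3) ≤ P2 S (IA a (a + l - 1) z 0 n) →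
      (∀ F, F ⊆ S → EV k D F → HC a 0 r F → IA a (a + l - 1) z 0 n F → TI a (a + l - 1) F) →
      (1/2 : ℝ) ^ 141 * (c / 30) * rt p a b * P2 S (EV k D) ≤
        P2 S (fun F => EV k D F ∧ TI a b F) := by
    intro n r z hr hn hn30 hsub hIA hglue
    have hH := pr_HC (z := a) (t := 0) hr hsub
    have i1 := H973.hmul (HC_incr S a 0 r) (IA_incr S a (a + l - 1) z 0 n) (by positivity) hH hIA
    have c1 : IncrE S (fun F => HC a 0 r F ∧ IA a (a + l - 1) z 0 n F) :=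
      fun F G hFG hG hF => ⟨HC_incr S a 0 r F G hFG hG hF.1, IA_incr S _ _ _ _ _ F G hFG hG hF.2⟩
    have i2 := H973.hmul (EV_incr S k D) c1 (by positivity) (le_refl _) i1
    have i3 : P2 S (fun F => EV k D F ∧ HC a 0 r F ∧ IA a (a + l - 1) z 0 n F) ≤
        P2 S (fun F => EV k D F ∧ TI a b F) := by
      apply Pr_mono okhalf2
      rintro F hF ⟨h1, h2, h3⟩
      obtain ⟨x, hx, hW⟩ := hglue F hF h1 h2 h3
      exact ⟨h1, x, by omega, hW⟩
    refine le_trans ?_ (i2.trans i3)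
    have f := fin n hn hn30
    calc (1/2 : ℝ) ^ 141 * (c / 30) * rt p a b * P2 S (EV k D)
        ≤ (1/2 : ℝ) ^ 141 * (c / 30) * (30 * ((l : ℝ) / n) ^ ((1 : ℝ) / 3)) * P2 S (EV k D) := by
          apply mul_le_mul_of_nonneg_right _ hP
          exact mul_le_mul_of_nonneg_left f (by positivity)
      _ = P2 S (EV k D) * ((1/2 : ℝ) ^ 141 * (c * ((l : ℝ) / n) ^ ((1 : ℝ) / 3))) := by ring
  by_cases h6 : 6 * g ≤ a
  · obtain ⟨z, hz, hIz⟩ := hI a (a + l - 1) 0 (8 * g) (by omega) (by omega)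
    have hsub : VE (z - 8 * g) (z + 8 * g) 0 (0 + 8 * g) ⊆ S :=
      VE_sub_big (by omega) (by omega) (by omega)
    have h1 := hIz S hsub
    rw [show a + l - 1 - a + 1 = l by ring] at h1
    apply comb (8 * g) (2 * g) z (by omega) (by omega) (by omega)
      (VE_sub_big (by omega) (by omega) (by omega)) h1
    intro F hF hE hHC hIA
    have hk0 : k ≠ 0 := fun h => by have := hk h; omega
    obtain ⟨u, hu, hW⟩ := hE (k - 1) (by omega)
    have hu' := hD (k - 1) (by omega) u hu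
    exact glue_far hF (by omega) (by omega) hz h6 (u := u) (by unfold inR; omega) hW hHC hIA
  · obtain ⟨z, hz, hIz⟩ := hI a (a + l - 1) 0 (5 * a) (by omega) (by omega)
    have hsub : VE (z - 5 * a) (z + 5 * a) 0 (0 + 5 * a) ⊆ S :=
      VE_sub_big (by omega) (by omega) (by omega)
    have h1 := hIz S hsub
    rw [show a + l - 1 - a + 1 = l by ring] at h1
    apply comb (5 * a) a z (by omega) (by omega) (by omega)
      (VE_sub_big (by omega) (by omega) (by omega)) h1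
    intro F hF hE hHC hIA
    exact glue_near hF (by omega) (by omega) hz hHC hIA

end H389KP
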