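import Pool.Agent.H389R2.KP.Step

set_option maxHeartbeats 400000

namespace H389KP

open H974 Finset H731C

/-- the square over the interval `[a, b]` -/
def SQ (a b : ℤ) (u : Vtx) : Prop := inR a b 0 (b - a) u

/-- the cluster meets the square over `[a, b]` -/
def TB (a b : ℤ) (F : Finset Edg) : Prop := ∃ u, SQ a b u ∧ W F u

theorem TB.mono {a b : ℤ} {F G : Finset Edg} (h : F ⊆ G) (hF : TB a b F) : TB a b G := by
  obtain ⟨u, h1, h2⟩ := hF
  exact ⟨u, h1, h2.mono h⟩

/-- independence and resampling -/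
theorem step_up_main {N a b p n : ℤ} {k : ℕ} {D : ℕ → Vtx → Prop} (hp : 0 ≤ p) (hab : a ≤ b)
    (hn : 1 ≤ n) (hl : b - a + 1 ≤ n) (hg : 3 * n ≤ a - p) (hN : a + 3 * n ≤ N)
    (hD : ∀ i < k, ∀ u, D i u → u.1 ≤ p) :
    P2 (VE (-N) N 0 N) (fun F => EV k D F ∧ TB a b F) ≤
      P2 (VE (a - n) (a + n) 0 (0 + n)) (HA a 0 (b - a + 1) n) *
        ((2 : ℝ) ^ 141 * P2 (VE (-N) N 0 N) (EV k D)) := by
  set S := VE (-N) N 0 N with hS
  set B := VE (a - n) (a + n) 0 (0 + n) with hB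
  have hBS : B ⊆ S := by
    rintro ⟨x, y, _ | _⟩ he
    · rw [hB, mem_VE_false] at he
      rw [hS, mem_VE_false]
      omega
    · rw [hB, mem_VE_true] at he
      rw [hS, mem_VE_true]
      omega
  -- the event splits
  have h1 : P2 S (fun F => EV k D F ∧ TB a b F) ≤
      P2 S (fun F => HA a 0 (b - a + 1) n (F ∩ B) ∧ EV k D ((F ∩ (S \ B)) ∪ B)) := by
    apply Pr_mono okhalf2
    rintro F hF ⟨hE, u, hu, hW⟩
    constructor
    · unfold SQ inR at hu
      obtain ⟨w, hw1, hw2⟩ := exitV (F := F) (N := N) (z := a) (R := n) (u := u) (v := (0, 0)) hF hn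
        (by omega) (by unfold inR; omega) hW.symm (Or.inl (by simp only; omega))
      refine ⟨u, w, by unfold inR; omega, hw1, hw2.mono ?_⟩
      rintro e ⟨he1, he2⟩
      refine ⟨?_, VE_subset_RE he2⟩
      rw [Finset.coe_inter]
      exact ⟨he1, he2⟩
    · apply hE.mono
      intro e he
      rw [Finset.mem_union, Finset.mem_inter, Finset.mem_sdiff]
      by_cases hb : e ∈ B
      · exact Or.inr hb
      · exact Or.inl ⟨he, hF he, hb⟩
  have h2 := P2_indep (U := S) (S := B) (T := S \ B) hBS Finset.sdiff_subset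
    Finset.disjoint_sdiff (HA a 0 (b - a + 1) n) (fun F => EV k D (F ∪ B))
  rw [h2] at h1
  refine h1.trans (mul_le_mul_of_nonneg_left ?_ (Pr_nonneg okhalf2 _ _))
  -- gluing
  have h3 : P2 S (fun F => EV k D ((F ∩ (S \ B)) ∪ B)) = P2 (S \ B) (fun F => EV k D (F ∪ B)) :=
    P2_restrict (S := S) (S' := S \ B) Finset.sdiff_subset (fun F => EV k D (F ∪ B))
  have h4 : (1/2 : ℝ) ^ 141 ≤ P2 S (HC a 0 n) := by
    apply pr_HC hn
    rintro ⟨x, y, _ | _⟩ he
    · rw [mem_VE_false] at he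
      rw [hS, mem_VE_false]
      omega
    · rw [mem_VE_true] at he
      rw [hS, mem_VE_true]
      omega
  have i1 : IncrE S (fun F => EV k D ((F ∩ (S \ B)) ∪ B)) := by
    intro F G hFG _ hE
    exact hE.mono (Finset.union_subset_union (Finset.inter_subset_inter hFG le_rfl) le_rfl)
  have h5 := H973.hmul (S := S) i1 (HC_incr S a 0 n) (by positivity) le_rfl h4
  have h6 : P2 S (fun F => EV k D ((F ∩ (S \ B)) ∪ B) ∧ HC a 0 n F) ≤ P2 S (EV k D) := by
    apply Pr_mono okhalf2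
    rintro F hF ⟨hE, hc⟩ i hi
    obtain ⟨u, hu, hW⟩ := hE i hi
    refine ⟨u, hu, resample hF hn (by omega) hc (by have := hD i hi u hu; omega) (hW.mono ?_)⟩
    rw [show (0 + n : ℤ) = n by ring] at hB
    rw [← hB]
    exact Finset.union_subset_union Finset.inter_subset_left le_rfl
  have h7 : P2 (S \ B) (fun F => EV k D (F ∪ B)) * (1/2 : ℝ) ^ 141 ≤ P2 S (EV k D) := by
    rw [← h3]
    exact h5.trans h6
  have h8 : P2 (S \ B) (fun F => EV k D (F ∪ B)) =
      (2 : ℝ) ^ 141 * (P2 (S \ B) (fun F => EV k D (F ∪ B)) * (1/2 : ℝ) ^ 141) := by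
    rw [one_div, inv_pow]
    field_simp
  rw [h8]
  exact mul_le_mul_of_nonneg_left h7 (by positivity)

/-- the factor of one interval -/
noncomputable def rt (p a b : ℤ) : ℝ := (((b - a + 1 : ℤ) : ℝ) / ((b - p + 1 : ℤ) : ℝ)) ^ ((1 : ℝ) / 3)

theorem rt_pos {p a b : ℤ} (hpa : p < a) (hab : a ≤ b) : 0 < rt p a b := by
  apply Real.rpow_pos_of_pos
  have h1 : (0 : ℝ) < ((b - a + 1 : ℤ) : ℝ) := by exact_mod_cast (by omega : 0 < b - a + 1)
  have h2 : (0 : ℝ) < ((b - p + 1 : ℤ) : ℝ) := by exact_mod_cast (by omega : 0 < b - p + 1)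
  positivity

theorem step_up : ∃ C : ℝ, 0 < C ∧ ∀ (N a b p : ℤ) (k : ℕ) (D : ℕ → Vtx → Prop), 0 ≤ p → p < a →
    a ≤ b → 4 * b ≤ N → (∀ i < k, ∀ u, D i u → u.1 ≤ p) →
    P2 (VE (-N) N 0 N) (fun F => EV k D F ∧ TB a b F) ≤
      C * rt p a b * P2 (VE (-N) N 0 N) (EV k D) := by
  obtain ⟨C, hC, hU⟩ := HA_upper
  refine ⟨9 * C * 2 ^ 141 + 5, by positivity, ?_⟩
  intro N a b p k D hp hpa hab hN hD
  have hr := rt_pos hpa hab
  have hP : 0 ≤ P2 (VE (-N) N 0 N) (EV k D) := Pr_nonneg okhalf2 _ _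
  set l : ℤ := b - a + 1 with hl
  set n : ℤ := (a - p) / 4 with hn
  have hl0 : (0 : ℝ) < (l : ℝ) := by exact_mod_cast (by omega : 0 < l)
  have hL0 : (0 : ℝ) < ((b - p + 1 : ℤ) : ℝ) := by exact_mod_cast (by omega : 0 < b - p + 1)
  by_cases hln : l ≤ n
  · have hn1 : 1 ≤ n := by omega
    have h1 := step_up_main (N := N) (a := a) (b := b) (p := p) (n := n) (k := k) (D := D) hp hab
      hn1 hln (by omega) (by omega) hD
    -- extend the arm event to the full half-box
    have h2 : P2 (VE (a - n) (a + n) 0 (0 + n)) (HA a 0 (b - a + 1) n) ≤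
        P2 (RE (a - n) (a + n) 0 (0 + n)) (HA a 0 (b - a + 1) n) := by
      have e := P2_restrict (S := RE (a - n) (a + n) 0 (0 + n)) VE_subset_RE
        (HA a 0 (b - a + 1) n)
      rw [← e]
      apply Pr_mono okhalf2
      intro F _ hF
      exact HA_incr F a 0 (b - a + 1) n _ _ Finset.inter_subset_left le_rfl hF
    have h3 := hU a 0 l n (by omega) hln (RE (a - n) (a + n) 0 (0 + n)) le_rfl
    have hn0 : (0 : ℝ) < (n : ℝ) := by exact_mod_cast (by omega : 0 < n)
    have h4 : ((l : ℝ) / n) ^ ((1 : ℝ) / 3) ≤ 9 * rt p a b := by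
      unfold rt
      apply cube_root_le (k := 9) (K := 9) (by positivity) (by positivity) (by norm_num) _
        (by norm_num)
      rw [← hl, ← mul_div_assoc, div_le_div_iff₀ hn0 hL0]
      have : ((b - p + 1 : ℤ) : ℝ) ≤ 9 * (n : ℝ) := by exact_mod_cast (by omega)
      nlinarith
    calc P2 (VE (-N) N 0 N) (fun F => EV k D F ∧ TB a b F)
        ≤ _ := h1
      _ ≤ (C * (9 * rt p a b)) * ((2 : ℝ) ^ 141 * P2 (VE (-N) N 0 N) (EV k D)) := by
          apply mul_le_mul_of_nonneg_right _ (by positivity)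
          exact (h2.trans h3).trans (mul_le_mul_of_nonneg_left h4 hC.le)
      _ = (9 * C * 2 ^ 141) * rt p a b * P2 (VE (-N) N 0 N) (EV k D) := by ring
      _ ≤ (9 * C * 2 ^ 141 + 5) * rt p a b * P2 (VE (-N) N 0 N) (EV k D) := by
          apply mul_le_mul_of_nonneg_right _ hP
          apply mul_le_mul_of_nonneg_right _ hr.le
          linarith
  · have h1 : P2 (VE (-N) N 0 N) (fun F => EV k D F ∧ TB a b F) ≤ P2 (VE (-N) N 0 N) (EV k D) :=
      Pr_mono okhalf2 (fun F _ h => h.1)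
    have h2 : (1 : ℝ) ≤ 5 * rt p a b := by
      have := cube_root_le (x := 1) (y := (l : ℝ) / ((b - p + 1 : ℤ) : ℝ)) (k := 5) (K := 5)
        (by norm_num) (by positivity) (by norm_num) (by
          rw [← mul_div_assoc, le_div_iff₀ hL0, one_mul]
          exact_mod_cast (by omega : b - p + 1 ≤ 5 * l)) (by norm_num)
      rw [Real.one_rpow] at this
      exact this
    calc _ ≤ _ := h1
      _ = 1 * P2 (VE (-N) N 0 N) (EV k D) := (one_mul _).symm
      _ ≤ (5 * rt p a b) * P2 (VE (-N) N 0 N) (EV k D) := mul_le_mul_of_nonneg_right h2 hP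
      _ ≤ _ := by
          apply mul_le_mul_of_nonneg_right _ hP
          apply mul_le_mul_of_nonneg_right _ hr.le
          have : 0 < 9 * C * 2 ^ 141 := by positivity
          linarith

end H389KP
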