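import Pool.Agent.H389R2.KP.Main

set_option maxHeartbeats 400000

/-!
Upper tail of the number of visited boundary points.
-/

namespace H389KP

open H974 H731C Finset

/-- the boundary point `x` is visited -/
def V (F : Finset Edg) (x : ℕ) : Prop := W F ((x : ℤ), 0)

theorem V.mono {F G : Finset Edg} (h : F ⊆ G) {x : ℕ} (hF : V F x) : V G x := W.mono h hF

/-- the probability that all points of `s` are visited -/
noncomputable def PV (N : ℕ) (s : Finset ℕ) : ℝ :=
  P2 (VE (-(N : ℤ)) N 0 N) (fun F => ∀ x ∈ s, V F x)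

theorem PV_nonneg (N : ℕ) (s : Finset ℕ) : 0 ≤ PV N s := Pr_nonneg okhalf2 _ _
theorem PV_le_one (N : ℕ) (s : Finset ℕ) : PV N s ≤ 1 := Pr_le_one okhalf2 _ _

theorem EV_list (s : Finset ℕ) (F : Finset Edg) :
    EV s.card (fun i u => ∃ x : ℕ, s.toList[i]? = some x ∧ u = ((x : ℤ), (0 : ℤ))) F ↔
      ∀ x ∈ s, V F x := by
  constructor
  · intro h x hx
    have hx' : x ∈ s.toList := Finset.mem_toList.mpr hx
    obtain ⟨i, hi, he⟩ := List.getElem_of_mem hx'
    have hi' : i < s.card := by rw [← Finset.length_toList]; exact hi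
    obtain ⟨u, ⟨y, hy, hu⟩, hW⟩ := h i hi'
    rw [List.getElem?_eq_getElem hi] at hy
    have : y = x := by rw [← he]; exact (Option.some.inj hy).symm
    rw [hu, this] at hW
    exact hW
  · intro h i hi
    have hi' : i < s.toList.length := by rw [Finset.length_toList]; exact hi
    refine ⟨(((s.toList[i] : ℕ) : ℤ), 0), ⟨s.toList[i], List.getElem?_eq_getElem hi', rfl⟩, ?_⟩
    exact h _ (Finset.mem_toList.mp (List.getElem_mem hi'))

theorem PV_step : ∃ C : ℝ, 0 < C ∧ ∀ (N y x : ℕ) (s : Finset ℕ), y < x → (∀ z ∈ s, z ≤ y) →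
    4 * x ≤ N → PV N (insert x s) ≤ C * ((x : ℝ) - y) ^ (-(1/3) : ℝ) * PV N s := by
  obtain ⟨C, hC, h⟩ := step_up
  refine ⟨C, hC, ?_⟩
  intro N y x s hyx hs hN
  have h1 := h N x x y s.card
    (fun i u => ∃ x : ℕ, s.toList[i]? = some x ∧ u = ((x : ℤ), (0 : ℤ))) (by omega) (by omega)
    le_rfl (by omega) (by
      rintro i hi u ⟨z, hz, rfl⟩
      have : z ∈ s := Finset.mem_toList.mp (List.mem_of_getElem? hz)
      have := hs z this
      simp only
      omega)
  have e1 : P2 (VE (-(N : ℤ)) N 0 N) (EV s.card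
      (fun i u => ∃ x : ℕ, s.toList[i]? = some x ∧ u = ((x : ℤ), (0 : ℤ)))) = PV N s :=
    Pr_congr (fun F _ => EV_list s F)
  have e2 : PV N (insert x s) = P2 (VE (-(N : ℤ)) N 0 N) (fun F => EV s.card
      (fun i u => ∃ x : ℕ, s.toList[i]? = some x ∧ u = ((x : ℤ), (0 : ℤ))) F ∧
        TB (x : ℤ) x F) := by
    apply Pr_congr
    intro F _
    rw [EV_list]
    constructor
    · intro h
      refine ⟨fun z hz => h z (Finset.mem_insert_of_mem hz), ((x : ℤ), 0), ?_,
        h x (Finset.mem_insert_self _ _)⟩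
      unfold SQ inR
      simp only
      omega
    · rintro ⟨h1, u, hu, hW⟩ z hz
      rcases Finset.mem_insert.mp hz with rfl | hz
      · obtain ⟨u1, u2⟩ := u
        unfold SQ inR at hu
        simp only at hu
        have h2 : u1 = (z : ℤ) := by omega
        have h3 : u2 = 0 := by omega
        subst h2 h3
        exact hW
      · exact h1 z hz
  rw [e2]
  rw [e1] at h1
  refine h1.trans (mul_le_mul_of_nonneg_right (mul_le_mul_of_nonneg_left ?_ hC.le) (PV_nonneg _ _))
  unfold rt
  have hg : (0 : ℝ) < (x : ℝ) - y := by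
    have : (y : ℝ) < x := by exact_mod_cast hyx
    linarith
  rw [Real.rpow_neg hg.le, ← Real.inv_rpow hg.le]
  apply Real.rpow_le_rpow _ _ (by norm_num)
  · push_cast
    have : (0 : ℝ) < (x : ℝ) - y + 1 := by linarith
    have h0 : (0:ℝ) ≤ (x : ℝ) - x + 1 := by simp
    positivity
  · push_cast
    rw [sub_self, zero_add, inv_eq_one_div]
    exact one_div_le_one_div_of_le hg (by linarith)

/-- decomposition of a sum over the subsets of `[1, n]` by the maximum -/
theorem sum_psc (φ : Finset ℕ → ℝ) (k n : ℕ) :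
    ∑ s ∈ powersetCard (k + 1) (Icc 1 n), φ s =
      ∑ y ∈ Icc 1 n, ∑ s ∈ powersetCard k (Icc 1 (y - 1)), φ (insert y s) := by
  induction n with
  | zero =>
    have e : Icc 1 0 = (∅ : Finset ℕ) := by simp
    rw [e, Finset.sum_empty]
    apply Finset.sum_eq_zero
    intro s hs
    obtain ⟨h1, h2⟩ := Finset.mem_powersetCard.mp hs
    rw [Finset.subset_empty.mp h1] at h2
    simp at h2
  | succ n ih =>
    have h1 : Icc 1 (n + 1) = insert (n + 1) (Icc 1 n) := by
      ext x
      simp only [Finset.mem_Icc, Finset.mem_insert]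
      omega
    have h2 : n + 1 ∉ Icc 1 n := by simp
    rw [h1, Finset.sum_insert h2, Finset.powersetCard_succ_insert h2, Finset.sum_union,
      Finset.sum_image, ih, add_comm]
    · simp
    · intro s hs t ht hst
      have hs' : n + 1 ∉ s := fun h => h2 ((Finset.mem_powersetCard.mp hs).1 h)
      have ht' : n + 1 ∉ t := fun h => h2 ((Finset.mem_powersetCard.mp ht).1 h)
      have := congrArg (fun r => Finset.erase r (n + 1)) hst
      simpa [Finset.erase_insert hs', Finset.erase_insert ht'] using this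
    · rw [Finset.disjoint_left]
      intro s hs hs'
      obtain ⟨t, -, rfl⟩ := Finset.mem_image.mp hs'
      exact h2 ((Finset.mem_powersetCard.mp hs).1 (Finset.mem_insert_self _ _))

/-- subsets with maximum `y` -/
noncomputable def UU (N k y : ℕ) : ℝ := ∑ s ∈ powersetCard k (Icc 1 (y - 1)), PV N (insert y s)

theorem UU_nonneg (N k y : ℕ) : 0 ≤ UU N k y := Finset.sum_nonneg (fun _ _ => PV_nonneg _ _)

/-- the kernel -/
noncomputable def ker (C : ℝ) (θ : ℝ) (g : ℕ) : ℝ :=
  C * (g : ℝ) ^ (-(1/3) : ℝ) * Real.exp (-(θ * g))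

theorem ker_nonneg {C : ℝ} (hC : 0 ≤ C) (θ : ℝ) (g : ℕ) : 0 ≤ ker C θ g := by
  unfold ker; positivity

theorem weighted : ∃ C : ℝ, 0 < C ∧ ∀ (N m : ℕ), 4 * m ≤ N → ∀ (θ : ℝ) (k : ℕ),
    ∑ y ∈ Icc 1 m, Real.exp (-(θ * y)) * UU N k y ≤ (∑ g ∈ Icc 1 m, ker C θ g) ^ (k + 1) := by
  obtain ⟨C, hC, h⟩ := PV_step
  refine ⟨C, hC, ?_⟩
  intro N m hN θ k
  have hB : 0 ≤ ∑ g ∈ Icc 1 m, ker C θ g := Finset.sum_nonneg (fun g _ => ker_nonneg hC.le θ g)
  induction k with
  | zero =>
    rw [zero_add, pow_one]
    apply Finset.sum_le_sum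
    intro y hy
    rw [Finset.mem_Icc] at hy
    have h1 := h N 0 y ∅ (by omega) (by simp) (by omega)
    unfold UU
    rw [Finset.powersetCard_zero, Finset.sum_singleton]
    have h2 := PV_le_one N ∅
    have h3 : PV N (insert y ∅) ≤ C * (y : ℝ) ^ (-(1/3) : ℝ) := by
      refine h1.trans ?_
      push_cast
      rw [sub_zero]
      exact mul_le_of_le_one_right (by positivity) h2
    unfold ker
    rw [mul_comm]
    exact mul_le_mul_of_nonneg_right h3 (Real.exp_nonneg _)
  | succ k ih =>
    -- recursion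
    have hrec : ∀ x ∈ Icc 1 m, UU N (k + 1) x ≤
        ∑ y ∈ Icc 1 (x - 1), C * ((x : ℝ) - y) ^ (-(1/3) : ℝ) * UU N k y := by
      intro x hx
      rw [Finset.mem_Icc] at hx
      unfold UU
      rw [sum_psc]
      apply Finset.sum_le_sum
      intro y hy
      rw [Finset.mem_Icc] at hy
      rw [Finset.mul_sum]
      apply Finset.sum_le_sum
      intro s hs
      apply h N y x (insert y s) (by omega) _ (by omega)
      intro z hz
      rcases Finset.mem_insert.mp hz with rfl | hz
      · exact le_rfl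
      · have := Finset.mem_Icc.mp ((Finset.mem_powersetCard.mp hs).1 hz)
        omega
    calc ∑ x ∈ Icc 1 m, Real.exp (-(θ * x)) * UU N (k + 1) x
        ≤ ∑ x ∈ Icc 1 m, ∑ y ∈ Icc 1 (x - 1),
            ker C θ (x - y) * (Real.exp (-(θ * y)) * UU N k y) := by
          apply Finset.sum_le_sum
          intro x hx
          refine (mul_le_mul_of_nonneg_left (hrec x hx) (Real.exp_nonneg _)).trans (le_of_eq ?_)
          rw [Finset.mul_sum]
          apply Finset.sum_congr rfl
          intro y hy
          rw [Finset.mem_Icc] at hy hx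
          have hyx : y ≤ x := by omega
          unfold ker
          rw [Nat.cast_sub hyx]
          have : Real.exp (-(θ * x)) = Real.exp (-(θ * ((x : ℝ) - y))) * Real.exp (-(θ * y)) := by
            rw [← Real.exp_add]; congr 1; ring
          rw [this]
          ring
      _ = ∑ y ∈ Icc 1 m, ∑ x ∈ Icc (y + 1) m,
            ker C θ (x - y) * (Real.exp (-(θ * y)) * UU N k y) := by
          apply Finset.sum_comm'
          intro x y
          simp only [Finset.mem_Icc]
          omega
      _ ≤ ∑ y ∈ Icc 1 m, (∑ g ∈ Icc 1 m, ker C θ g) * (Real.exp (-(θ * y)) * UU N k y) := by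
          apply Finset.sum_le_sum
          intro y hy
          rw [← Finset.sum_mul]
          apply mul_le_mul_of_nonneg_right _ (mul_nonneg (Real.exp_nonneg _) (UU_nonneg _ _ _))
          have e : ∑ x ∈ Icc (y + 1) m, ker C θ (x - y) = ∑ g ∈ Icc 1 (m - y), ker C θ g := by
            apply Finset.sum_bij (fun x _ => x - y)
            · intro x hx
              rw [Finset.mem_Icc] at hx ⊢
              omega
            · intro a ha b hb hab
              rw [Finset.mem_Icc] at ha hb
              omega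
            · intro g hg
              rw [Finset.mem_Icc] at hg
              exact ⟨g + y, by rw [Finset.mem_Icc]; omega, by omega⟩
            · intro _ _; rfl
          rw [e]
          apply Finset.sum_le_sum_of_subset_of_nonneg
          · intro g hg
            rw [Finset.mem_Icc] at hg ⊢
            omega
          · exact fun g _ _ => ker_nonneg hC.le θ g
      _ = (∑ g ∈ Icc 1 m, ker C θ g) * ∑ y ∈ Icc 1 m, Real.exp (-(θ * y)) * UU N k y := by
          rw [Finset.mul_sum]
      _ ≤ (∑ g ∈ Icc 1 m, ker C θ g) * (∑ g ∈ Icc 1 m, ker C θ g) ^ (k + 1) :=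
          mul_le_mul_of_nonneg_left ih hB
      _ = _ := by ring

end H389KP
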