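import Pool.Agent.H389R2.KP.Tail
import Pool.Agent.H934R2.Expl.Mom

set_option maxHeartbeats 400000

namespace H389KP

open H974 H731C Finset

theorem sum_ker {C : ℝ} (hC : 0 < C) {θ : ℝ} (h0 : 0 < θ) (h1 : θ ≤ 1) (m : ℕ) :
    ∑ g ∈ Icc 1 m, ker C θ g ≤ 4 * C * θ ^ (-(2/3) : ℝ) := by
  -- pointwise bound
  have hpt : ∀ g ∈ Icc 1 m, ker C θ g ≤
      C * (if (g : ℝ) ≤ 1 / θ then (g : ℝ) ^ (-(1/3) : ℝ) else 0) +
        C * θ ^ ((1/3) : ℝ) * Real.exp (-θ) ^ g := by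
    intro g hg
    rw [Finset.mem_Icc] at hg
    have hg0 : (0 : ℝ) < g := by exact_mod_cast (by omega : 0 < g)
    have he : Real.exp (-(θ * g)) = Real.exp (-θ) ^ g := by
      rw [← Real.exp_nat_mul]; congr 1; ring
    unfold ker
    split_ifs with h
    · have h2 : Real.exp (-(θ * g)) ≤ 1 := by
        rw [Real.exp_le_one_iff]
        have : 0 ≤ θ * g := by positivity
        linarith
      have h3 : 0 ≤ C * θ ^ ((1/3) : ℝ) * Real.exp (-θ) ^ g := by positivity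
      have h4 : C * (g : ℝ) ^ (-(1/3) : ℝ) * Real.exp (-(θ * g)) ≤ C * (g : ℝ) ^ (-(1/3) : ℝ) :=
        mul_le_of_le_one_right (by positivity) h2
      linarith
    · rw [mul_zero, zero_add, he]
      apply mul_le_mul_of_nonneg_right _ (by positivity)
      apply mul_le_mul_of_nonneg_left _ hC.le
      rw [Real.rpow_neg hg0.le, ← Real.inv_rpow hg0.le]
      apply Real.rpow_le_rpow (by positivity) _ (by norm_num)
      push Not at h
      rw [inv_le_comm₀ hg0 h0]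
      rw [one_div] at h
      exact h.le
  refine (Finset.sum_le_sum hpt).trans ?_
  rw [Finset.sum_add_distrib, ← Finset.mul_sum, ← Finset.mul_sum]
  -- first part
  have hθi : 1 ≤ 1 / θ := by rw [le_div_iff₀ h0]; linarith
  have p1 : ∑ g ∈ Icc 1 m, (if (g : ℝ) ≤ 1 / θ then (g : ℝ) ^ (-(1/3) : ℝ) else 0) ≤
      3 / 2 * θ ^ (-(2/3) : ℝ) := by
    rw [← Finset.sum_filter]
    set D := ⌊1 / θ⌋₊ with hD
    have hsub : (Icc 1 m).filter (fun g : ℕ => (g : ℝ) ≤ 1 / θ) ⊆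
        (Finset.range D).image (fun d => d + 1) := by
      intro g hg
      rw [Finset.mem_filter, Finset.mem_Icc] at hg
      rw [Finset.mem_image]
      refine ⟨g - 1, ?_, by omega⟩
      rw [Finset.mem_range]
      have : g ≤ D := Nat.le_floor hg.2
      omega
    have h2 := Finset.sum_le_sum_of_subset_of_nonneg (f := fun g : ℕ => (g : ℝ) ^ (-(1/3) : ℝ)) hsub
      (fun g _ _ => by positivity)
    refine h2.trans ?_
    rw [Finset.sum_image (by intro a _ b _ h; simpa using h)]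
    have h3 := H934E.sum_rpow (a := 1/3) (by norm_num) (by norm_num) D
    have h4 : (D : ℝ) ^ ((1 : ℝ) - 1/3) ≤ θ ^ (-(2/3) : ℝ) := by
      rw [Real.rpow_neg h0.le, ← Real.inv_rpow h0.le]
      norm_num
      apply Real.rpow_le_rpow (by positivity) _ (by norm_num)
      have := Nat.floor_le (show 0 ≤ 1 / θ by positivity)
      rw [one_div] at this
      simpa [hD] using this
    calc ∑ d ∈ Finset.range D, (((d + 1 : ℕ) : ℝ)) ^ (-(1/3) : ℝ)
        = ∑ d ∈ Finset.range D, ((d : ℝ) + 1) ^ (-(1/3) : ℝ) := by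
          apply Finset.sum_congr rfl; intro d _; push_cast; rfl
      _ ≤ _ := h3
      _ ≤ _ := by
        rw [div_le_iff₀ (by norm_num)]
        norm_num
        norm_num at h4
        linarith
  -- second part
  have p2 : ∑ g ∈ Icc 1 m, Real.exp (-θ) ^ g ≤ 1 / θ := by
    have hr0 : 0 < Real.exp (-θ) := Real.exp_pos _
    have hr1 : Real.exp (-θ) < 1 := by rw [Real.exp_lt_one_iff]; linarith
    have h2 : ∑ g ∈ Icc 1 m, Real.exp (-θ) ^ g =
        Real.exp (-θ) * ∑ g ∈ Finset.range m, Real.exp (-θ) ^ g := by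
      rw [Finset.mul_sum]
      symm
      apply Finset.sum_bij (fun g _ => g + 1)
      · intro g hg; rw [Finset.mem_range] at hg; rw [Finset.mem_Icc]; omega
      · intro a _ b _ h; omega
      · intro g hg
        rw [Finset.mem_Icc] at hg
        exact ⟨g - 1, by rw [Finset.mem_range]; omega, by omega⟩
      · intro g _; rw [pow_succ]; ring
    rw [h2]
    have h3 : ∑ g ∈ Finset.range m, Real.exp (-θ) ^ g ≤ (1 - Real.exp (-θ))⁻¹ := by
      have := Summable.sum_le_tsum (f := fun g : ℕ => Real.exp (-θ) ^ g) (Finset.range m)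
        (fun _ _ => by positivity) (summable_geometric_of_lt_one hr0.le hr1)
      rwa [tsum_geometric_of_lt_one hr0.le hr1] at this
    have h4 : θ ≤ Real.exp θ - 1 := by have := Real.add_one_le_exp θ; linarith
    have h5 : Real.exp (-θ) * (1 - Real.exp (-θ))⁻¹ = (Real.exp θ - 1)⁻¹ := by
      rw [Real.exp_neg]
      have : Real.exp θ ≠ 0 := (Real.exp_pos θ).ne'
      have h6 : Real.exp θ - 1 ≠ 0 := by linarith
      field_simp
    calc Real.exp (-θ) * ∑ g ∈ Finset.range m, Real.exp (-θ) ^ g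
        ≤ Real.exp (-θ) * (1 - Real.exp (-θ))⁻¹ := mul_le_mul_of_nonneg_left h3 hr0.le
      _ = (Real.exp θ - 1)⁻¹ := h5
      _ ≤ 1 / θ := by
          rw [inv_eq_one_div]
          exact one_div_le_one_div_of_le h0 h4
  have p3 : θ ^ ((1/3) : ℝ) * (1 / θ) = θ ^ (-(2/3) : ℝ) := by
    have e : (1 : ℝ) / θ = θ ^ (-1 : ℝ) := by rw [Real.rpow_neg_one, one_div]
    rw [e, ← Real.rpow_add h0]
    norm_num
  have hpos : 0 < θ ^ (-(2/3) : ℝ) := Real.rpow_pos_of_pos h0 _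
  calc C * ∑ g ∈ Icc 1 m, (if (g : ℝ) ≤ 1 / θ then (g : ℝ) ^ (-(1/3) : ℝ) else 0) +
      C * θ ^ ((1/3) : ℝ) * ∑ g ∈ Icc 1 m, Real.exp (-θ) ^ g
      ≤ C * (3 / 2 * θ ^ (-(2/3) : ℝ)) + C * θ ^ ((1/3) : ℝ) * (1 / θ) :=
        add_le_add (mul_le_mul_of_nonneg_left p1 hC.le)
          (mul_le_mul_of_nonneg_left p2 (by positivity))
    _ = (3 / 2 + 1) * C * θ ^ (-(2/3) : ℝ) := by rw [mul_assoc C, p3]; ring
    _ ≤ _ := by
        apply mul_le_mul_of_nonneg_right _ hpos.le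
        nlinarith

open Classical in
/-- number of visited points in `[1, m]` -/
noncomputable def cnt (m : ℕ) (F : Finset Edg) : ℕ := ((Icc 1 m).filter (fun x => V F x)).card

theorem choose_cnt (m k : ℕ) (F : Finset Edg) :
    ∑ s ∈ powersetCard k (Icc 1 m), ind (∀ x ∈ s, V F x) = ((cnt m F).choose k : ℝ) := by
  classical
  have h1 : ∀ s ∈ powersetCard k (Icc 1 m), ind (∀ x ∈ s, V F x) =
      if s ⊆ (Icc 1 m).filter (fun x => V F x) then (1 : ℝ) else 0 := by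
    intro s hs
    have hs' := (Finset.mem_powersetCard.mp hs).1
    split_ifs with h
    · exact ind_of (fun x hx => (Finset.mem_filter.mp (h hx)).2)
    · exact ind_not_of (fun h2 => h (fun x hx => Finset.mem_filter.mpr ⟨hs' hx, h2 x hx⟩))
  rw [Finset.sum_congr rfl h1, ← Finset.sum_filter, Finset.sum_const, nsmul_eq_mul, mul_one]
  congr 1
  unfold cnt
  rw [← Finset.card_powersetCard]
  congr 1
  ext s
  rw [Finset.mem_filter, Finset.mem_powersetCard, Finset.mem_powersetCard]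
  constructor
  · rintro ⟨⟨_, h2⟩, h3⟩
    exact ⟨by convert h3, h2⟩
  · rintro ⟨h2, h3⟩
    have h2' : s ⊆ (Icc 1 m).filter (fun x => V F x) := by convert h2
    exact ⟨⟨h2'.trans (Finset.filter_subset _ _), h3⟩, h2'⟩

/-- moment bound -/
theorem moment : ∃ C : ℝ, 0 < C ∧ ∀ (N m k : ℕ), 4 * m ≤ N → 1 ≤ k → k ≤ m →
    ∑ s ∈ powersetCard k (Icc 1 m), PV N s ≤ (C * ((m : ℝ) / k) ^ ((2/3) : ℝ)) ^ k := by
  obtain ⟨C, hC, h⟩ := weighted
  refine ⟨Real.exp 1 * (4 * C), by positivity, ?_⟩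
  intro N m k hN hk hkm
  obtain ⟨k, rfl⟩ := Nat.exists_eq_succ_of_ne_zero (by omega : k ≠ 0)
  have hm0 : (0 : ℝ) < m := by exact_mod_cast (by omega : 0 < m)
  have hk0 : (0 : ℝ) < ((k.succ : ℕ) : ℝ) := by exact_mod_cast (by omega : 0 < k.succ)
  set θ : ℝ := ((k.succ : ℕ) : ℝ) / m with hθ
  have hθ0 : 0 < θ := by positivity
  have hθ1 : θ ≤ 1 := by
    rw [hθ, div_le_one hm0]; exact_mod_cast hkm
  have h1 := h N m hN θ k
  have h2 := sum_ker hC hθ0 hθ1 m
  have hker : 0 ≤ ∑ g ∈ Icc 1 m, ker C θ g := Finset.sum_nonneg (fun g _ => ker_nonneg hC.le θ g)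
  have h3 : ∑ s ∈ powersetCard (k + 1) (Icc 1 m), PV N s ≤
      Real.exp (θ * m) * ∑ y ∈ Icc 1 m, Real.exp (-(θ * y)) * UU N k y := by
    rw [sum_psc, Finset.mul_sum]
    apply Finset.sum_le_sum
    intro y hy
    rw [Finset.mem_Icc] at hy
    rw [← mul_assoc, ← Real.exp_add]
    have hy' : (y : ℝ) ≤ m := by exact_mod_cast hy.2
    have : 1 ≤ Real.exp (θ * m + -(θ * y)) := by
      apply Real.one_le_exp
      nlinarith
    exact le_mul_of_one_le_left (UU_nonneg _ _ _) this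
  have h4 : Real.exp (θ * m) = Real.exp 1 ^ (k + 1) := by
    rw [← Real.exp_nat_mul, hθ]
    congr 1
    rw [div_mul_cancel₀ _ hm0.ne']
    push_cast
    ring
  have h5 : θ ^ (-(2/3) : ℝ) = ((m : ℝ) / ((k.succ : ℕ) : ℝ)) ^ ((2/3) : ℝ) := by
    rw [Real.rpow_neg hθ0.le, ← Real.inv_rpow hθ0.le, hθ, inv_div]
  calc ∑ s ∈ powersetCard (k + 1) (Icc 1 m), PV N s
      ≤ Real.exp (θ * m) * ∑ y ∈ Icc 1 m, Real.exp (-(θ * y)) * UU N k y := h3
    _ ≤ Real.exp (θ * m) * (4 * C * θ ^ (-(2/3) : ℝ)) ^ (k + 1) := by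
        apply mul_le_mul_of_nonneg_left _ (Real.exp_nonneg _)
        exact h1.trans (pow_le_pow_left₀ hker h2 _)
    _ = _ := by
        rw [h4, h5, ← mul_pow]
        congr 1
        ring

/-- upper tail in finite volume -/
theorem tail_fin : ∃ C : ℝ, 0 < C ∧ ∀ (N m k n : ℕ), 4 * m ≤ N → 1 ≤ k → k ≤ m → 2 * k ≤ n →
    P2 (VE (-(N : ℤ)) N 0 N) (fun F => n ≤ cnt m F) ≤
      (C * (k : ℝ) ^ ((1/3) : ℝ) * (m : ℝ) ^ ((2/3) : ℝ) / n) ^ k := by
  obtain ⟨C, hC, h⟩ := moment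
  refine ⟨2 * C, by positivity, ?_⟩
  intro N m k n hN hk hkm hkn
  set S := VE (-(N : ℤ)) N 0 N with hS
  have hm0 : (0 : ℝ) < m := by exact_mod_cast (by omega : 0 < m)
  have hk0 : (0 : ℝ) < (k : ℝ) := by exact_mod_cast hk
  have hn0 : (0 : ℝ) < (n : ℝ) := by exact_mod_cast (by omega : 0 < n)
  have hch : ((n : ℝ) / (2 * k)) ^ k ≤ (n.choose k : ℝ) := by
    refine le_trans ?_ (Nat.pow_le_choose k n)
    rw [div_pow, div_le_div_iff₀ (by positivity) (by positivity)]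
    have h1 : (n : ℝ) / 2 ≤ ((n + 1 - k : ℕ) : ℝ) := by
      rw [Nat.cast_sub (by omega)]
      push_cast
      have : 2 * (k : ℝ) ≤ n := by exact_mod_cast hkn
      linarith
    have h2 : (k.factorial : ℝ) ≤ (k : ℝ) ^ k := by exact_mod_cast Nat.factorial_le_pow k
    calc (n : ℝ) ^ k * (k.factorial : ℝ) ≤ (n : ℝ) ^ k * (k : ℝ) ^ k :=
          mul_le_mul_of_nonneg_left h2 (by positivity)
      _ = ((n : ℝ) / 2) ^ k * (2 * (k : ℝ)) ^ k := by
          rw [← mul_pow, ← mul_pow]; congr 1; ring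
      _ ≤ ((n + 1 - k : ℕ) : ℝ) ^ k * (2 * (k : ℝ)) ^ k :=
          mul_le_mul_of_nonneg_right (pow_le_pow_left₀ (by positivity) h1 _) (by positivity)
  have hmk : P2 S (fun F => n ≤ cnt m F) * (n.choose k : ℝ) ≤
      ∑ s ∈ powersetCard k (Icc 1 m), PV N s := by
    have e1 : ∑ s ∈ powersetCard k (Icc 1 m), PV N s =
        Ex (fun _ => (1/2 : ℝ)) S (fun F => ∑ s ∈ powersetCard k (Icc 1 m),
          ind (∀ x ∈ s, V F x)) := by
      rw [Ex_sum]
      rfl
    rw [e1, mul_comm]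
    unfold P2 Pr
    rw [← Ex_mul_left]
    apply Ex_mono okhalf2
    intro F _
    rw [choose_cnt]
    by_cases hc : n ≤ cnt m F
    · rw [ind_of hc, mul_one]
      exact_mod_cast Nat.choose_le_choose k hc
    · rw [ind_not_of hc, mul_zero]
      positivity
  have hm := h N m k hN hk hkm
  have hq : 0 < ((n : ℝ) / (2 * k)) ^ k := by positivity
  have h3 : P2 S (fun F => n ≤ cnt m F) * ((n : ℝ) / (2 * k)) ^ k ≤
      (C * ((m : ℝ) / k) ^ ((2/3) : ℝ)) ^ k :=
    (mul_le_mul_of_nonneg_left hch (Pr_nonneg okhalf2 _ _)).trans (hmk.trans hm)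
  rw [← le_div_iff₀ hq, ← div_pow] at h3
  refine h3.trans (le_of_eq ?_)
  congr 1
  rw [Real.div_rpow hm0.le hk0.le]
  have h4 : (k : ℝ) = (k : ℝ) ^ ((1/3) : ℝ) * (k : ℝ) ^ ((2/3) : ℝ) := by
    rw [← Real.rpow_add hk0]; norm_num
  have h5 : (k : ℝ) ^ ((2/3) : ℝ) ≠ 0 := (Real.rpow_pos_of_pos hk0 _).ne'
  rw [div_div_eq_mul_div]
  congr 1
  rw [mul_div_assoc', div_mul_eq_mul_div, div_eq_iff h5]
  nth_rewrite 1 [h4]
  ring

end H389KP
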