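import Pool.Agent.H389R2.KP.Tail2

set_option maxHeartbeats 400000

namespace H389KP

open H974 H731C Finset MeasureTheory Filter Topology

theorem cnt_le (m : ℕ) (F : Finset Edg) : cnt m F ≤ m := by
  classical
  unfold cnt
  refine (Finset.card_filter_le _ _).trans ?_
  simp

theorem tail_exp : ∃ a : ℝ, 0 < a ∧ ∀ (N m : ℕ), 4 * m ≤ N → 1 ≤ m → ∀ t : ℝ, 0 ≤ t →
    P2 (VE (-(N : ℤ)) N 0 N) (fun F => t * (m : ℝ) ^ ((2/3) : ℝ) ≤ cnt m F) ≤
      Real.exp 1 * Real.exp (-(a * t ^ 3)) := by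
  obtain ⟨C, hC, h⟩ := tail_fin
  have he := Real.exp_pos 1
  refine ⟨min (1/2) (1 / (Real.exp 1 * C) ^ 3), lt_min (by norm_num) (by positivity), ?_⟩
  set a : ℝ := min (1/2) (1 / (Real.exp 1 * C) ^ 3) with ha
  have ha0 : 0 < a := lt_min (by norm_num) (by positivity)
  have ha1 : a ≤ 1/2 := min_le_left _ _
  have ha2 : a ≤ 1 / (Real.exp 1 * C) ^ 3 := min_le_right _ _
  intro N m hN hm t ht
  set S := VE (-(N : ℤ)) N 0 N with hS
  have hm0 : (0 : ℝ) < m := by exact_mod_cast (by omega : 0 < m)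
  have hm1 : (1 : ℝ) ≤ m := by exact_mod_cast hm
  have hm23 : 0 < (m : ℝ) ^ ((2/3) : ℝ) := Real.rpow_pos_of_pos hm0 _
  have hm13 : 0 < (m : ℝ) ^ ((1/3) : ℝ) := Real.rpow_pos_of_pos hm0 _
  have hmm : (m : ℝ) ^ ((1/3) : ℝ) * (m : ℝ) ^ ((2/3) : ℝ) = m := by
    rw [← Real.rpow_add hm0]; norm_num
  have hR : 0 < Real.exp 1 * Real.exp (-(a * t ^ 3)) := by positivity
  by_cases hk : a * t ^ 3 < 1
  · refine (Pr_le_one okhalf2 _ _).trans ?_
    rw [← Real.exp_add]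
    apply Real.one_le_exp
    linarith
  push Not at hk
  have ht0 : 0 < t := by
    rcases ht.eq_or_lt with h0 | h0
    · rw [← h0] at hk; norm_num at hk
    · exact h0
  by_cases htm : (m : ℝ) ^ ((1/3) : ℝ) < t
  · -- the event is empty
    have : P2 S (fun F => t * (m : ℝ) ^ ((2/3) : ℝ) ≤ cnt m F) = P2 S (fun _ => False) := by
      apply Pr_congr
      intro F _
      rw [iff_false, not_le]
      have h1 : (cnt m F : ℝ) ≤ m := by exact_mod_cast cnt_le m F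
      have h2 : (m : ℝ) < t * (m : ℝ) ^ ((2/3) : ℝ) := by
        rw [← hmm]
        have := mul_lt_mul_of_pos_right htm hm23
        rw [hmm] at this ⊢
        exact this
      linarith
    rw [this]
    unfold P2 Pr
    have : (fun F : Finset Edg => ind False) = fun _ => (0:ℝ) := by
      funext F; exact ind_not_of (fun h => h)
    rw [this, Ex_const]
    exact hR.le
  push Not at htm
  set k := ⌊a * t ^ 3⌋₊ with hkd
  have hk1 : 1 ≤ k := Nat.le_floor (by exact_mod_cast hk)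
  have hkle : (k : ℝ) ≤ a * t ^ 3 := Nat.floor_le (by linarith)
  have hklt : a * t ^ 3 < k + 1 := Nat.lt_floor_add_one _
  have hk0 : (0 : ℝ) < k := by exact_mod_cast (by omega : 0 < k)
  have hm3 : ((m : ℝ) ^ ((1/3) : ℝ)) ^ 3 = m := by
    rw [← Real.rpow_natCast, ← Real.rpow_mul hm0.le]; norm_num
  have ht3 : t ^ 3 ≤ m := by
    rw [← hm3]; exact pow_le_pow_left₀ ht htm 3
  have hkm : k ≤ m := by
    have : (k : ℝ) ≤ m := by nlinarith
    exact_mod_cast this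
  have hsq : ((m : ℝ) ^ ((1/3) : ℝ)) ^ 2 = (m : ℝ) ^ ((2/3) : ℝ) := by
    rw [← Real.rpow_natCast, ← Real.rpow_mul hm0.le]; norm_num
  have ht2 : t ^ 2 ≤ (m : ℝ) ^ ((2/3) : ℝ) := by
    rw [← hsq]; exact pow_le_pow_left₀ ht htm 2
  set n := ⌈t * (m : ℝ) ^ ((2/3) : ℝ)⌉₊ with hn
  have hn1 : t * (m : ℝ) ^ ((2/3) : ℝ) ≤ n := Nat.le_ceil _
  have hkn : 2 * k ≤ n := by
    have h1 : 2 * (k : ℝ) ≤ t ^ 3 := by nlinarith [pow_pos ht0 3]
    have h2 : t ^ 3 ≤ t * (m : ℝ) ^ ((2/3) : ℝ) := by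
      rw [pow_succ, mul_comm]; exact mul_le_mul_of_nonneg_left ht2 ht
    have : (2 * (k : ℝ)) ≤ n := by linarith
    exact_mod_cast this
  have h1 := h N m k n hN hk1 hkm hkn
  have h2 : P2 S (fun F => t * (m : ℝ) ^ ((2/3) : ℝ) ≤ cnt m F) ≤ P2 S (fun F => n ≤ cnt m F) :=
    Pr_mono okhalf2 (fun F _ hF => Nat.ceil_le.mpr hF)
  refine h2.trans (h1.trans ?_)
  have hn0 : (0 : ℝ) < n := by
    have : 0 < t * (m : ℝ) ^ ((2/3) : ℝ) := by positivity
    linarith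
  -- the base is at most e^{-1}
  have hb : C * (k : ℝ) ^ ((1/3) : ℝ) * (m : ℝ) ^ ((2/3) : ℝ) / n ≤ Real.exp (-1) := by
    have h3 : (k : ℝ) ^ ((1/3) : ℝ) ≤ t / (Real.exp 1 * C) := by
      have h4 : (k : ℝ) ≤ (t / (Real.exp 1 * C)) ^ 3 := by
        refine hkle.trans ?_
        rw [div_pow]
        calc a * t ^ 3 ≤ (1 / (Real.exp 1 * C) ^ 3) * t ^ 3 :=
              mul_le_mul_of_nonneg_right ha2 (by positivity)
          _ = _ := by ring
      have h5 : ((t / (Real.exp 1 * C)) ^ 3) ^ ((1/3) : ℝ) = t / (Real.exp 1 * C) := by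
        rw [← Real.rpow_natCast, ← Real.rpow_mul (by positivity)]
        norm_num
      rw [← h5]
      exact Real.rpow_le_rpow hk0.le h4 (by norm_num)
    rw [div_le_iff₀ hn0]
    calc C * (k : ℝ) ^ ((1/3) : ℝ) * (m : ℝ) ^ ((2/3) : ℝ)
        ≤ C * (t / (Real.exp 1 * C)) * (m : ℝ) ^ ((2/3) : ℝ) := by
          apply mul_le_mul_of_nonneg_right _ hm23.le
          exact mul_le_mul_of_nonneg_left h3 hC.le
      _ = Real.exp (-1) * (t * (m : ℝ) ^ ((2/3) : ℝ)) := by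
          rw [Real.exp_neg]
          field_simp
      _ ≤ _ := mul_le_mul_of_nonneg_left hn1 (Real.exp_nonneg _)
  calc (C * (k : ℝ) ^ ((1/3) : ℝ) * (m : ℝ) ^ ((2/3) : ℝ) / n) ^ k
      ≤ Real.exp (-1) ^ k := pow_le_pow_left₀ (by positivity) hb k
    _ = Real.exp (-(k : ℝ)) := by rw [← Real.exp_nat_mul]; congr 1; ring
    _ ≤ Real.exp 1 * Real.exp (-(a * t ^ 3)) := by
        rw [← Real.exp_add]
        apply Real.exp_le_exp.mpr
        linarith

/-! ### infinite volume -/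

open Classical in
/-- number of boundary points in `[1, m]` which belong to the cluster of the negative half-axis -/
noncomputable def Nv (m : ℕ) (ω : Conf) : ℕ :=
  ((Icc 1 m).filter (fun x : ℕ => ((x : ℤ), 0) ∈ Cm ω)).card

theorem V_Cm {N : ℕ} {ω : Conf} {x : ℕ} (h : V (ON N ω) x) : ((x : ℤ), 0) ∈ Cm ω :=
  (reach_Cm h).2

theorem cnt_le_Nv (N m : ℕ) (ω : Conf) : cnt m (ON N ω) ≤ Nv m ω := by
  classical
  unfold cnt Nv
  apply Finset.card_le_card
  intro x hx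
  rw [Finset.mem_filter] at hx ⊢
  exact ⟨hx.1, V_Cm hx.2⟩

theorem Nv_eq (m : ℕ) (ω : Conf) : ∃ N : ℕ, Nv m ω = cnt m (ON N ω) := by
  classical
  have key : ∀ s : Finset ℕ, (∀ x ∈ s, ((x : ℤ), 0) ∈ Cm ω) → ∃ N : ℕ, ∀ x ∈ s, V (ON N ω) x := by
    intro s
    induction s using Finset.induction_on with
    | empty => exact fun _ => ⟨0, by simp⟩
    | insert a s ha ih =>
      intro h
      obtain ⟨N, hN⟩ := ih (fun x hx => h x (Finset.mem_insert_of_mem hx))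
      obtain ⟨M, hM⟩ := Cm_reach (h a (Finset.mem_insert_self _ _))
      refine ⟨max N M, ?_⟩
      intro x hx
      rcases Finset.mem_insert.mp hx with rfl | hx
      · exact W.mono (ON_mono (le_max_right _ _) ω) hM
      · exact (hN x hx).mono (ON_mono (le_max_left _ _) ω)
  obtain ⟨N, hN⟩ := key ((Icc 1 m).filter (fun x : ℕ => ((x : ℤ), 0) ∈ Cm ω))
    (fun x hx => (Finset.mem_filter.mp hx).2)
  refine ⟨N, le_antisymm ?_ (cnt_le_Nv N m ω)⟩
  unfold cnt Nv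
  apply Finset.card_le_card
  intro x hx
  have hx2 := hN x hx
  rw [Finset.mem_filter] at hx ⊢
  exact ⟨hx.1, hx2⟩

theorem cnt_mono {N M m : ℕ} (h : N ≤ M) (ω : Conf) : cnt m (ON N ω) ≤ cnt m (ON M ω) := by
  classical
  unfold cnt
  apply Finset.card_le_card
  intro x hx
  rw [Finset.mem_filter] at hx ⊢
  exact ⟨hx.1, hx.2.mono (ON_mono h ω)⟩

theorem Nv_iUnion (m : ℕ) (t : ℝ) :
    {ω : Conf | t ≤ Nv m ω} = ⋃ N : ℕ, {ω | t ≤ cnt m (ON N ω)} := by
  ext ω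
  simp only [Set.mem_iUnion]
  constructor
  · intro h
    obtain ⟨N, hN⟩ := Nv_eq m ω
    refine ⟨N, ?_⟩
    have h' : t ≤ Nv m ω := h
    rw [hN] at h'
    exact h'
  · rintro ⟨N, hN⟩
    have h' : t ≤ cnt m (ON N ω) := hN
    have : (cnt m (ON N ω) : ℝ) ≤ Nv m ω := by exact_mod_cast cnt_le_Nv N m ω
    exact h'.trans this

theorem Nv_tendsto (m : ℕ) (t : ℝ) :
    Tendsto (fun N : ℕ => P2 (VE (-(N : ℤ)) N 0 N) (fun F => t ≤ cnt m F)) atTop
      (𝓝 (perc.real {ω : Conf | t ≤ Nv m ω})) := by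
  have hm : Monotone (fun N : ℕ => {ω : Conf | t ≤ cnt m (ON N ω)}) := by
    intro N M h ω hω
    have h1 : t ≤ cnt m (ON N ω) := hω
    have : (cnt m (ON N ω) : ℝ) ≤ cnt m (ON M ω) := by exact_mod_cast cnt_mono h ω
    exact h1.trans this
  have h := tendsto_measure_iUnion_atTop (μ := perc) hm
  rw [← Nv_iUnion] at h
  have h2 := (ENNReal.tendsto_toReal (measure_ne_top perc _)).comp h
  refine h2.congr ?_
  intro N
  exact ON_event N (fun F => t ≤ cnt m F)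

/-- Upper tail. -/
theorem upper_tail : ∃ a : ℝ, 0 < a ∧ ∀ m : ℕ, 1 ≤ m → ∀ t : ℝ, 0 ≤ t →
    perc.real {ω : Conf | t * (m : ℝ) ^ ((2/3) : ℝ) ≤ Nv m ω} ≤
      Real.exp 1 * Real.exp (-(a * t ^ 3)) := by
  obtain ⟨a, ha, h⟩ := tail_exp
  refine ⟨a, ha, ?_⟩
  intro m hm t ht
  refine le_of_tendsto (Nv_tendsto m _) ?_
  filter_upwards [eventually_ge_atTop (4 * m)] with N hN
  exact h N m hN hm t ht

end H389KP
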